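import Pool.Agent.Lib_helper60.K4M.Main2
import Pool.Agent.Lib_helper86.K4.Delta

/-!
The differentials of the polylogarithmic complex: `{x}₂ ↦ (1-x) ∧ x` and
`{x}₂ ⊗ u ↦ (1-x) ∧ x ∧ u`.
-/

set_option linter.unusedSectionVars false

open scoped TensorProduct

namespace K4M

section Delta

variable (F : Type*) [Field F]

/-- the exterior algebra of `F^*_ℚ` -/
abbrev EA : Type _ := ExteriorAlgebra ℚ (FT F)

/-- `u ∧ v` -/
noncomputable def wg : FT F →ₗ[ℚ] FT F →ₗ[ℚ] EA F :=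
  (LinearMap.mul ℚ (EA F)).compl₁₂ (ExteriorAlgebra.ι ℚ) (ExteriorAlgebra.ι ℚ)

/-- `z ∧ u` -/
noncomputable def wg3 : EA F →ₗ[ℚ] FT F →ₗ[ℚ] EA F :=
  (LinearMap.mul ℚ (EA F)).compl₂ (ExteriorAlgebra.ι ℚ)

variable {F}

lemma wg_self (x : FT F) : wg F x x = 0 := ExteriorAlgebra.ι_sq_zero x

lemma wg3_wg (x y : FT F) : wg3 F (wg F x y) y = 0 := by
  show ExteriorAlgebra.ι ℚ x * ExteriorAlgebra.ι ℚ y * ExteriorAlgebra.ι ℚ y = 0
  rw [mul_assoc, ExteriorAlgebra.ι_sq_zero, mul_zero]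

lemma wg_swap (x y : FT F) : wg F y x = - wg F x y :=
  Pool.Agent.K4ParP.w_swap wg_self x y

/-- `x ↦ (1-x) ∧ x` on symbols -/
noncomputable def de0 (F : Type*) [Field F] : (F →₀ ℚ) →ₗ[ℚ] EA F :=
  Finsupp.lsum ℚ fun x => (LinearMap.id : ℚ →ₗ[ℚ] ℚ).smulRight (wg F (lg (1 - x)) (lg x))

lemma de0_bs (x : F) : de0 F (bs x) = wg F (lg (1 - x)) (lg x) := by
  unfold de0 bs
  simp

lemma de0_five {x y : F} (hx0 : x ≠ 0) (hx1 : x ≠ 1) (hy0 : y ≠ 0) (hy1 : y ≠ 1)
    (hxy : x ≠ y) : de0 F (fiveTerm F x y) = 0 := by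
  have h1x : 1 - x ≠ 0 := sub_ne_zero.mpr hx1.symm
  have h1y : 1 - y ≠ 0 := sub_ne_zero.mpr hy1.symm
  have hd : x - y ≠ 0 := sub_ne_zero.mpr hxy
  have e1 : lg (y / x) = lg y - lg x := lg_div hy0 hx0
  have e1' : lg (1 - y / x) = lg (x - y) - lg x := by
    rw [← lg_div hd hx0]; congr 1; field_simp
  have e2 : lg ((1 - x) / (1 - y)) = lg (1 - x) - lg (1 - y) := lg_div h1x h1y
  have e2' : lg (1 - (1 - x) / (1 - y)) = lg (x - y) - lg (1 - y) := by
    rw [← lg_div hd h1y]; congr 1; field_simp; ring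
  have hz : (1 - x⁻¹) / (1 - y⁻¹) = (1 - x) * y / ((1 - y) * x) := by
    have a1 : (1 - x⁻¹) = -(1 - x) / x := by field_simp; ring
    have a2 : (1 - y⁻¹) = -(1 - y) / y := by field_simp; ring
    rw [a1, a2]; field_simp
  have e3 : lg ((1 - x⁻¹) / (1 - y⁻¹)) = lg (1 - x) + lg y - lg (1 - y) - lg x := by
    rw [hz, lg_div (mul_ne_zero h1x hy0) (mul_ne_zero h1y hx0), lg_mul h1x hy0, lg_mul h1y hx0]
    abel
  have e3' : lg (1 - (1 - x⁻¹) / (1 - y⁻¹)) = lg (x - y) - lg (1 - y) - lg x := by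
    rw [hz, show 1 - (1 - x) * y / ((1 - y) * x) = (x - y) / ((1 - y) * x) by field_simp; ring,
      lg_div hd (mul_ne_zero h1y hx0), lg_mul h1y hx0]
    abel
  unfold fiveTerm
  rw [map_add, map_sub, map_add, map_sub, de0_bs, de0_bs, de0_bs, de0_bs, de0_bs, e1, e1', e2, e2',
    e3, e3']
  simp only [map_add, map_sub, LinearMap.sub_apply, wg_self]
  rw [wg_swap (lg (1 - x)) (lg x), wg_swap (lg (1 - y)) (lg x)]
  abel

/-- the differential `{x}₂ ↦ (1-x) ∧ x` -/
noncomputable def de (F : Type*) [Field F] : B2 F →ₗ[ℚ] EA F :=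
  Submodule.liftQ _ (de0 F) (by
    rw [Submodule.span_le]
    rintro z (rfl | rfl | ⟨x, y, h1, h2, h3, h4, h5, rfl⟩)
    · show de0 F (bs 0) = 0
      rw [de0_bs, lg_zero, map_zero]
    · show de0 F (bs 1) = 0
      rw [de0_bs, lg_one, map_zero]
    · exact de0_five h1 h2 h3 h4 h5)

lemma de_sy (x : F) : de F (sy x) = wg F (lg (1 - x)) (lg x) := by
  unfold de sy
  rw [Submodule.liftQ_apply, de0_bs]

/-- the differential `{x}₂ ⊗ u ↦ (1-x) ∧ x ∧ u` of `H(F)` -/
noncomputable def dH (F : Type*) [Field F] : HK F →ₗ[ℚ] EA F :=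
  Submodule.liftQ _ (TensorProduct.lift ((wg3 F).comp (de F))) (by
    rw [Submodule.span_le]
    rintro z ⟨f, -, -, rfl⟩
    show TensorProduct.lift ((wg3 F).comp (de F)) (sy f ⊗ₜ[ℚ] lg f) = 0
    rw [TensorProduct.lift.tmul, LinearMap.comp_apply, de_sy, wg3_wg])

lemma dH_hk (x : B2 F) (u : FT F) : dH F (hk x u) = wg3 F (de F x) u := by
  unfold dH hk
  rw [Submodule.liftQ_apply, TensorProduct.lift.tmul, LinearMap.comp_apply]

section Curve

open Pool.Agent.K4ParP

variable [DecidableEq F] {W : WeierstrassCurve.Affine F} {A : AddSubgroup W.Point}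

lemma one_sub_cr {D : A → A → F} (hD : Bracket D) {a b c d : A} (hac : D a c ≠ 0)
    (hbd : D b d ≠ 0) :
    1 - D a b * D c d / (D a c * D b d) = D a d * D b c / (D a c * D b d) := by
  rw [eq_div_iff (mul_ne_zero hac hbd), sub_mul, div_mul_cancel₀ _ (mul_ne_zero hac hbd)]
  linear_combination -(hD.pl a b c d)

lemma dxA_bracket : Bracket (fun a b : A => dx (a : W.Point) (b : W.Point)) where
  anti a b := dx_bracket.anti _ _
  pl a b c d := dx_bracket.pl _ _ _ _

variable [Fintype A]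

lemma CR_zero_eq {B : Type*} [AddCommGroup B] [Module ℚ B] (t : A → A → B) (a b c d : A) :
    Pool.Agent.K4ParP.CR t 0 a b c d = Pool.Agent.K4Par.CR t a b c d := by
  unfold Pool.Agent.K4ParP.CR Pool.Agent.K4Par.CR Pool.Agent.K4ParP.th Pool.Agent.K4Par.th
  simp only [add_zero, neg_zero, zero_sub]

lemma relD_curve [CharZero F] (hP : PencilStatement W)
    (h2 : Function.Injective fun a : A => a + a)
    (h3 : Function.Injective fun a : A => a + a + a) {g : A → FT F} (hg : IsSiegel A g) :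
    RelD (de F) (wg F) (tA A) g 0 := by
  intro a b c d hab hab' hac hac' had had' hbc hbc' hbd hbd' hcd hcd'
  rw [CR_zero_eq, ← CA_eq hP h2 h3]
  have hn : ∀ x y : A, x + y + 0 ≠ 0 → x ≠ -y := by
    intro x y h h'
    apply h
    rw [h']; abel
  have nab := dxA_ne hab (hn _ _ hab')
  have nac := dxA_ne hac (hn _ _ hac')
  have nad := dxA_ne had (hn _ _ had')
  have nbc := dxA_ne hbc (hn _ _ hbc')
  have nbd := dxA_ne hbd (hn _ _ hbd')
  have ncd := dxA_ne hcd (hn _ _ hcd')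
  obtain ⟨-, -, h⟩ := hg
  have eab := h a b hab (hn _ _ hab')
  have eac := h a c hac (hn _ _ hac')
  have ead := h a d had (hn _ _ had')
  have ebc := h b c hbc (hn _ _ hbc')
  have ebd := h b d hbd (hn _ _ hbd')
  have ecd := h c d hcd (hn _ _ hcd')
  have key : de F (CA A a b c d) =
      wg F (lg (dx (a : W.Point) d * dx (b : W.Point) c / (dx (a : W.Point) c * dx (b : W.Point) d)))
      (lg (dx (a : W.Point) b * dx (c : W.Point) d / (dx (a : W.Point) c * dx (b : W.Point) d))) := by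
    unfold CA cr
    rw [de_sy, one_sub_cr (D := fun a b : A => dx (a : W.Point) (b : W.Point)) dxA_bracket nac nbd]
  rw [key, lg_div (mul_ne_zero nad nbc) (mul_ne_zero nac nbd), lg_mul nad nbc, lg_mul nac nbd,
    lg_div (mul_ne_zero nab ncd) (mul_ne_zero nac nbd), lg_mul nab ncd, lg_mul nac nbd,
    eab, eac, ead, ebc, ebd, ecd]
  congr 1
  · congr 1
    unfold ss
    simp only [add_zero]
    module
  · unfold ss
    simp only [add_zero]
    module

/-- the classes `ξ(a,b)` are closed -/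
theorem xi_closed_curve [CharZero F] (hP : PencilStatement W)
    (h2 : Function.Injective fun a : A => a + a)
    (h3 : Function.Injective fun a : A => a + a + a) {g : A → FT F} (hg : IsSiegel A g) (a b : A) :
    dH F (hk (tA A a b) (g b - g a)) = 0 := by
  rw [dH_hk]
  have h2' : ∀ P : A, ∃ Q, Q + Q = P := (Finite.injective_iff_bijective.mp h2).2
  have hT := tA_isT (A := A) hP h2
  exact xi_closed (w₃ := wg3 F) wg_self wg3_wg ⟨hT.swap, hT.rot, hT.even⟩ hg.2.1
    (relD_of_zero h2' (relD_curve hP h2 h3 hg)) a b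

/-- `δ t(a,b) = g_a ∧ g_b + g_b ∧ g_{a+b} + g_{a+b} ∧ g_a` -/
theorem de_tA [CharZero F] (hP : PencilStatement W)
    (h2 : Function.Injective fun a : A => a + a)
    (h3 : Function.Injective fun a : A => a + a + a) {g : A → FT F} (hg : IsSiegel A g) (a b : A) :
    de F (tA A a b) = wg F (g a) (g b) + wg F (g b) (g (a + b)) + wg F (g (a + b)) (g a) := by
  have h2' : ∀ P : A, ∃ Q, Q + Q = P := (Finite.injective_iff_bijective.mp h2).2
  have hT := tA_isT (A := A) hP h2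
  exact delta_t wg_self ⟨hT.swap, hT.rot, hT.even⟩ hg.2.1
    (relD_of_zero h2' (relD_curve hP h2 h3 hg)) a b

end Curve

end Delta

end K4M
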