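import Pool.Agent.Lib_helper60.K4M.GT

/-!
The distribution relation and the pencil relations for the Siegel units of all torsion points.
-/

set_option linter.unusedSectionVars false

namespace K4M

open WeierstrassCurve.Affine Pool.Agent.K4D2

section GT2

variable {F : Type*} [Field F] [DecidableEq F] [CharZero F] {W : WeierstrassCurve.Affine F}

/-- the Siegel relation -/
theorem gT_rel {a b : TP W} (h : a ≠ b) (h' : a ≠ -b) :
    lg (dx (a : W.Point) b) = gT (a + b) + gT (a - b) - (2 : ℚ) • gT a - (2 : ℚ) • gT b := by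
  obtain ⟨n, hn, ha, hb⟩ := TP_LF.two a b
  have := finite_torS (W := W) n hn
  have ha' : (a : W.Point) ∈ torS W.Point n := by
    rw [mem_torS, ← AddSubgroup.coe_nsmul, ha]; rfl
  have hb' : (b : W.Point) ∈ torS W.Point n := by
    rw [mem_torS, ← AddSubgroup.coe_nsmul, hb]; rfl
  refine siegel_rel (gT_isG4 (torS W.Point n)) (a := ⟨a, ha'⟩) (b := ⟨b, hb'⟩) ?_ ?_
  · intro e
    exact h (Subtype.ext (congrArg (fun z : torS W.Point n => (z : W.Point)) e))
  · intro e
    exact h' (Subtype.ext (congrArg (fun z : torS W.Point n => (z : W.Point)) e))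

/-- sums over the `k`-torsion of a finite group of points containing it -/
lemma sum_tors_TP {V : Type*} [AddCommMonoid V] {k : ℕ} (hk : 0 < k) [Fintype (tor (TP W) k)]
    (A : AddSubgroup W.Point) [Fintype A] (hA : torS W.Point k ≤ A) (f : TP W → V) :
    ∑ i ∈ tors A k, f ⟨(i : W.Point), le_TP A i.2⟩ = ∑ i : tor (TP W) k, f i := by
  refine Finset.sum_bij' (fun i hi => (⟨⟨(i : W.Point), le_TP A i.2⟩, ?_⟩ : tor (TP W) k))
    (fun i _ => (⟨((i : TP W) : W.Point), hA ?_⟩ : A)) ?_ ?_ ?_ ?_ ?_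
  · have := mem_tors.mp hi
    have h := congrArg (fun z : A => (z : W.Point)) this
    rw [mem_tor]
    apply Subtype.ext
    simpa using h
  · have h : k • (i : TP W) = 0 := mem_tor.mp i.2
    rw [mem_torS, ← AddSubgroup.coe_nsmul, h]; rfl
  · intro i hi; exact Finset.mem_univ _
  · intro i _
    rw [mem_tors]
    apply Subtype.ext
    have h : k • (i : TP W) = 0 := mem_tor.mp i.2
    rw [AddSubgroup.coe_nsmul]
    show k • ((i : TP W) : W.Point) = 0
    rw [← AddSubgroup.coe_nsmul, h]; rfl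
  · intro i hi; rfl
  · intro i hi; rfl
  · intro i hi; rfl

variable [∀ n : ℕ, Fintype (tor (TP W) (n + 1))]

/-- the distribution relation of the Siegel units of all torsion points -/
theorem dgT (hT : TD (TP W)) : ∃ s : FT F, ∀ (n : ℕ) (a : TP W),
    ∑ i : tor (TP W) (n + 1), gT (a + (i : TP W)) = gT ((n + 1) • a) +
      (((n + 1 : ℕ) : ℚ) ^ 2 - 1) • s +
      open Classical in (if (n + 1) • a = 0 then lg (((n + 1 : ℕ) : F)) else 0) := by
  classical
  refine ⟨(3 : ℚ)⁻¹ • (∑ i : tor (TP W) (1 + 1), gT (0 + (i : TP W)) - lg (((1 + 1 : ℕ) : F))),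
    fun n a => ?_⟩
  obtain ⟨N, hN⟩ := hT.tors a
  obtain ⟨K', hK'⟩ : ∃ K', K' + 1 = (1 + 1) * (n + 1) * (N + 1) := by
    refine ⟨(1 + 1) * (n + 1) * (N + 1) - 1, ?_⟩
    have : 0 < (1 + 1) * (n + 1) * (N + 1) := by positivity
    omega
  set K := K' + 1 with hK
  have hK0 : K ≠ 0 := Nat.succ_ne_zero K'
  have hfin := finite_torS (W := W) K (Nat.pos_of_ne_zero hK0)
  have := Fintype.ofFinite (torS W.Point K)
  set A := torS W.Point K with hA
  have hcard : (tors A K).card = K ^ 2 := by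
    rw [← hT.card K']
    have e := sum_tors_TP (V := ℕ) (Nat.succ_pos K') A (le_refl A) (fun _ => 1)
    simpa using e
  obtain ⟨s, hs⟩ := dg (gT_isG4 A) hK0 hcard
  have hle : ∀ k, k ∣ K → torS W.Point k ≤ A := by
    intro k hk x hx
    obtain ⟨r, hr⟩ := hk
    rw [mem_torS] at hx
    rw [hA, mem_torS, hr, mul_comm, mul_smul, hx, smul_zero]
  have h2K : (1 + 1) ∣ K := ⟨(n + 1) * (N + 1), by rw [hK']; ring⟩
  have hnK : (n + 1) ∣ K := ⟨(1 + 1) * (N + 1), by rw [hK']; ring⟩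
  have e2 := hs (1 + 1) h2K 0
  rw [smul_zero, if_pos rfl] at e2
  have e2' := sum_tors_TP (Nat.succ_pos 1) A (hle _ h2K) (fun i => gT (0 + i))
  have e3 : ∑ i ∈ tors A (1 + 1), gT ((⟨((0 + i : A) : W.Point), le_TP A (0 + i : A).2⟩ : TP W)) =
      ∑ i ∈ tors A (1 + 1), gT (0 + (⟨(i : W.Point), le_TP A i.2⟩ : TP W)) := rfl
  rw [e3, e2'] at e2
  have h0 : gT (⟨((0 : A) : W.Point), le_TP A (0 : A).2⟩ : TP W) = 0 := gT_zero
  rw [h0] at e2
  have hsval : (3 : ℚ)⁻¹ • (∑ i : tor (TP W) (1 + 1), gT (0 + (i : TP W)) -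
      lg (((1 + 1 : ℕ) : F))) = s := by
    rw [e2]
    push_cast
    module
  rw [hsval]
  have haA : (a : W.Point) ∈ A := by
    rw [hA, mem_torS, hK', ← AddSubgroup.coe_nsmul, mul_smul, hN, smul_zero]; rfl
  have en := hs (n + 1) hnK ⟨a, haA⟩
  have en' := sum_tors_TP (Nat.succ_pos n) A (hle _ hnK) (fun i => gT (a + i))
  have en3 : ∑ i ∈ tors A (n + 1), gT ((⟨(((⟨a, haA⟩ : A) + i : A) : W.Point),
      le_TP A ((⟨a, haA⟩ : A) + i : A).2⟩ : TP W)) =
      ∑ i ∈ tors A (n + 1), gT (a + (⟨(i : W.Point), le_TP A i.2⟩ : TP W)) := rfl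
  rw [en3, en'] at en
  rw [en]
  have hz : ((n + 1) • (⟨a, haA⟩ : A) = 0) ↔ ((n + 1) • a = 0) := by
    constructor
    · intro h
      apply Subtype.ext
      have := congrArg (fun z : A => (z : W.Point)) h
      simpa using this
    · intro h
      apply Subtype.ext
      have := congrArg (fun z : TP W => (z : W.Point)) h
      simpa using this
  have hg : gT (⟨(((n + 1) • (⟨a, haA⟩ : A) : A) : W.Point),
      le_TP A ((n + 1) • (⟨a, haA⟩ : A) : A).2⟩ : TP W) = gT ((n + 1) • a) := by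
    congr 1
  rw [hg]
  congr 1
  by_cases h : (n + 1) • a = 0
  · rw [if_pos h, if_pos (hz.mpr h)]
  · rw [if_neg h, if_neg (fun h' => h (hz.mp h'))]

end GT2

end K4M
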