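import Pool.Agent.Lib_helper60.K4M.Curve

/-!
Linear algebra over a finite group of odd order: a function with `h(2a) = 4 h(a)` vanishes.
-/

namespace K4M

section Uniq

variable {A V : Type*} [AddCommGroup A] [AddCommGroup V] [Module ℚ V]

lemma iter_double {h : A → V} {c : ℚ} (hh : ∀ a, h (a + a) = c • h a) (k : ℕ) (a : A) :
    h ((2 ^ k : ℕ) • a) = c ^ k • h a := by
  induction k generalizing a with
  | zero => simp
  | succ k ih =>
    rw [pow_succ, mul_smul, two_nsmul, ih, hh, smul_smul, pow_succ]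

lemma exists_pow_smul [Finite A] (hodd : Odd (Nat.card A)) :
    ∃ k : ℕ, 0 < k ∧ ∀ a : A, (2 ^ k : ℕ) • a = a := by
  have hc : Nat.Coprime 2 (Nat.card A) := (Nat.coprime_two_left).mpr hodd
  have hpos : 0 < Nat.card A := Nat.card_pos
  refine ⟨Nat.totient (Nat.card A), Nat.totient_pos.mpr hpos, fun a => ?_⟩
  have h1 : 2 ^ Nat.totient (Nat.card A) ≡ 1 [MOD Nat.card A] := Nat.ModEq.pow_totient hc
  have h2 : addOrderOf a ∣ Nat.card A := addOrderOf_dvd_natCard a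
  have h3 : 2 ^ Nat.totient (Nat.card A) ≡ 1 [MOD addOrderOf a] := h1.of_dvd h2
  have := (nsmul_eq_nsmul_iff_modEq (x := a)).mpr h3
  rw [this, one_smul]

/-- a function with `h(2a) = c h(a)` vanishes, when no power of `c` is `1` -/
lemma double_zero [Finite A] (hodd : Odd (Nat.card A)) {c : ℚ} (hc : ∀ k : ℕ, 0 < k → c ^ k ≠ 1)
    {h : A → V} (hh : ∀ a, h (a + a) = c • h a) (a : A) : h a = 0 := by
  obtain ⟨k, hk, e⟩ := exists_pow_smul (A := A) hodd
  have h1 := iter_double hh k a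
  rw [e a] at h1
  have h2 : (1 - c ^ k) • h a = 0 := by rw [sub_smul, one_smul, ← h1, sub_self]
  rcases smul_eq_zero.mp h2 with h3 | h3
  · exact absurd (sub_eq_zero.mp h3).symm (hc k hk)
  · exact h3

lemma four_pow_ne (k : ℕ) (hk : 0 < k) : (4 : ℚ) ^ k ≠ 1 := by
  have : (1 : ℚ) < 4 ^ k := one_lt_pow₀ (by norm_num) hk.ne'
  exact this.ne'

/-- existence: every function is of the form `g(2a) - 4 g(a)` -/
lemma exists_double [Finite A] (hodd : Odd (Nat.card A)) (f : A → V) :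
    ∃ g : A → V, ∀ a, g (a + a) - (4 : ℚ) • g a = f a := by
  obtain ⟨k, hk, e⟩ := exists_pow_smul (A := A) hodd
  have h4 := four_pow_ne k hk
  have h4' : (1 - (4 : ℚ) ^ k) ≠ 0 := sub_ne_zero.mpr h4.symm
  -- g a = (1 - 4^k)⁻¹ * sum_{j<k} 4^(k-1-j) f (2^j a)
  refine ⟨fun a => (1 - (4 : ℚ) ^ k)⁻¹ •
    ∑ j ∈ Finset.range k, (4 : ℚ) ^ (k - 1 - j) • f ((2 ^ j : ℕ) • a), fun a => ?_⟩
  have s1 : ∀ j : ℕ, (2 ^ j : ℕ) • (a + a) = (2 ^ (j + 1) : ℕ) • a := by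
    intro j
    rw [pow_succ, mul_smul, two_nsmul]
  simp only [s1]
  rw [smul_comm (4 : ℚ), ← smul_sub, Finset.smul_sum]
  have key : ∑ j ∈ Finset.range k, (4 : ℚ) ^ (k - 1 - j) • f ((2 ^ (j + 1) : ℕ) • a) -
      ∑ j ∈ Finset.range k, (4 : ℚ) • (4 : ℚ) ^ (k - 1 - j) • f ((2 ^ j : ℕ) • a) =
      (1 - (4 : ℚ) ^ k) • f a := by
    have t : ∀ j ∈ Finset.range k, (4 : ℚ) ^ (k - 1 - j) • f ((2 ^ (j + 1) : ℕ) • a) =
        (4 : ℚ) ^ (k - (j + 1)) • f ((2 ^ (j + 1) : ℕ) • a) := by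
      intro j _
      rw [show k - 1 - j = k - (j + 1) by omega]
    have t' : ∀ j ∈ Finset.range k, (4 : ℚ) • (4 : ℚ) ^ (k - 1 - j) • f ((2 ^ j : ℕ) • a) =
        (4 : ℚ) ^ (k - j) • f ((2 ^ j : ℕ) • a) := by
      intro j hj
      rw [Finset.mem_range] at hj
      rw [smul_smul, show k - j = (k - 1 - j) + 1 by omega, pow_succ, mul_comm]
    rw [Finset.sum_congr rfl t, Finset.sum_congr rfl t', ← Finset.sum_sub_distrib,
      Finset.sum_range_sub (fun j => (4 : ℚ) ^ (k - j) • f ((2 ^ j : ℕ) • a))]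
    rw [Nat.sub_self, e a, Nat.sub_zero, pow_zero, pow_zero, one_smul, one_smul, sub_smul, one_smul]
  rw [key, smul_smul, inv_mul_cancel₀ h4', one_smul]

end Uniq

end K4M
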