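import Pool.Agent.Lib_helper60.K4M.Main
import Pool.Agent.Lib_helper60.K4M.Uniq
import Pool.Agent.Lib_helper2.K4.Fin

/-!
All Manin relations for the classes `ξ(a,b)`, and the Siegel units of a group of odd order.
-/

set_option linter.unusedSectionVars false

open Pool.Agent.K4Par Pool.Agent.K4Fin
open scoped TensorProduct

namespace K4M

section Abs

variable {A B G H : Type*} [AddCommGroup A] [AddCommGroup B] [Module ℚ B]
  [AddCommGroup G] [Module ℚ G] [AddCommGroup H] [Module ℚ H]

lemma xi_sym {t : A → A → B} (ht : IsT t) (m : B →ₗ[ℚ] G →ₗ[ℚ] H) (g : A → G) (a b : A) :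
    xi m t g b a = xi m t g a b := by
  unfold xi
  rw [ht.swap a b, map_neg, LinearMap.neg_apply, ← map_neg, neg_sub]

lemma xi_tri {t : A → A → B} (ht : IsT t) (m : B →ₗ[ℚ] G →ₗ[ℚ] H) (g : A → G) (a b : A) :
    xi m t g a b + xi m t g b (-a - b) + xi m t g (-a - b) a = 0 := by
  unfold xi
  have e1 : t b (-a - b) = t a b := ht.rot a b
  have e2 : t (-a - b) a = t a b := by
    have := ht.rot b (-a - b)
    rw [show -b - (-a - b) = a by abel, e1] at this
    exact this
  rw [e1, e2, ← map_add, ← map_add]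
  rw [show g b - g a + (g (-a - b) - g b) + (g a - g (-a - b)) = 0 by abel, map_zero]

end Abs

section Main

variable {F : Type*} [Field F] [DecidableEq F] {W : WeierstrassCurve.Affine F}
  {A : AddSubgroup W.Point} [Fintype A]

/-- all Manin relations -/
theorem maninSym_curve [CharZero F] (hP : PencilStatement W)
    (h2 : Function.Injective fun a : A => a + a)
    (h3 : Function.Injective fun a : A => a + a + a) {g : A → FT F} (hg : IsSiegel A g) :
    ManinSym (xi (hkL F) (tA A) g) where
  sym a b := xi_sym (tA_isT hP h2) _ _ a b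
  par a b := parity_curve hP h2 h3 hg a b
  tri a b := xi_tri (tA_isT hP h2) _ _ a b

lemma inj_two (hc : (Nat.card A).Coprime 6) : Function.Injective fun a : A => a + a := by
  intro a b hab
  have hab' : a + a = b + b := hab
  have h2 : Nat.Coprime (Nat.card A) 2 := Nat.Coprime.coprime_dvd_right (by norm_num) hc
  have h : (2 : ℕ) • (a - b) = 0 := by
    rw [smul_sub, two_nsmul, two_nsmul, hab', sub_self]
  have h1 : addOrderOf (a - b) ∣ 2 := addOrderOf_dvd_of_nsmul_eq_zero h
  have h3 : addOrderOf (a - b) ∣ Nat.card A := addOrderOf_dvd_natCard _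
  have h4 : addOrderOf (a - b) = 1 := Nat.eq_one_of_dvd_coprimes h2 h3 h1
  exact sub_eq_zero.mp (AddMonoid.addOrderOf_eq_one_iff.mp h4)

lemma inj_three (hc : (Nat.card A).Coprime 6) : Function.Injective fun a : A => a + a + a := by
  intro a b hab
  have hab' : a + a + a = b + b + b := hab
  have h2 : Nat.Coprime (Nat.card A) 3 := Nat.Coprime.coprime_dvd_right (by norm_num) hc
  have h : (3 : ℕ) • (a - b) = 0 := by
    rw [show (3 : ℕ) • (a - b) = (a + a + a) - (b + b + b) by abel, hab', sub_self]
  have h1 : addOrderOf (a - b) ∣ 3 := addOrderOf_dvd_of_nsmul_eq_zero h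
  have h3 : addOrderOf (a - b) ∣ Nat.card A := addOrderOf_dvd_natCard _
  have h4 : addOrderOf (a - b) = 1 := Nat.eq_one_of_dvd_coprimes h2 h3 h1
  exact sub_eq_zero.mp (AddMonoid.addOrderOf_eq_one_iff.mp h4)

/-- the function `g` with `g 0 = 0` and `g(2a) - 4 g(a) = [ψ₂(a)]` is unique -/
lemma siegel_unique (hodd : Odd (Nat.card A)) {g g' : A → FT F} (h0 : g 0 = 0) (h0' : g' 0 = 0)
    (h : ∀ a : A, a ≠ 0 → lg (ps (a : W.Point)) = g (a + a) - (4 : ℚ) • g a)
    (h' : ∀ a : A, a ≠ 0 → lg (ps (a : W.Point)) = g' (a + a) - (4 : ℚ) • g' a) : g = g' := by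
  funext a
  have hh : ∀ a : A, (fun x => g x - g' x) (a + a) = (4 : ℚ) • (fun x => g x - g' x) a := by
    intro a
    show g (a + a) - g' (a + a) = (4 : ℚ) • (g a - g' a)
    rcases eq_or_ne a 0 with rfl | ha
    · rw [add_zero, h0, h0', sub_zero, smul_zero]
    · have e1 := h a ha
      have e2 := h' a ha
      have e3 : g (a + a) = lg (ps (a : W.Point)) + (4 : ℚ) • g a := by rw [e1]; abel
      have e4 : g' (a + a) = lg (ps (a : W.Point)) + (4 : ℚ) • g' a := by rw [e2]; abel
      rw [e3, e4, smul_sub]; abel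
  have := double_zero (h := fun x => g x - g' x) hodd four_pow_ne hh a
  exact sub_eq_zero.mp this

end Main

end K4M
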