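import Pool.Agent.Lib_helper60.K4M.Plane

/-!
The brackets of the points of a Weierstrass curve, the group `F^* ⊗ ℚ` and the target `H(F)`.
-/

open scoped TensorProduct

namespace K4M

section Logs

variable (F : Type*) [Field F]

/-- `F^* ⊗ ℚ`, written additively -/
abbrev FT : Type _ := ℚ ⊗[ℤ] Additive Fˣ

variable {F}

/-- the class `[r]` of `r` in `F^* ⊗ ℚ`; junk value `0` for `r = 0` -/
noncomputable def lg (r : F) : FT F := by
  classical
  exact if h : r = 0 then 0 else (1 : ℚ) ⊗ₜ[ℤ] Additive.ofMul (Units.mk0 r h)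

lemma lg_zero : lg (0 : F) = 0 := by
  classical
  unfold lg; rw [dif_pos rfl]

lemma lg_of_ne {r : F} (h : r ≠ 0) :
    lg r = (1 : ℚ) ⊗ₜ[ℤ] Additive.ofMul (Units.mk0 r h) := by
  classical
  unfold lg; rw [dif_neg h]

lemma lg_mul {r s : F} (hr : r ≠ 0) (hs : s ≠ 0) : lg (r * s) = lg r + lg s := by
  rw [lg_of_ne hr, lg_of_ne hs, lg_of_ne (mul_ne_zero hr hs), ← TensorProduct.tmul_add,
    ← ofMul_mul]
  congr 2
  ext; simp

lemma lg_one : lg (1 : F) = 0 := by
  have h := lg_mul (one_ne_zero (α := F)) (one_ne_zero (α := F))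
  rw [mul_one] at h
  simpa using h

lemma lg_inv (r : F) : lg r⁻¹ = - lg r := by
  rcases eq_or_ne r 0 with rfl | h
  · rw [inv_zero, lg_zero, neg_zero]
  · have := lg_mul h (inv_ne_zero h)
    rw [mul_inv_cancel₀ h, lg_one] at this
    exact eq_neg_of_add_eq_zero_right this.symm

lemma lg_div {r s : F} (hr : r ≠ 0) (hs : s ≠ 0) : lg (r / s) = lg r - lg s := by
  rw [div_eq_mul_inv, lg_mul hr (inv_ne_zero hs), lg_inv, sub_eq_add_neg]

lemma lg_neg_one : lg (-1 : F) = 0 := by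
  have h0 : (-1 : F) ≠ 0 := neg_ne_zero.mpr one_ne_zero
  have h := lg_mul h0 h0
  rw [neg_mul_neg, one_mul, lg_one] at h
  have h2 : (2 : ℚ) • lg (-1 : F) = 0 := by rw [two_smul]; exact h.symm
  exact (smul_eq_zero.mp h2).resolve_left two_ne_zero

lemma lg_neg (r : F) : lg (-r) = lg r := by
  rcases eq_or_ne r 0 with rfl | h
  · rw [neg_zero]
  · rw [← neg_one_mul, lg_mul (neg_ne_zero.mpr one_ne_zero) h, lg_neg_one, zero_add]

lemma lg_pow {r : F} (hr : r ≠ 0) (n : ℕ) : lg (r ^ n) = (n : ℚ) • lg r := by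
  induction n with
  | zero => rw [pow_zero, lg_one, Nat.cast_zero, zero_smul]
  | succ n ih => rw [pow_succ, lg_mul (pow_ne_zero n hr) hr, ih]; push_cast; module

end Logs

section H

variable (F : Type*) [Field F]

/-- the group `H(F) = B₂(F) ⊗ F^*_ℚ / ⟨{f}₂ ⊗ f⟩`, the degree two term of the weight three
polylogarithmic complex of Goncharov and de Jeu -/
abbrev HK : Type _ :=
  (B2 F ⊗[ℚ] FT F) ⧸ Submodule.span ℚ {z | ∃ f : F, f ≠ 0 ∧ f ≠ 1 ∧ z = sy f ⊗ₜ[ℚ] lg f}

variable {F}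

/-- the class of `x ⊗ u` in `H(F)` -/
noncomputable def hk (x : B2 F) (u : FT F) : HK F := Submodule.Quotient.mk (x ⊗ₜ[ℚ] u)

end H

section Points

open WeierstrassCurve.Affine

variable {F : Type*} [Field F] [DecidableEq F] {W : WeierstrassCurve.Affine F}

/-- the `x`-coordinate of a point as a vector of `F²` -/
def xv : W.Point → F × F
  | .zero => (1, 0)
  | .some x _ _ => (x, 1)

/-- the bracket `[ab]`, equal to `x_a - x_b` for affine points -/
def dx (a b : W.Point) : F := (xv a).1 * (xv b).2 - (xv a).2 * (xv b).1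

/-- the point as a vector of `F³` -/
def pv : W.Point → F × F × F
  | .zero => (0, 1, 0)
  | .some x y _ => (x, y, 1)

/-- the determinant of three points of the plane -/
def dt (a b c : W.Point) : F :=
  (pv a).1 * ((pv b).2.1 * (pv c).2.2 - (pv b).2.2 * (pv c).2.1)
  - (pv a).2.1 * ((pv b).1 * (pv c).2.2 - (pv b).2.2 * (pv c).1)
  + (pv a).2.2 * ((pv b).1 * (pv c).2.1 - (pv b).2.1 * (pv c).1)

/-- `ψ₂ = 2y + a₁x + a₃`, the value `1` at the origin -/
def ps : W.Point → F
  | .zero => 1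
  | .some x y _ => 2 * y + W.a₁ * x + W.a₃

omit [DecidableEq F] in
lemma dx_bracket : Bracket (dx : W.Point → W.Point → F) where
  anti a b := by unfold dx; ring
  pl a b c d := by unfold dx; ring

omit [DecidableEq F] in
lemma dt_bracket : TBracket (dt : W.Point → W.Point → W.Point → F) where
  s12 a b c := by unfold dt; ring
  s23 a b c := by unfold dt; ring
  pl p a b c d := by unfold dt; ring

omit [DecidableEq F] in
lemma dx_eq_zero_iff {a b : W.Point} : dx a b = 0 ↔ a = b ∨ a = -b := by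
  rw [← Point.xRep_eq_xRep_iff]
  rcases a with _ | ⟨x, y, h⟩ <;> rcases b with _ | ⟨x', y', h'⟩
  · simp [dx, xv]
  · simp [dx, xv, Point.xRep]
  · simp [dx, xv, Point.xRep]
  · simp [dx, xv, Point.xRep, sub_eq_zero]

/-- TARGET G1 (helper87): the pencil of lines through `-2Q` and the `x`-coordinate translated
by `Q`. -/
def PencilStatement (W : WeierstrassCurve.Affine F) : Prop :=
  ∀ Q : W.Point, (Q = 0 ∨ Q + Q ≠ 0) → ∃ k : F, k ≠ 0 ∧ ∃ h : W.Point → F,
    (∀ a, a ≠ -(Q + Q) → h a ≠ 0) ∧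
    ∀ a b, a ≠ -(Q + Q) → b ≠ -(Q + Q) →
      dt (-(Q + Q)) a b = k * h a * h b * dx (a - Q) (b - Q)

/-- TARGET E1 (helper66) -/
def E1Statement (W : WeierstrassCurve.Affine F) : Prop :=
  ∀ a b : W.Point, a ≠ 0 → b ≠ 0 → a ≠ b → a ≠ -b →
    dx (a + b) (a - b) * dx a b ^ 2 = ps a * ps b ∨
    dx (a + b) (a - b) * dx a b ^ 2 = - (ps a * ps b)

/-- TARGET B4 (helper66): Siegel units of a finite group of points of odd order -/
def SiegelStatement (W : WeierstrassCurve.Affine F) : Prop :=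
  ∀ A : AddSubgroup W.Point, Finite A → Odd (Nat.card A) →
    ∃ g : A → FT F, g 0 = 0 ∧ (∀ a, g (-a) = g a) ∧
      (∀ a : A, a ≠ 0 → lg (ps (a : W.Point)) = g (a + a) - (4 : ℚ) • g a) ∧
      ∀ a b : A, a ≠ b → a ≠ -b →
        lg (dx (a : W.Point) b) = g (a + b) + g (a - b) - (2 : ℚ) • g a - (2 : ℚ) • g b

end Points

end K4M
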