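import Pool.Agent.Lib_helper60.K4M.Asm

/-!
The relations in `H(F)` and the parity of the classes `ξ(a,b)`.
-/

set_option linter.unusedSectionVars false

open Pool.Agent.K4Par
open scoped TensorProduct

namespace K4M

section Main

variable {F : Type*} [Field F] [DecidableEq F] {W : WeierstrassCurve.Affine F}
  {A : AddSubgroup W.Point}

/-- the pairing `B₂(F) × F^*_ℚ → H(F)` -/
noncomputable def hkL (F : Type*) [Field F] : B2 F →ₗ[ℚ] FT F →ₗ[ℚ] HK F :=
  (TensorProduct.mk ℚ (B2 F) (FT F)).compr₂ (Submodule.mkQ _)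

lemma hkL_apply (x : B2 F) (u : FT F) : hkL F x u = hk x u := rfl

lemma hkL_self (f : F) : hkL F (sy f) (lg f) = 0 := by
  rw [hkL_apply]
  rcases eq_or_ne f 0 with rfl | h0
  · unfold hk; rw [sy_zero, TensorProduct.zero_tmul]; rfl
  rcases eq_or_ne f 1 with rfl | h1
  · unfold hk; rw [sy_one, TensorProduct.zero_tmul]; rfl
  unfold hk
  rw [Submodule.Quotient.mk_eq_zero]
  exact Submodule.subset_span ⟨f, h0, h1, rfl⟩

/-- the relation of Siegel units -/
def IsSiegel (A : AddSubgroup W.Point) (g : A → FT F) : Prop :=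
  g 0 = 0 ∧ (∀ a, g (-a) = g a) ∧
    ∀ a b : A, a ≠ b → a ≠ -b →
      lg (dx (a : W.Point) b) = g (a + b) + g (a - b) - (2 : ℚ) • g a - (2 : ℚ) • g b

lemma dxA_ne {a b : A} (h1 : a ≠ b) (h2 : a ≠ -b) : dx (a : W.Point) b ≠ 0 := by
  intro h
  rw [dx_eq_zero_iff] at h
  rcases h with h | h
  · exact h1 (Subtype.ext h)
  · exact h2 (Subtype.ext (by simpa using h))

lemma rel_CA {g : A → FT F} (hg : IsSiegel A g) (a b c d : A) (hab : a ≠ b) (hab' : a ≠ -b)
    (hac : a ≠ c) (hac' : a ≠ -c) (hbd : b ≠ d) (hbd' : b ≠ -d) (hcd : c ≠ d) (hcd' : c ≠ -d) :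
    hkL F (CA A a b c d) (ss g a b + ss g c d - ss g a c - ss g b d) = 0 := by
  obtain ⟨-, -, h⟩ := hg
  have e1 := h a b hab hab'
  have e2 := h c d hcd hcd'
  have e3 := h a c hac hac'
  have e4 := h b d hbd hbd'
  have n1 := dxA_ne hab hab'
  have n2 := dxA_ne hcd hcd'
  have n3 := dxA_ne hac hac'
  have n4 := dxA_ne hbd hbd'
  have key : lg (dx (a : W.Point) b * dx (c : W.Point) d / (dx (a : W.Point) c * dx (b : W.Point) d))
      = ss g a b + ss g c d - ss g a c - ss g b d := by
    rw [lg_div (mul_ne_zero n1 n2) (mul_ne_zero n3 n4), lg_mul n1 n2, lg_mul n3 n4, e1, e2, e3, e4]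
    unfold ss
    module
  rw [← key]
  exact hkL_self _

/-- `t` for the group `A` -/
noncomputable def tA (A : AddSubgroup W.Point) [Fintype A] : A → A → B2 F := tt (CA A)

variable [Fintype A]

lemma tA_isT [CharZero F] (hP : PencilStatement W) (h2 : Function.Injective fun a : A => a + a) :
    IsT (tA A) := tt_isT (CA_isC hP h2)

lemma CA_eq [CharZero F] (hP : PencilStatement W) (h2 : Function.Injective fun a : A => a + a)
    (h3 : Function.Injective fun a : A => a + a + a) (a b c d : A) :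
    CA A a b c d = CR (tA A) a b c d := C_eq_CR (CA_isC hP h2) h2 h3 a b c d

lemma rel_tA [CharZero F] (hP : PencilStatement W) (h2 : Function.Injective fun a : A => a + a)
    (h3 : Function.Injective fun a : A => a + a + a) {g : A → FT F} (hg : IsSiegel A g) :
    Rel (hkL F) (tA A) g := by
  intro a b c d h1 h2' h3' h4 _ _ _ _ h5 h6 h7 h8
  rw [← CA_eq hP h2 h3]
  exact rel_CA hg a b c d h1 h2' h3' h4 h5 h6 h7 h8

/-- PARITY -/
theorem parity_curve [CharZero F] (hP : PencilStatement W)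
    (h2 : Function.Injective fun a : A => a + a)
    (h3 : Function.Injective fun a : A => a + a + a) {g : A → FT F} (hg : IsSiegel A g) (a b : A) :
    xi (hkL F) (tA A) g a (-b) = - xi (hkL F) (tA A) g a b :=
  parity (tA_isT hP h2) hg.2.1 (rel_tA hP h2 h3 hg) h2 a b

end Main

end K4M
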