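import Pool.Agent.Lib_helper60.K4M.Geo
import Pool.Agent.Lib_helper60.K4M.Uniq

/-!
Siegel units of a finite group of points of arbitrary order.
-/

set_option linter.unusedSectionVars false

namespace K4M

section Lin

variable {A V : Type*} [AddCommGroup A] [AddCommGroup V] [Module ℚ V]

lemma exists_pow_eq [Finite A] (a : A) : ∃ k m : ℕ, k < m ∧ (2 ^ k : ℕ) • a = (2 ^ m : ℕ) • a := by
  obtain ⟨k, m, hkm, e⟩ := Finite.exists_ne_map_eq_of_infinite (fun k : ℕ => (2 ^ k : ℕ) • a)
  rcases lt_or_gt_of_ne hkm with h | h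
  · exact ⟨k, m, h, e⟩
  · exact ⟨m, k, h, e.symm⟩

lemma four_pow_sub_ne {k m : ℕ} (h : k < m) : (4 : ℚ) ^ k - 4 ^ m ≠ 0 := by
  have : (4 : ℚ) ^ k < 4 ^ m := pow_lt_pow_right₀ (by norm_num) h
  exact (sub_neg.mpr this).ne

/-- a function with `h(2a) = 4 h(a)` on a finite group vanishes -/
lemma double_zero_all [Finite A] {h : A → V} (hh : ∀ a, h (a + a) = (4 : ℚ) • h a) (a : A) :
    h a = 0 := by
  obtain ⟨k, m, hkm, e⟩ := exists_pow_eq a
  have h1 := iter_double hh k a
  have h2 := iter_double hh m a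
  rw [e, h2] at h1
  have h3 : ((4 : ℚ) ^ k - 4 ^ m) • h a = 0 := by rw [sub_smul, h1, sub_self]
  exact (smul_eq_zero.mp h3).resolve_left (four_pow_sub_ne hkm)

/-- existence of `g` with `g(2a) - 4 g(a) = f(a)` -/
lemma exists_double_all [Finite A] (f : A → V) :
    ∃ g : A → V, ∀ a, g (a + a) - (4 : ℚ) • g a = f a := by
  classical
  have := Fintype.ofFinite A
  let L : (A → ℚ) →ₗ[ℚ] (A → ℚ) :=
    { toFun := fun h a => h (a + a) - 4 * h a
      map_add' := by intro x y; funext a; simp only [Pi.add_apply]; ring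
      map_smul' := by
        intro c x; funext a
        simp only [Pi.smul_apply, smul_eq_mul, RingHom.id_apply]; ring }
  have hinj : Function.Injective L := by
    rw [injective_iff_map_eq_zero]
    intro h hL
    funext a
    apply double_zero_all (h := h)
    intro b
    have : h (b + b) - 4 * h b = 0 := congrFun hL b
    rw [smul_eq_mul]
    linear_combination this
  have hsurj : Function.Surjective L := LinearMap.injective_iff_surjective.mp hinj
  choose e he using fun b : A => hsurj (Pi.single b 1)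
  refine ⟨fun a => ∑ b, e b a • f b, fun a => ?_⟩
  rw [Finset.smul_sum, ← Finset.sum_sub_distrib]
  have : ∀ b, e b (a + a) • f b - (4 : ℚ) • e b a • f b = (Pi.single b (1 : ℚ) : A → ℚ) a • f b := by
    intro b
    have h1 : e b (a + a) - 4 * e b a = (Pi.single b (1 : ℚ) : A → ℚ) a := congrFun (he b) a
    rw [← h1, sub_smul, smul_smul]
  rw [Finset.sum_congr rfl (fun b _ => this b)]
  rw [Finset.sum_eq_single a]
  · rw [Pi.single_eq_same, one_smul]
  · intro b _ hb
    rw [Pi.single_eq_of_ne (Ne.symm hb), zero_smul]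
  · intro h; exact absurd (Finset.mem_univ a) h

end Lin

section Siegel

open WeierstrassCurve.Affine

variable {F : Type*} [Field F] [DecidableEq F] {W : WeierstrassCurve.Affine F}
  {A : AddSubgroup W.Point}

/-- `g(2a) - 4 g(a) = [ψ̂(a)]` for all `a` in `A` -/
def IsG4 (A : AddSubgroup W.Point) (g : A → FT F) : Prop :=
  ∀ a : A, g (a + a) - (4 : ℚ) • g a = lg (pc (a : W.Point))

lemma IsG4.zero {g : A → FT F} (hg : IsG4 A g) : g 0 = 0 := by
  have h := hg 0
  rw [add_zero, AddSubgroup.coe_zero, pc_zero, lg_one] at h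
  have h2 : (-3 : ℚ) • g 0 = 0 := by rw [← h]; module
  exact (smul_eq_zero.mp h2).resolve_left (by norm_num)

lemma IsG4.even [Finite A] {g : A → FT F} (hg : IsG4 A g) (a : A) : g (-a) = g a := by
  have hh : ∀ b : A, (fun x => g (-x) - g x) (b + b) = (4 : ℚ) • (fun x => g (-x) - g x) b := by
    intro b
    show g (-(b + b)) - g (b + b) = (4 : ℚ) • (g (-b) - g b)
    have h1 := hg b
    have h2 := hg (-b)
    rw [AddSubgroup.coe_neg, lg_pc_neg, ← h1, ← neg_add] at h2
    have h3 : g (-(b + b)) = g (b + b) - (4 : ℚ) • g b + (4 : ℚ) • g (-b) := by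
      rw [← h2]; abel
    rw [h3]; module
  exact sub_eq_zero.mp (double_zero_all (h := fun x => g (-x) - g x) hh a)

/-- the defect of the Siegel relation -/
noncomputable def df (g : A → FT F) (a b : A) : FT F :=
  lg (dx (a : W.Point) b) - (g (a + b) + g (a - b) - (2 : ℚ) • g a - (2 : ℚ) • g b)

lemma df_comm {g : A → FT F} (he : ∀ a, g (-a) = g a) (a b : A) : df g b a = df g a b := by
  unfold df
  rw [lg_dx_comm (a : W.Point) b, add_comm b a, ← he (b - a), neg_sub]
  abel

lemma df_neg {g : A → FT F} (he : ∀ a, g (-a) = g a) (a b : A) : df g a (-b) = df g a b := by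
  unfold df
  rw [AddSubgroup.coe_neg, dx_neg_right, he b, sub_neg_eq_add, ← sub_eq_add_neg]
  abel

lemma coe_ne {a b : A} (h : a ≠ b) : (a : W.Point) ≠ b := fun h' => h (Subtype.ext h')

lemma coe_ne_neg {a b : A} (h : a ≠ -b) : (a : W.Point) ≠ -(b : W.Point) :=
  fun h' => h (Subtype.ext (by simpa using h'))

lemma coe_ne_zero {a : A} (h : a ≠ 0) : (a : W.Point) ≠ 0 :=
  fun h' => h (Subtype.ext (by simpa using h'))

lemma coe_two {a : A} (h : a + a ≠ 0) : (a : W.Point) + a ≠ 0 :=
  fun h' => h (Subtype.ext (by simpa using h'))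

lemma coe_two' {a : A} (h : a + a = 0) : (a : W.Point) + a = 0 := by
  have := congrArg (fun x : A => (x : W.Point)) h
  simpa using this

/-- halving the defect -/
lemma df_half {g : A → FT F} (hg : IsG4 A g) {a b : A} (ha : a + a ≠ 0) (hb : b + b ≠ 0)
    (hab : a ≠ b) (hab' : a ≠ -b) : df g (a + b) (a - b) = -((2 : ℚ) • df g a b) := by
  have h := lgE1 (coe_two ha) (coe_two hb) (coe_ne hab) (coe_ne_neg hab')
  rw [← hg a, ← hg b] at h
  unfold df
  rw [AddSubgroup.coe_add, AddSubgroup.coe_sub]
  have h' : lg (dx ((a : W.Point) + (b : W.Point)) ((a : W.Point) - (b : W.Point))) =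
      g (a + a) - (4 : ℚ) • g a + (g (b + b) - (4 : ℚ) • g b) -
        (2 : ℚ) • lg (dx (a : W.Point) b) := by rw [← h]; abel
  rw [h', show a + b + (a - b) = a + a by abel, show a + b - (a - b) = b + b by abel]
  module

lemma df_double {g : A → FT F} (hg : IsG4 A g) {a b : A} (ha : a + a ≠ 0) (hb : b + b ≠ 0)
    (hab : a + a ≠ b + b) (hab' : a + a ≠ -(b + b)) :
    df g (a + a) (b + b) = (4 : ℚ) • df g a b := by
  have n1 : a ≠ b := by rintro rfl; exact hab rfl
  have n2 : a ≠ -b := by rintro rfl; apply hab'; abel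
  have e1 := df_half hg ha hb n1 n2
  have n3 : a + b + (a + b) ≠ 0 := by
    intro h; apply hab'
    rw [eq_neg_iff_add_eq_zero, ← h]; abel
  have n4 : a - b + (a - b) ≠ 0 := by
    intro h; apply hab
    rw [← sub_eq_zero, ← h]; abel
  have n5 : a + b ≠ a - b := by
    intro h; apply hb
    have : b = -b := by
      have h' : a + b = a + (-b) := by rw [h]; abel
      exact add_left_cancel h'
    nth_rewrite 1 [this]; abel
  have n6 : a + b ≠ -(a - b) := by
    intro h; apply ha
    have h' : a + a = (a + b) + (a - b) := by abel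
    rw [h', h]; abel
  have e2 := df_half hg n3 n4 n5 n6
  rw [show a + b + (a - b) = a + a by abel, show a + b - (a - b) = b + b by abel, e1] at e2
  rw [e2]; module

/-- the defect at a point of order two -/
lemma df_two [Finite A] {g : A → FT F} (hg : IsG4 A g) {a i : A} (ha : a ≠ 0) (hi : i ≠ 0)
    (hii : i + i = 0) (hai : a ≠ i) : df g a i = 0 := by
  have he := hg.even
  have h0 := hg.zero
  have hin : -i = i := neg_eq_of_add_eq_zero_left hii
  have gi : g i = -((1 / 4 : ℚ) • lg (pc (i : W.Point))) := by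
    have h := hg i
    rw [hii, h0] at h
    rw [← h]; module
  have f2 := lgF2 (coe_ne_zero ha) (coe_ne_zero hi) (coe_two' hii) (coe_ne hai)
  by_cases h2 : a + a = 0
  · -- both of order two
    have ga : g a = -((1 / 4 : ℚ) • lg (pc (a : W.Point))) := by
      have h := hg a
      rw [h2, h0] at h
      rw [← h]; module
    have hk : (a + i) + (a + i) = 0 := by
      rw [show (a + i) + (a + i) = (a + a) + (i + i) by abel, h2, hii, add_zero]
    have gk : g (a + i) = -((1 / 4 : ℚ) • lg (pc ((a + i : A) : W.Point))) := by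
      have h := hg (a + i)
      rw [hk, h0] at h
      rw [← h]; module
    have hki : a + i ≠ i := by intro h; apply ha; exact add_eq_right.mp h
    have hka : a + i ≠ a := by intro h; apply hi; exact add_eq_left.mp h
    have hk0 : a + i ≠ 0 := by
      intro h; apply hai
      rw [eq_neg_of_add_eq_zero_left h, hin]
    have f2' := lgF2 (coe_ne_zero hi) (coe_ne_zero ha) (coe_two' h2) (coe_ne hai.symm)
    have f2'' := lgF2 (a := (a : W.Point)) (i := ((a + i : A) : W.Point)) (coe_ne_zero ha)
      (coe_ne_zero hk0) (coe_two' hk) (coe_ne hka.symm)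
    have e1 : (a : W.Point) + ((a + i : A) : W.Point) = i := by
      rw [AddSubgroup.coe_add, ← add_assoc, coe_two' h2, zero_add]
    rw [e1] at f2''
    rw [add_comm (i : W.Point) a] at f2'
    unfold df
    have e2 : a - i = a + i := by rw [sub_eq_add_neg, hin]
    rw [e2, ga, gi, gk, ← f2, ← f2', ← f2'', AddSubgroup.coe_add,
      lg_dx_comm (i : W.Point) a, lg_dx_comm ((a : W.Point) + (i : W.Point)) (i : W.Point),
      lg_dx_comm ((a : W.Point) + (i : W.Point)) (a : W.Point)]
    module
  · have f3 := lgF3 (coe_two h2) (coe_ne_zero hi) (coe_two' hii)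
    have h1 := hg a
    have h3 := hg (a + i)
    rw [show (a + i) + (a + i) = (a + a) + (i + i) by abel, hii, add_zero, AddSubgroup.coe_add] at h3
    have gk : (4 : ℚ) • g (a + i) = (4 : ℚ) • g a + lg (pc (a : W.Point)) -
        lg (pc ((a : W.Point) + (i : W.Point))) := by rw [← h1, ← h3]; abel
    have f3' : lg (pc ((a : W.Point) + (i : W.Point))) = lg (pc (i : W.Point)) + lg (pc (a : W.Point)) -
      (2 : ℚ) • lg (dx (a : W.Point) i) := by rw [← f3]; abel
    unfold df
    rw [sub_eq_add_neg a i, hin, gi]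
    have gk' : g (a + i) = g a + (1 / 2 : ℚ) • lg (dx (a : W.Point) i) -
        (1 / 4 : ℚ) • lg (pc (i : W.Point)) := by
      have : g (a + i) = (1 / 4 : ℚ) • ((4 : ℚ) • g (a + i)) := by module
      rw [this, gk, f3']; module
    rw [gk']; module

/-- the defect of two points differing by a point of order two -/
lemma df_diff [Finite A] {g : A → FT F} (hg : IsG4 A g) {a b : A} (ha : a + a ≠ 0)
    (hab : a ≠ b) (hab' : a ≠ -b) (h2 : a + a = b + b) : df g a b = 0 := by
  have he := hg.even
  have h0 := hg.zero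
  obtain ⟨i, hi⟩ : ∃ i, b = a + i := ⟨b - a, by abel⟩
  subst hi
  have hii : i + i = 0 := by
    have h' : a + a + (i + i) = a + a := by
      rw [show a + a + (i + i) = a + i + (a + i) by abel]; exact h2.symm
    exact add_eq_left.mp h'
  have hi : i ≠ 0 := by rintro rfl; exact hab (add_zero a).symm
  have hin : -i = i := neg_eq_of_add_eq_zero_left hii
  have ha0 : a ≠ 0 := by rintro rfl; exact ha (add_zero 0)
  have hai : a ≠ i := by rintro rfl; exact ha hii
  have haai : a + a ≠ i := by
    intro h; apply hab'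
    rw [neg_add, hin, ← h]; abel
  -- g(a+i) and g(2a+i)
  have k1 := df_two hg ha0 hi hii hai
  have k2 := df_two hg ha hi hii haai
  unfold df at k1 k2
  rw [sub_eq_add_neg a i, hin] at k1
  rw [sub_eq_add_neg (a + a) i, hin] at k2
  have g1 : g (a + i) = (1 / 2 : ℚ) • lg (dx (a : W.Point) i) + g a + g i := by
    have : g (a + i) = (1 / 2 : ℚ) • lg (dx (a : W.Point) i) + g a + g i -
      (1 / 2 : ℚ) • (lg (dx (a : W.Point) i) - (g (a + i) + g (a + i) - (2 : ℚ) • g a -
        (2 : ℚ) • g i)) := by module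
    rw [this, k1]; module
  have g2 : g (a + a + i) = (1 / 2 : ℚ) • lg (dx ((a + a : A) : W.Point) i) + g (a + a) + g i := by
    have : g (a + a + i) = (1 / 2 : ℚ) • lg (dx ((a + a : A) : W.Point) i) + g (a + a) + g i -
      (1 / 2 : ℚ) • (lg (dx ((a + a : A) : W.Point) i) - (g (a + a + i) + g (a + a + i) -
        (2 : ℚ) • g (a + a) - (2 : ℚ) • g i)) := by module
    rw [this, k2]; module
  -- geometric facts
  have hai2 : a + i + (a + i) ≠ 0 := by
    rw [show (a + i) + (a + i) = (a + a) + (i + i) by abel, hii, add_zero]; exact ha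
  have e1 := lgE1 (coe_two ha) (coe_two hai2) (coe_ne hab) (coe_ne_neg hab')
  have s1 : (a : W.Point) + ((a + i : A) : W.Point) = ((a + a + i : A) : W.Point) := by
    rw [← AddSubgroup.coe_add]; congr 1; abel
  have s2 : (a : W.Point) - ((a + i : A) : W.Point) = (i : W.Point) := by
    rw [← AddSubgroup.coe_sub]; congr 1
    rw [show a - (a + i) = -i by abel, hin]
  rw [s1, s2] at e1
  have f3 := lgF3 (coe_two ha) (coe_ne_zero hi) (coe_two' hii)
  have f2 := lgF2 (coe_ne_zero (a := a + a) ha) (coe_ne_zero hi) (coe_two' hii) (coe_ne haai)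
  rw [← AddSubgroup.coe_add] at f2
  rw [← AddSubgroup.coe_add] at f3
  have hga := hg a
  unfold df
  rw [show a + (a + i) = a + a + i by abel, show a - (a + i) = -i by abel, he i, g2, g1]
  -- solve for lg (dx a (a+i))
  have x1 : (2 : ℚ) • lg (dx (a : W.Point) ((a + i : A) : W.Point)) =
      lg (pc (a : W.Point)) + lg (pc ((a + i : A) : W.Point)) -
        lg (dx ((a + a + i : A) : W.Point) (i : W.Point)) := by rw [← e1]; abel
  have x2 : lg (pc ((a + i : A) : W.Point)) = lg (pc (i : W.Point)) + lg (pc (a : W.Point)) -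
      (2 : ℚ) • lg (dx (a : W.Point) i) := by rw [← f3]; abel
  have x3 : lg (dx ((a + a + i : A) : W.Point) (i : W.Point)) = lg (pc (i : W.Point)) -
      lg (dx ((a + a : A) : W.Point) i) := by rw [← f2]; abel
  have x4 : lg (dx (a : W.Point) ((a + i : A) : W.Point)) = lg (pc (a : W.Point)) -
      lg (dx (a : W.Point) i) + (1 / 2 : ℚ) • lg (dx ((a + a : A) : W.Point) i) := by
    have : lg (dx (a : W.Point) ((a + i : A) : W.Point)) =
      (1 / 2 : ℚ) • ((2 : ℚ) • lg (dx (a : W.Point) ((a + i : A) : W.Point))) := by module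
    rw [this, x1, x2, x3]; module
  rw [x4, ← hga]
  module

/-- the Siegel relation for all pairs -/
theorem df_eq_zero [Finite A] {g : A → FT F} (hg : IsG4 A g) {a b : A} (hab : a ≠ b)
    (hab' : a ≠ -b) : df g a b = 0 := by
  have he := hg.even
  have h0 := hg.zero
  -- one step
  have step : ∀ a b : A, a ≠ b → a ≠ -b → df g a b ≠ 0 →
      (a + a ≠ b + b ∧ a + a ≠ -(b + b) ∧ df g (a + a) (b + b) = (4 : ℚ) • df g a b) := by
    intro a b hab hab' hne
    have hb0 : b ≠ 0 := by
      rintro rfl
      apply hne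
      unfold df
      rw [AddSubgroup.coe_zero, lg_dx_comm (0 : W.Point) (a : W.Point), lg_dx_zero_left, add_zero,
        sub_zero, h0]
      module
    have ha0 : a ≠ 0 := by
      rintro rfl
      apply hne
      rw [df_comm he b 0]
      unfold df
      rw [AddSubgroup.coe_zero, lg_dx_comm (0 : W.Point) (b : W.Point), lg_dx_zero_left, add_zero,
        sub_zero, h0]
      module
    have hb2 : b + b ≠ 0 := by
      intro hb2
      exact hne (df_two hg ha0 hb0 hb2 hab)
    have ha2 : a + a ≠ 0 := by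
      intro ha2
      apply hne
      rw [df_comm he b a]
      exact df_two hg hb0 ha0 ha2 hab.symm
    have n1 : a + a ≠ b + b := fun h => hne (df_diff hg ha2 hab hab' h)
    have n2 : a + a ≠ -(b + b) := by
      intro h
      apply hne
      rw [← df_neg he a b]
      exact df_diff hg ha2 hab' (by rw [neg_neg]; exact hab) (by rw [h, neg_add])
    exact ⟨n1, n2, df_double hg ha2 hb2 n1 n2⟩
  by_contra hne
  have all : ∀ k : ℕ, (2 ^ k : ℕ) • a ≠ (2 ^ k : ℕ) • b ∧ (2 ^ k : ℕ) • a ≠ -((2 ^ k : ℕ) • b) ∧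
      df g ((2 ^ k : ℕ) • a) ((2 ^ k : ℕ) • b) = (4 : ℚ) ^ k • df g a b := by
    intro k
    induction k with
    | zero => simpa using ⟨hab, hab'⟩
    | succ k ih =>
      obtain ⟨i1, i2, i3⟩ := ih
      have hn : df g ((2 ^ k : ℕ) • a) ((2 ^ k : ℕ) • b) ≠ 0 := by
        rw [i3]
        exact smul_ne_zero (pow_ne_zero k (by norm_num)) hne
      have := step _ _ i1 i2 hn
      rw [i3, smul_smul] at this
      have e : ∀ x : A, (2 ^ (k + 1) : ℕ) • x = (2 ^ k : ℕ) • x + (2 ^ k : ℕ) • x := by
        intro x; rw [pow_succ, mul_comm, mul_smul, two_nsmul]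
      rw [e, e, pow_succ, mul_comm]
      exact this
  -- pigeonhole
  obtain ⟨k, m, hkm, e⟩ := exists_pow_eq ((a, b) : A × A)
  have ea : (2 ^ k : ℕ) • a = (2 ^ m : ℕ) • a := by simpa using congrArg Prod.fst e
  have eb : (2 ^ k : ℕ) • b = (2 ^ m : ℕ) • b := by simpa using congrArg Prod.snd e
  have h1 := (all k).2.2
  have h2 := (all m).2.2
  rw [ea, eb, h2] at h1
  apply hne
  have h3 : ((4 : ℚ) ^ k - 4 ^ m) • df g a b = 0 := by rw [sub_smul, h1, sub_self]
  exact (smul_eq_zero.mp h3).resolve_left (four_pow_sub_ne hkm)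

/-- existence and uniqueness of Siegel units for every finite group of points -/
theorem siegel_all (A : AddSubgroup W.Point) [Finite A] :
    ∃! g : A → FT F, IsG4 A g := by
  obtain ⟨g, hg⟩ := exists_double_all (fun a : A => lg (pc (a : W.Point)))
  refine ⟨g, hg, ?_⟩
  intro g' hg'
  funext a
  have hh : ∀ b : A, (fun x => g' x - g x) (b + b) = (4 : ℚ) • (fun x => g' x - g x) b := by
    intro b
    show g' (b + b) - g (b + b) = (4 : ℚ) • (g' b - g b)
    have h1 := hg b
    have h2 := hg' b
    rw [← h1] at h2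
    have h3 : g' (b + b) = g (b + b) - (4 : ℚ) • g b + (4 : ℚ) • g' b := by rw [← h2]; abel
    rw [h3]; module
  exact sub_eq_zero.mp (double_zero_all (h := fun x => g' x - g x) hh a)

/-- the Siegel relation -/
theorem siegel_rel [Finite A] {g : A → FT F} (hg : IsG4 A g) {a b : A} (hab : a ≠ b)
    (hab' : a ≠ -b) : lg (dx (a : W.Point) b) =
      g (a + b) + g (a - b) - (2 : ℚ) • g a - (2 : ℚ) • g b :=
  sub_eq_zero.mp (df_eq_zero hg hab hab')

theorem siegelStatement (W : WeierstrassCurve.Affine F) : SiegelStatement W := by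
  intro A hA hodd
  obtain ⟨g, hg, -⟩ := siegel_all A
  refine ⟨g, hg.zero, hg.even, ?_, fun a b h h' => siegel_rel hg h h'⟩
  intro a ha
  have h := hg a
  rw [h]
  have ha2 : a + a ≠ 0 := by
    intro h2
    apply ha
    have h3 : addOrderOf a ∣ 2 := addOrderOf_dvd_of_nsmul_eq_zero (by rw [two_nsmul]; exact h2)
    have h4 : addOrderOf a ∣ Nat.card A := addOrderOf_dvd_natCard a
    have h5 : addOrderOf a = 1 :=
      Nat.eq_one_of_dvd_coprimes (Nat.coprime_two_left.mpr hodd) h3 h4
    exact AddMonoid.addOrderOf_eq_one_iff.mp h5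
  unfold pc
  rw [if_neg (coe_two ha2)]

end Siegel

end K4M
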