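import Pool.Agent.Lib_helper60.K4M.Delta
import Pool.Agent.Lib_helper60.K4M.SiegelAll
import Pool.Agent.Lib_helper87.K4M.Pencil

/-!
Target 1 without hypotheses.
-/

set_option linter.unusedSectionVars false
set_option linter.unusedVariables false

open Pool.Agent.K4Par Pool.Agent.K4Fin
open scoped TensorProduct

namespace K4M

section Final

variable {F : Type*} [Field F] [CharZero F] [DecidableEq F] {W : WeierstrassCurve.Affine F}
  {A : AddSubgroup W.Point} [Fintype A]

lemma IsG4.isSiegel {g : A → FT F} (hg : IsG4 A g) : IsSiegel A g :=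
  ⟨hg.zero, hg.even, fun _ _ h h' => siegel_rel hg h h'⟩

theorem final_manin (hA : (Nat.card A).Coprime 6) {g : A → FT F} (hg : IsG4 A g) :
    ManinSym (xi (hkL F) (tA A) g) :=
  maninSym_curve (pencil W) (inj_two hA) (inj_three hA) hg.isSiegel

theorem final_isT (hA : (Nat.card A).Coprime 6) : IsT (tA A) := tA_isT (pencil W) (inj_two hA)

theorem final_CR (hA : (Nat.card A).Coprime 6) (a b c d : A) :
    CA A a b c d = CR (tA A) a b c d := CA_eq (pencil W) (inj_two hA) (inj_three hA) a b c d

theorem final_closed (hA : (Nat.card A).Coprime 6) {g : A → FT F} (hg : IsG4 A g) (a b : A) :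
    dH F (hk (tA A a b) (g b - g a)) = 0 :=
  xi_closed_curve (pencil W) (inj_two hA) (inj_three hA) hg.isSiegel a b

theorem final_de (hA : (Nat.card A).Coprime 6) {g : A → FT F} (hg : IsG4 A g) (a b : A) :
    de F (tA A a b) = wg F (g a) (g b) + wg F (g b) (g (a + b)) + wg F (g (a + b)) (g a) :=
  de_tA (pencil W) (inj_two hA) (inj_three hA) hg.isSiegel a b

/-- order eleven: all classes are explicit multiples of one -/
theorem final_eleven (hA : (Nat.card A).Coprime 6) {g : A → FT F} (hg : IsG4 A g) (P : A)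
    (hP : 11 • P = 0) (a b : ℤ) :
    xi (hkL F) (tA A) g (a • P) (b • P) =
      q11 (a : ZMod 11) (b : ZMod 11) • xi (hkL F) (tA A) g P (3 • P) :=
  eleven (final_manin hA hg) P hP a b

theorem final_seventeen (hA : (Nat.card A).Coprime 6) {g : A → FT F} (hg : IsG4 A g) (P : A)
    (hP : 17 • P = 0) (c : ℤ) :
    TrP (xi (hkL F) (tA A) g) 17 P c =
      q17 (c : ZMod 17) • TrP (xi (hkL F) (tA A) g) 17 P 3 :=
  seventeen (final_manin hA hg) P hP c

theorem final_nineteen (hA : (Nat.card A).Coprime 6) {g : A → FT F} (hg : IsG4 A g) (P : A)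
    (hP : 19 • P = 0) (c : ℤ) :
    TrP (xi (hkL F) (tA A) g) 19 P c =
      q19 (c : ZMod 19) • TrP (xi (hkL F) (tA A) g) 19 P 4 :=
  nineteen (final_manin hA hg) P hP c

end Final

end K4M
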