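import Pool.Agent.Lib_helper60.K4M.GT2

/-!
All hypotheses of the induction for the Siegel units of the torsion points.
-/

set_option linter.unusedSectionVars false

namespace K4M

open WeierstrassCurve.Affine Pool.Agent.K4D2 Pool.Agent.K4ParP

section Abs

variable {A B G H : Type*} [AddCommGroup A] [AddCommGroup B] [Module ℚ B]
  [AddCommGroup G] [Module ℚ G] [AddCommGroup H] [Module ℚ H]
  {w : G →ₗ[ℚ] G →ₗ[ℚ] B} {m : B →ₗ[ℚ] G →ₗ[ℚ] H} {g : A → G}

lemma tt_shift (hw : ∀ x, w x x = 0) (c : G) :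
    Pool.Agent.K4D2.tt w (fun a => g a - c) = Pool.Agent.K4D2.tt w g := by
  funext a b
  unfold Pool.Agent.K4D2.tt
  have h := om_shift hw (g a - c) (g b - c) (g (a + b) - c) c
  simp only [sub_add_cancel] at h
  exact h.symm

lemma xi_shift (t : A → A → B) (c : G) : xi m t (fun a => g a - c) = xi m t g := by
  funext a b
  unfold xi
  show m (t a b) (g b - c - (g a - c)) = _
  rw [sub_sub_sub_cancel_right]

lemma rel_shift {t : A → A → B} {P : A} (h : Rel m t g P) (c : G) :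
    Rel m t (fun a => g a - c) P := by
  intro a b c' d h1 h2 h3 h4 h5 h6 h7 h8 h9 h10 h11 h12
  rw [← h a b c' d h1 h2 h3 h4 h5 h6 h7 h8 h9 h10 h11 h12]
  congr 1
  show g (a - b) - c + (g (a + b + P) - c) + (g (c' - d) - c + (g (c' + d + P) - c)) -
    (g (a - c') - c + (g (a + c' + P) - c)) - (g (b - d) - c + (g (b + d + P) - c)) =
    g (a - b) + g (a + b + P) + (g (c' - d) + g (c' + d + P)) -
    (g (a - c') + g (a + c' + P)) - (g (b - d) + g (b + d + P))
  abel

end Abs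

section GT3

variable {F : Type*} [Field F] [DecidableEq F] [CharZero F] {W : WeierstrassCurve.Affine F}
  {H : Type*} [AddCommGroup H] [Module ℚ H] {m : EA F →ₗ[ℚ] FT F →ₗ[ℚ] H}

lemma coeTP_ne {a b : TP W} (h : a ≠ b) : (a : W.Point) ≠ b := fun h' => h (Subtype.ext h')

/-- the value of the cross-ratio of a pencil -/
lemma ss_gT {P Q : TP W} (hQ : Q + Q = P) {a b : TP W} (h1 : a ≠ b) (h2 : a + b + P ≠ 0) :
    dx ((a + Q : TP W) : W.Point) ((b + Q : TP W) : W.Point) ≠ 0 ∧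
    lg (dx ((a + Q : TP W) : W.Point) ((b + Q : TP W) : W.Point)) =
      ss gT P a b - (2 : ℚ) • gT (a + Q) - (2 : ℚ) • gT (b + Q) := by
  have n1 : a + Q ≠ b + Q := fun h => h1 (add_right_cancel h)
  have n2 : a + Q ≠ -(b + Q) := by
    intro h
    apply h2
    rw [eq_neg_iff_add_eq_zero] at h
    rw [← hQ, ← h]; abel
  refine ⟨dx_ne (coeTP_ne n1) ?_, ?_⟩
  · intro h
    exact n2 (Subtype.ext (by rw [h]; rfl))
  · rw [gT_rel n1 n2]
    unfold ss
    have e1 : a + Q + (b + Q) = a + b + P := by rw [← hQ]; abel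
    have e2 : a + Q - (b + Q) = a - b := by abel
    rw [e1, e2]
    abel

/-- the pencil relations -/
theorem rel_gT (hm : ∀ f : F, f ≠ 0 → f ≠ 1 → m (wg F (lg (1 - f)) (lg f)) (lg f) = 0)
    (P : TP W) (hP : ∃ Q : TP W, Q + Q = P) : Rel m (Pool.Agent.K4D2.tt (wg F) gT) gT P := by
  obtain ⟨Q, hQ⟩ := hP
  intro a b c d hab hab' hac hac' had had' hbc hbc' hbd hbd' hcd hcd'
  obtain ⟨nab, eab⟩ := ss_gT hQ hab hab'
  obtain ⟨nac, eac⟩ := ss_gT hQ hac hac'
  obtain ⟨nad, ead⟩ := ss_gT hQ had had'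
  obtain ⟨nbc, ebc⟩ := ss_gT hQ hbc hbc'
  obtain ⟨nbd, ebd⟩ := ss_gT hQ hbd hbd'
  obtain ⟨ncd, ecd⟩ := ss_gT hQ hcd hcd'
  have hom : Pool.Agent.K4D2.tt (wg F) (gT (W := W)) = om (wg F) gT := rfl
  rw [hom, CR_om wg_self (fun a => gT_neg a)]
  set D : TP W → TP W → F := fun x y => dx ((x + Q : TP W) : W.Point) ((y + Q : TP W) : W.Point)
    with hD
  have hDb : Bracket D := ⟨fun x y => dx_bracket.anti _ _, fun x y z t => dx_bracket.pl _ _ _ _⟩
  set f : F := D a b * D c d / (D a c * D b d) with hf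
  have h1f : 1 - f = D a d * D b c / (D a c * D b d) := by
    rw [hf, eq_div_iff (mul_ne_zero nac nbd), sub_mul, div_mul_cancel₀ _ (mul_ne_zero nac nbd)]
    linear_combination -(hDb.pl a b c d)
  have hf0 : f ≠ 0 := div_ne_zero (mul_ne_zero nab ncd) (mul_ne_zero nac nbd)
  have hf1 : f ≠ 1 := by
    intro h
    have : 1 - f = 0 := by rw [h, sub_self]
    rw [h1f] at this
    exact div_ne_zero (mul_ne_zero nad nbc) (mul_ne_zero nac nbd) this
  have key := hm f hf0 hf1
  have l1 : lg f = ss gT P a b + ss gT P c d - ss gT P a c - ss gT P b d := by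
    rw [hf, lg_div (mul_ne_zero nab ncd) (mul_ne_zero nac nbd), lg_mul nab ncd, lg_mul nac nbd]
    rw [show lg (D a b) = _ from eab, show lg (D c d) = _ from ecd, show lg (D a c) = _ from eac,
      show lg (D b d) = _ from ebd]
    abel
  have l2 : lg (1 - f) = ss gT P a d + ss gT P b c - ss gT P a c - ss gT P b d := by
    rw [h1f, lg_div (mul_ne_zero nad nbc) (mul_ne_zero nac nbd), lg_mul nad nbc, lg_mul nac nbd]
    rw [show lg (D a d) = _ from ead, show lg (D b c) = _ from ebc, show lg (D a c) = _ from eac,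
      show lg (D b d) = _ from ebd]
    abel
  rw [l1, l2] at key
  exact key

variable [∀ n : ℕ, Fintype (tor (TP W) (n + 1))]

/-- every torsion point is the double of a torsion point -/
lemma TD.half (hT : TD (TP W)) (P : TP W) : ∃ Q : TP W, Q + Q = P := by
  obtain ⟨Q, hQ⟩ := hT.div 1 P
  exact ⟨Q, by rw [← two_nsmul]; exact hQ⟩

lemma aux_mod {V : Type*} [AddCommGroup V] [Module ℚ V] (x y s : V) (q : ℚ) :
    y + (q - 1) • s + x - q • s = y - s + x := by module

/-- all hypotheses of the induction hold for the Siegel units of the torsion points -/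
theorem glob (hT : TD (TP W))
    (hm : ∀ f : F, f ≠ 0 → f ≠ 1 → m (wg F (lg (1 - f)) (lg f)) (lg f) = 0) :
    ∃ s : FT F, Glob (A := TP W) (wg F) m (fun a => gT a - s)
      (fun n => lg (((n + 1 : ℕ) : F))) := by
  obtain ⟨s, hs⟩ := dgT hT
  have hg : IsG (fun a : TP W => gT a - s) := fun a => by
    show gT (-a) - s = gT a - s
    rw [gT_neg]
  have hr : ∀ P : TP W, Rel m (Pool.Agent.K4D2.tt (wg F) (fun a : TP W => gT a - s))
      (fun a : TP W => gT a - s) P := by
    intro P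
    rw [tt_shift wg_self]
    exact rel_shift (rel_gT hm P (TD.half hT P)) s
  have ht : IsT (Pool.Agent.K4D2.tt (wg F) (fun a : TP W => gT a - s)) :=
    Pool.Agent.K4D2.tt_isT wg_self hg
  have hdg : ∀ (n : ℕ), Pool.Agent.K4D2.DG (fun a : TP W => gT a - s) (n + 1)
      (tor (TP W) (n + 1)) (lg (((n + 1 : ℕ) : F))) := by
    intro n a
    show ∑ i : tor (TP W) (n + 1), (gT (a + (i : TP W)) - s) = gT ((n + 1) • a) - s + _
    have hq : ((n + 1) ^ 2 : ℕ) • s = (((n + 1) ^ 2 : ℕ) : ℚ) • s :=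
      (Nat.cast_smul_eq_nsmul ℚ _ _).symm
    rw [Finset.sum_sub_distrib, hs n a, Finset.sum_const, Finset.card_univ, hT.card n, hq]
    rw [show ((((n + 1) ^ 2 : ℕ)) : ℚ) = (((n + 1 : ℕ) : ℚ)) ^ 2 by push_cast; ring]
    by_cases h : (n + 1) • a = 0
    · rw [if_pos h, if_pos h]
      exact aux_mod (V := FT F) _ _ _ _
    · rw [if_neg h, if_neg h]
      exact aux_mod (V := FT F) _ _ _ _
  refine ⟨s, ⟨wg_self, hg, ?_, ?_, hdg, ?_⟩⟩
  · exact par_T TP_LF ht hg hr
  · exact r4_T TP_LF ht hg hr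
  · intro n a b
    have hdt : ∀ a b : TP W, ∑ i : tor (TP W) (n + 1), ∑ j : tor (TP W) (n + 1),
        Pool.Agent.K4D2.tt (wg F) (fun a : TP W => gT a - s) (a + i) (b + j) =
        Pool.Agent.K4D2.tt (wg F) (fun a : TP W => gT a - s) ((n + 1) • a) ((n + 1) • b) :=
      Pool.Agent.K4D2.dt wg_self hg (hdg n)
    have key := d1_T (m := m) TP_LF ht hg hr (k := n + 1) (c := 0)
      (e := lg (((n + 1 : ℕ) : F))) (fun a => by rw [add_zero]; exact hdg n a) hdt
      (Nat.succ_pos n) a b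
    rw [hT.card n] at key
    push_cast at key ⊢
    exact key

/-- **D2 for the Siegel units of the torsion points**, in every target `m` -/
theorem d2_glob (hT : TD (TP W))
    (hm : ∀ f : F, f ≠ 0 → f ≠ 1 → m (wg F (lg (1 - f)) (lg f)) (lg f) = 0) (n : ℕ) (p q : TP W) :
    ∑ k : tor (TP W) (n + 1), xi m (Pool.Agent.K4D2.tt (wg F) gT) gT p (q + (k : TP W)) =
      (((n + 1 : ℕ) : ℚ))⁻¹ • xi m (Pool.Agent.K4D2.tt (wg F) gT) gT p ((n + 1) • q) := by
  obtain ⟨s, hs⟩ := glob (m := m) hT hm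
  have h := D2_all hT hs n p q
  rw [tt_shift wg_self, xi_shift] at h
  exact h

end GT3

end K4M
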