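import Pool.Agent.Lib_helper60.K4M.Core

/-!
Cross ratio symbols attached to an alternating form satisfying the Plücker relation.
-/

namespace K4M

section Crs

variable {F : Type*} [Field F] {ι : Type*}

/-- the cross ratio symbol `{[ab][cd]/([ac][bd])}₂` of a bracket `D a b = [ab]` -/
noncomputable def cr (D : ι → ι → F) (a b c d : ι) : B2 F :=
  sy (D a b * D c d / (D a c * D b d))

/-- a bracket: antisymmetric, with the Plücker relation -/
structure Bracket (D : ι → ι → F) : Prop where
  anti : ∀ a b, D b a = - D a b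
  pl : ∀ a b c d, D a b * D c d - D a c * D b d + D a d * D b c = 0

lemma sy_swap_bc [Infinite F] (p q : F) : sy (q / p) = - sy (p / q) := by
  rw [← sy_inv, inv_div]

lemma sy_swap_ab [Infinite F] {p q r : F} (h : p - q + r = 0) : sy (-p / r) = - sy (p / q) := by
  rcases eq_or_ne p 0 with rfl | hp
  · rw [neg_zero, zero_div, zero_div, sy_zero, neg_zero]
  rcases eq_or_ne r 0 with rfl | hr
  · have : p = q := by linear_combination h
    subst this
    rw [div_zero, sy_zero, div_self hp, sy_one, neg_zero]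
  rcases eq_or_ne q 0 with rfl | hq
  · have : r = -p := by linear_combination h
    subst this
    rw [div_zero, sy_zero, div_self hr, sy_one, neg_zero]
  have e1 : -p / r = (1 - (p / q)⁻¹)⁻¹ := by
    have : r = q - p := by linear_combination h
    have hqp : q - p ≠ 0 := by rw [← this]; exact hr
    have hpq : p - q ≠ 0 := by
      intro h'; apply hqp; linear_combination -h'
    rw [inv_div, one_sub_div hp, inv_div, this, div_eq_div_iff hqp hpq]
    ring
  rw [e1, sy_inv, sy_compl, sy_inv, neg_neg]

variable {D : ι → ι → F}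

lemma Bracket.self (hD : Bracket D) (a : ι) : D a a = 0 := by
  have := hD.pl a a a a
  have h : D a a * D a a = 0 := by linear_combination this
  exact mul_self_eq_zero.mp h

lemma cr_swap_bc [Infinite F] (a b c d : ι) : cr D a c b d = - cr D a b c d := by
  unfold cr
  exact sy_swap_bc _ _

lemma cr_swap_ab [Infinite F] (hD : Bracket D) (a b c d : ι) : cr D b a c d = - cr D a b c d := by
  unfold cr
  rw [hD.anti a b, neg_mul, mul_comm (D b c) (D a d)]
  exact sy_swap_ab (hD.pl a b c d)

lemma cr_swap_cd [Infinite F] (hD : Bracket D) (a b c d : ι) : cr D a b d c = - cr D a b c d := by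
  unfold cr
  rw [hD.anti c d, mul_neg]
  exact sy_swap_ab (hD.pl a b c d)

lemma cr_zero_ab (a b c d : ι) (h : D a b = 0) : cr D a b c d = 0 := by
  unfold cr; rw [h, zero_mul, zero_div, sy_zero]

lemma cr_zero_cd (a b c d : ι) (h : D c d = 0) : cr D a b c d = 0 := by
  unfold cr; rw [h, mul_zero, zero_div, sy_zero]

lemma cr_zero_ac (a b c d : ι) (h : D a c = 0) : cr D a b c d = 0 := by
  unfold cr; rw [h, zero_mul, div_zero, sy_zero]

lemma cr_zero_bd (a b c d : ι) (h : D b d = 0) : cr D a b c d = 0 := by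
  unfold cr; rw [h, mul_zero, div_zero, sy_zero]

lemma cr_zero_of_eq (a b c d : ι) (h : D a b * D c d = D a c * D b d) : cr D a b c d = 0 := by
  unfold cr
  rw [h]
  by_cases h0 : D a c * D b d = 0
  · rw [h0, div_zero, sy_zero]
  · rw [div_self h0, sy_one]

lemma cr_zero_ad (hD : Bracket D) (a b c d : ι) (h : D a d = 0) : cr D a b c d = 0 := by
  apply cr_zero_of_eq
  have := hD.pl a b c d
  rw [h] at this
  linear_combination this

lemma cr_zero_bc (hD : Bracket D) (a b c d : ι) (h : D b c = 0) : cr D a b c d = 0 := by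
  apply cr_zero_of_eq
  have := hD.pl a b c d
  rw [h] at this
  linear_combination this

/-- rescaling the bracket does not change the cross ratio symbols -/
lemma cr_scale {D' : ι → ι → F} (k : F) (h : ι → F) (hk : k ≠ 0) (a b c d : ι)
    (ha : h a ≠ 0) (hb : h b ≠ 0) (hc : h c ≠ 0) (hd : h d ≠ 0)
    (e : ∀ x y, x ∈ ({a, b, c, d} : Set ι) → y ∈ ({a, b, c, d} : Set ι) →
      D' x y = k * h x * h y * D x y) : cr D' a b c d = cr D a b c d := by
  unfold cr
  rw [e a b (by simp) (by simp), e c d (by simp) (by simp), e a c (by simp) (by simp),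
    e b d (by simp) (by simp)]
  congr 1
  have hz : k * h a * h b * (k * h c * h d) ≠ 0 := by positivity
  rw [show k * h a * h b * D a b * (k * h c * h d * D c d) =
      (k * h a * h b * (k * h c * h d)) * (D a b * D c d) by ring,
    show k * h a * h c * D a c * (k * h b * h d * D b d) =
      (k * h a * h b * (k * h c * h d)) * (D a c * D b d) by ring,
    mul_div_mul_left _ _ hz]

/-- the five term relation for five generic indices -/
lemma cr_cocycle_generic [Infinite F] (hD : Bracket D) {a b c d e : ι} (hab : D a b ≠ 0) (hac : D a c ≠ 0)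
    (had : D a d ≠ 0) (hae : D a e ≠ 0) (hbc : D b c ≠ 0) (hbd : D b d ≠ 0) (hbe : D b e ≠ 0)
    (hcd : D c d ≠ 0) (hce : D c e ≠ 0) (hde : D d e ≠ 0) :
    cr D b c d e - cr D a c d e + cr D a b d e - cr D a b c e + cr D a b c d = 0 := by
  set X : F := D a b * D c d / (D a c * D b d) with hX
  set Y : F := D a b * D c e / (D a c * D b e) with hY
  have X1 : 1 - X = D a d * D b c / (D a c * D b d) := by
    rw [hX, eq_div_iff (mul_ne_zero hac hbd), sub_mul, div_mul_cancel₀ _ (mul_ne_zero hac hbd)]
    linear_combination -(hD.pl a b c d)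
  have Y1 : 1 - Y = D a e * D b c / (D a c * D b e) := by
    rw [hY, eq_div_iff (mul_ne_zero hac hbe), sub_mul, div_mul_cancel₀ _ (mul_ne_zero hac hbe)]
    linear_combination -(hD.pl a b c e)
  have hX0 : X ≠ 0 := div_ne_zero (mul_ne_zero hab hcd) (mul_ne_zero hac hbd)
  have hY0 : Y ≠ 0 := div_ne_zero (mul_ne_zero hab hce) (mul_ne_zero hac hbe)
  have hX1' : 1 - X ≠ 0 := by
    rw [X1]; exact div_ne_zero (mul_ne_zero had hbc) (mul_ne_zero hac hbd)
  have hY1' : 1 - Y ≠ 0 := by
    rw [Y1]; exact div_ne_zero (mul_ne_zero hae hbc) (mul_ne_zero hac hbe)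
  have hX1 : X ≠ 1 := fun h => hX1' (by rw [h, sub_self])
  have hY1 : Y ≠ 1 := fun h => hY1' (by rw [h, sub_self])
  have eYX : Y / X = D b d * D c e / (D b e * D c d) := by
    rw [hX, hY]; field_simp
  have hXY : X ≠ Y := by
    intro h
    rw [← h, div_self hX0, eq_comm, div_eq_one_iff_eq (mul_ne_zero hbe hcd)] at eYX
    have := hD.pl b c d e
    have h0 : D b c * D d e = 0 := by linear_combination this + eYX
    exact mul_ne_zero hbc hde h0
  have e1 : (1 - X) / (1 - Y) = D a d * D b e / (D a e * D b d) := by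
    rw [X1, Y1]; field_simp
  have e2 : (1 - X⁻¹) / (1 - Y⁻¹) = D a d * D c e / (D a e * D c d) := by
    have : (1 - X⁻¹) / (1 - Y⁻¹) = ((1 - X) / (1 - Y)) * (Y / X) := by
      have a1 : (1 - X⁻¹) = -(1 - X) / X := by field_simp; ring
      have a2 : (1 - Y⁻¹) = -(1 - Y) / Y := by field_simp; ring
      rw [a1, a2]
      have hX1n : (1 - Y) ≠ 0 := hY1'
      field_simp
    rw [this, e1, eYX]; field_simp
  have r := five hX0 hX1 hY0 hY1 hXY
  rw [eYX, e1, e2] at r
  have f0 : sy X = cr D a b c d := rfl
  have f1 : sy Y = cr D a b c e := rfl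
  have g : ∀ p q r s : ι, sy (D p r * D q s / (D p s * D q r)) = cr D p q r s := by
    intro p q r s
    rw [← neg_neg (cr D p q r s), ← cr_swap_bc p q r s, ← cr_swap_cd hD p r q s]
    unfold cr
    rw [hD.anti q s, hD.anti q r, mul_neg, mul_neg, neg_div_neg_eq]
  rw [g b c d e, g a c d e, g a b d e, f0, f1] at r
  rw [← r]; abel

/-- a nondegenerate bracket: `[ab] = 0` is an equivalence relation -/
structure NBracket (D : ι → ι → F) : Prop extends Bracket D where
  trans : ∀ a b c, D a b = 0 → D b c = 0 → D a c = 0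

lemma NBracket.symm0 (hD : NBracket D) {a b : ι} (h : D a b = 0) : D b a = 0 := by
  rw [hD.anti a b, h, neg_zero]

/-- parallel vectors can be exchanged -/
lemma cr_congr_a (hD : NBracket D) {a a' : ι} (h : D a a' = 0) (b c d : ι) :
    cr D a b c d = cr D a' b c d := by
  by_cases hac : D a c = 0
  · rw [cr_zero_ac _ _ _ _ hac, cr_zero_ac _ _ _ _ (hD.trans a' a c (hD.symm0 h) hac)]
  have hac' : D a' c ≠ 0 := fun h' => hac (hD.trans a a' c h h')
  unfold cr
  have e : D a b * D a' c = D a' b * D a c := by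
    have := hD.pl a a' b c
    rw [h] at this
    linear_combination -this
  by_cases hbd : D b d = 0
  · rw [hbd]; simp
  congr 1
  rw [div_eq_div_iff (mul_ne_zero hac hbd) (mul_ne_zero hac' hbd)]
  linear_combination D c d * D b d * e

/-- the alternating sum of the five cross ratio symbols of five indices -/
noncomputable def coc (D : ι → ι → F) (a b c d e : ι) : B2 F :=
  cr D b c d e - cr D a c d e + cr D a b d e - cr D a b c e + cr D a b c d

lemma coc_swap12 [Infinite F] (hD : Bracket D) (a b c d e : ι) :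
    coc D b a c d e = - coc D a b c d e := by
  unfold coc
  rw [cr_swap_ab hD a b d e, cr_swap_ab hD a b c e, cr_swap_ab hD a b c d]; abel

lemma coc_swap23 [Infinite F] (hD : Bracket D) (a b c d e : ι) :
    coc D a c b d e = - coc D a b c d e := by
  unfold coc
  rw [cr_swap_ab hD b c d e, cr_swap_bc a b c e, cr_swap_bc a b c d]; abel

lemma coc_swap34 [Infinite F] (hD : Bracket D) (a b c d e : ι) :
    coc D a b d c e = - coc D a b c d e := by
  unfold coc
  rw [cr_swap_bc b c d e, cr_swap_bc a c d e, cr_swap_cd hD a b c d]; abel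

lemma coc_swap45 [Infinite F] (hD : Bracket D) (a b c d e : ι) :
    coc D a b c e d = - coc D a b c d e := by
  unfold coc
  rw [cr_swap_cd hD b c d e, cr_swap_cd hD a c d e, cr_swap_cd hD a b d e]; abel

lemma coc_zero12 (hD : NBracket D) (a b c d e : ι) (hab : D a b = 0) :
    coc D a b c d e = 0 := by
  unfold coc
  rw [cr_zero_ab a b d e hab, cr_zero_ab a b c e hab, cr_zero_ab a b c d hab,
      cr_congr_a hD hab c d e]; abel

lemma coc_zero23 [Infinite F] (hD : NBracket D) (a b c d e : ι) (h : D b c = 0) :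
    coc D a b c d e = 0 := by
  have hB : Bracket D := hD.toBracket
  rw [← neg_neg (coc D a b c d e), ← coc_swap12 hB, ← coc_swap23 hB, coc_zero12 hD _ _ _ _ _ h]

lemma coc_zero34 [Infinite F] (hD : NBracket D) (a b c d e : ι) (h : D c d = 0) :
    coc D a b c d e = 0 := by
  have hB : Bracket D := hD.toBracket
  rw [← neg_neg (coc D a b c d e), ← coc_swap23 hB, ← coc_swap34 hB, coc_zero23 hD _ _ _ _ _ h]

lemma coc_zero45 [Infinite F] (hD : NBracket D) (a b c d e : ι) (h : D d e = 0) :
    coc D a b c d e = 0 := by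
  have hB : Bracket D := hD.toBracket
  rw [← neg_neg (coc D a b c d e), ← coc_swap34 hB, ← coc_swap45 hB, coc_zero34 hD _ _ _ _ _ h]

lemma coc_eq_zero [Infinite F] (hD : NBracket D) (a b c d e : ι) : coc D a b c d e = 0 := by
  have hB : Bracket D := hD.toBracket
  by_cases hab : D a b = 0
  · exact coc_zero12 hD _ _ _ _ _ hab
  by_cases hbc : D b c = 0
  · exact coc_zero23 hD _ _ _ _ _ hbc
  by_cases hcd : D c d = 0
  · exact coc_zero34 hD _ _ _ _ _ hcd
  by_cases hde : D d e = 0
  · exact coc_zero45 hD _ _ _ _ _ hde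
  by_cases hac : D a c = 0
  · rw [← neg_neg (coc D a b c d e), ← coc_swap23 hB, coc_zero12 hD _ _ _ _ _ hac, neg_zero]
  by_cases hbd : D b d = 0
  · rw [← neg_neg (coc D a b c d e), ← coc_swap34 hB, coc_zero23 hD _ _ _ _ _ hbd, neg_zero]
  by_cases hce : D c e = 0
  · rw [← neg_neg (coc D a b c d e), ← coc_swap45 hB, coc_zero34 hD _ _ _ _ _ hce, neg_zero]
  by_cases had : D a d = 0
  · rw [← neg_neg (coc D a b c d e), ← coc_swap34 hB, ← coc_swap23 hB,
      coc_zero12 hD _ _ _ _ _ had]
  by_cases hbe : D b e = 0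
  · rw [← neg_neg (coc D a b c d e), ← coc_swap45 hB, ← coc_swap34 hB,
      coc_zero23 hD _ _ _ _ _ hbe]
  by_cases hae : D a e = 0
  · rw [← neg_neg (coc D a b c d e), ← coc_swap45 hB, ← coc_swap34 hB,
      ← neg_neg (coc D a b e c d), ← coc_swap23 hB, coc_zero12 hD _ _ _ _ _ hae, neg_zero]
  exact cr_cocycle_generic hB hab hac had hae hbc hbd hbe hcd hce hde

end Crs

end K4M
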