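import Pool.Agent.Lib_helper86.K4.TRel

/-!
The concurrency of the lines `L`, `-L` and the line through the points of order two.
-/

set_option autoImplicit false
set_option linter.unusedSectionVars false

namespace K4M

open WeierstrassCurve.Affine Pool.Agent.K4ParP

section A2

variable {F : Type*} [Field F] [DecidableEq F] {W : WeierstrassCurve.Affine F}

lemma pv_zero : pv (0 : W.Point) = (0, 1, 0) := rfl

/-- the identity of determinants -/
lemma A2_det {e e' : W.Point} (he0 : e ≠ 0) (he0' : e' ≠ 0) (he : e + e = 0) (he' : e' + e' = 0)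
    (x y : W.Point) : dt e e' x * dt (-x) (-y) y = dt (-x) (-y) x * dt e e' y := by
  have p1 := (ps_eq_zero_iff he0).mpr he
  have p2 := (ps_eq_zero_iff he0').mpr he'
  by_cases hx : x = 0
  · subst hx
    rw [neg_zero]
    rcases y with _ | ⟨x₄, y₄, h₄⟩
    · rw [← Point.zero_def, neg_zero]
      simp only [dt, pv_zero]
      ring
    · rw [Point.neg_some]
      simp only [dt, pv_zero, pv]
      ring
  by_cases hy : y = 0
  · subst hy
    rw [neg_zero]
    rcases x with _ | ⟨x₄, y₄, h₄⟩
    · exact absurd rfl hx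
    · rw [Point.neg_some]
      simp only [dt, pv_zero, pv]
      ring
  rcases e with _ | ⟨x₁, y₁, h₁⟩
  · exact absurd rfl he0
  rcases e' with _ | ⟨x₂, y₂, h₂⟩
  · exact absurd rfl he0'
  rcases x with _ | ⟨x₃, y₃, h₃⟩
  · exact absurd rfl hx
  rcases y with _ | ⟨x₄, y₄, h₄⟩
  · exact absurd rfl hy
  simp only [ps] at p1 p2
  simp only [Point.neg_some, dt, pv, negY]
  linear_combination
    ((x₄ - x₃) * (-x₂ * (y₄ - y₃) + y₂ * (x₄ - x₃) + (x₃ * y₄ - x₄ * y₃))) * p1 +
    ((x₄ - x₃) * (x₁ * (y₄ - y₃) - y₁ * (x₄ - x₃) - (x₃ * y₄ - x₄ * y₃))) * p2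

variable {T B : Type*} [AddCommGroup T] [AddCommGroup B] [Module ℚ B] {t : T → T → B}

lemma CR_neg (ht : IsT t) (P a b c d : T) :
    CR t (-P) (-a) (-b) (-c) (-d) = CR t P a b c d := by
  have h : ∀ x y z, th t (-P) (-x) (-y) (-z) = th t P x y z := by
    intro x y z
    unfold th
    rw [← ht.even (x - y) (y - z), ← ht.even (x - y) (y + z + P),
      ← ht.even (x + y + P) (-P - y - z), ← ht.even (-P - x - y) (y - z)]
    congr 1
    · congr 1
      · congr 1
        · congr 1 <;> abel
        · congr 1 <;> abel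
      · congr 1 <;> abel
    · congr 1 <;> abel
  unfold CR
  rw [h, h, h, h]

lemma th_rev (ht : IsT t) (P a b c : T) : th t P c b a = - th t P a b c := by
  rw [th_swap12 ht P b c a, th_swap23 ht P b a c, th_swap12 ht P a b c]
  abel

lemma CR_swap13 (ht : IsT t) (P a b c d : T) : CR t P c b a d = - CR t P a b c d := by
  unfold CR
  rw [th_swap12 ht P a b d, th_swap12 ht P a c d, th_swap12 ht P b c d, th_rev ht P a b c]
  abel

lemma CR_swap24 (ht : IsT t) (P a b c d : T) : CR t P a d c b = - CR t P a b c d := by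
  unfold CR
  rw [th_rev ht P b c d, th_swap23 ht P a b c, th_swap23 ht P a b d, th_swap23 ht P a c d]
  abel

/-- **concurrency** of the lines `L`, `-L` and the line through the points of order two -/
theorem conc_T [CharZero F] (hP : PencilStatement W) (h2 : ∀ P : W.Point, ∃ Q, Q + Q = P)
    {t : TP W → TP W → B2 F} (ht : IsT t)
    (hC : ∀ P a b c d : TP W, ff h2 (P : W.Point) a b c d = CR t P a b c d)
    {e e' : TP W} (he : e + e = 0) (he' : e' + e' = 0) (h0 : e ≠ 0) (h0' : e' ≠ 0)
    (hne : e ≠ e') (x y : TP W) :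
    CR t e e' x y (-x) = CR t (-x) (-y) x y e := by
  have nege : -e = e := neg_eq_of_add_eq_zero_left he
  have nege' : -e' = e' := neg_eq_of_add_eq_zero_left he'
  by_cases hx : x + x = 0
  · have nx : -x = x := neg_eq_of_add_eq_zero_left hx
    have nx' : x = -x := nx.symm
    rw [CR_zero ht e e' x y (-x) (by tauto)]
    symm
    apply eq_zero_of_neg
    have h1 := CR_neg ht (-x) (-y) x y e
    rw [neg_neg, neg_neg, nege, nx] at h1
    rw [nx]
    nth_rewrite 1 [← h1]
    rw [CR_swap13 ht x (-y) x y e]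
  by_cases hy : y + y = 0
  · have ny : -y = y := neg_eq_of_add_eq_zero_left hy
    rw [CR_zero ht (-x) (-y) x y e (by tauto)]
    apply eq_zero_of_neg
    have h1 := CR_neg ht e e' x y (-x)
    rw [neg_neg, nege, nege', ny] at h1
    nth_rewrite 1 [← h1]
    rw [CR_swap24 ht e e' x y (-x)]
  by_cases h1 : x = y
  · rw [CR_zero ht e e' x y (-x) (by tauto), CR_zero ht (-x) (-y) x y e (by tauto)]
  by_cases h2' : x = -y
  · have h3 : y = -x := by rw [h2', neg_neg]
    have h4 : -y = x := h2'.symm
    rw [CR_zero ht e e' x y (-x) (by tauto), CR_zero ht (-x) (-y) x y e (by tauto)]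
  by_cases h3 : x + y = e
  · have h4 : x + y + e = 0 := by rw [h3, he]
    have h5 : -y + e + -x = 0 := by rw [← h3]; abel
    rw [CR_zero ht e e' x y (-x) (by tauto), CR_zero ht (-x) (-y) x y e (by tauto)]
  by_cases h4 : x = y + e
  · have h5 : y + -x + e = 0 := by
      have : y + -x + e = e + e - (e + e) := by rw [h4]; abel
      rw [this]; abel
    have h6 : y + e + -x = 0 := by rw [h4]; abel
    rw [CR_zero ht e e' x y (-x) (by tauto), CR_zero ht (-x) (-y) x y e (by tauto)]
  -- the general case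
  have cE : ∀ {a b : TP W}, a ≠ b → (a : W.Point) ≠ b := fun h h' => h (Subtype.ext h')
  have x2 : (x : W.Point) ≠ -x := fun h => hx (by
    apply Subtype.ext
    show (x : W.Point) + x = 0
    nth_rewrite 1 [h]; rw [neg_add_cancel])
  have ex : e ≠ x := fun h => hx (by rw [← h, he])
  have enx : e ≠ -x := fun h => hx (by
    rw [← neg_neg x, ← h, nege, he])
  have ey : e ≠ y := fun h => hy (by rw [← h, he])
  have xx : -x ≠ x := fun h => x2 (congrArg (fun z : TP W => (z : W.Point)) h).symm
  have yy : -y ≠ y := fun h => hy (by nth_rewrite 1 [← h]; rw [neg_add_cancel])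
  have xy1 : -x ≠ -y := fun h => h1 (neg_injective h)
  have xy2 : -x ≠ y := fun h => h2' (by rw [← h, neg_neg])
  rw [← hC, ← hC, ← cr_dt hP h2 (cE hne) (cE ex) (cE ey) (cE enx),
    ← cr_dt hP h2 (cE xy1) (cE xx) (cE xy2) (cE enx.symm)]
  have n1 : dt (e : W.Point) (e' : W.Point) (y : W.Point) ≠ 0 := by
    intro h
    have e'y : e' ≠ y := fun h' => hy (by rw [← h', he'])
    have := dt_zero hP h2 (cE hne) (cE ey) (cE e'y) h
    apply hy
    have h5 : e + e' + y = 0 := Subtype.ext this
    have : y + y = (e + e' + y) + (e + e' + y) - (e + e) - (e' + e') := by abel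
    rw [this, h5, he, he']; simp
  have n2 : dt (e : W.Point) (x : W.Point) ((-x : TP W) : W.Point) ≠ 0 := by
    intro h
    have := dt_zero hP h2 (cE ex) (cE enx) (cE xx.symm) h
    apply h0
    have h5 : e + x + -x = 0 := Subtype.ext this
    rw [← h5]; abel
  have n3 : dt ((-x : TP W) : W.Point) ((-y : TP W) : W.Point) (y : W.Point) ≠ 0 := by
    intro h
    have := dt_zero hP h2 (cE xy1) (cE xy2) (cE yy) h
    apply hx
    have h5 : -x + -y + y = 0 := Subtype.ext this
    have : x + x = -(-x + -y + y) - (-x + -y + y) := by abel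
    rw [this, h5]; simp
  have s13 : ∀ a b c : W.Point, dt a b c = - dt c b a := by
    intro a b c
    unfold dt; ring
  have key := A2_det (cE h0) (cE h0')
    (congrArg (fun z : TP W => (z : W.Point)) he) (congrArg (fun z : TP W => (z : W.Point)) he')
    (x : W.Point) (y : W.Point)
  have n4 : dt ((-x : TP W) : W.Point) (x : W.Point) (e : W.Point) ≠ 0 := by
    rw [s13]; exact neg_ne_zero.mpr n2
  unfold cr
  congr 1
  rw [div_eq_div_iff (mul_ne_zero n1 n2) (mul_ne_zero n3 n4)]
  rw [s13 ((-x : TP W) : W.Point) (y : W.Point) e, s13 ((-x : TP W) : W.Point) (x : W.Point) e]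
  have key' : dt (e : W.Point) (e' : W.Point) x * dt ((-x : TP W) : W.Point)
      ((-y : TP W) : W.Point) y = dt ((-x : TP W) : W.Point) ((-y : TP W) : W.Point) x *
      dt (e : W.Point) (e' : W.Point) y := key
  linear_combination (-(dt (e : W.Point) (y : W.Point) ((-x : TP W) : W.Point) *
    dt (e : W.Point) (x : W.Point) ((-x : TP W) : W.Point))) * key'

end A2

end K4M
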