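import Pool.Agent.Lib_helper60.K4M.A2
import Pool.Agent.Lib_helper86.K4.Z2b

/-!
The concurrency relation in the form of `Pool.Agent.K4ParP.Conc`.
-/

set_option autoImplicit false

namespace K4M

open WeierstrassCurve.Affine Pool.Agent.K4ParP

theorem conc_closed {F : Type*} [Field F] [DecidableEq F] {W : WeierstrassCurve.Affine F}
    [CharZero F] (hP : PencilStatement W) (h2 : ∀ P : W.Point, ∃ Q, Q + Q = P)
    {t : TP W → TP W → B2 F} (ht : IsT t)
    (hC : ∀ P a b c d : TP W, ff h2 (P : W.Point) a b c d = CR t P a b c d) :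
    Conc t := by
  intro e f u v he hf e0 f0 ef
  have h := conc_T hP h2 ht hC he hf e0 f0 ef (-u - v) (-v)
  rwa [show -(-u - v) = u + v by abel, neg_neg] at h

end K4M
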