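import Pool.Agent.Lib_helper86.K4.Par

/-!
Existence of `t`: a function `C` of four elements of a finite abelian group `A` of order prime
to six which is alternating, even, satisfies the cocycle relation and the plane relation is of
the form `C(a,b,c,d) = θ(b,c,d) - θ(a,c,d) + θ(a,b,d) - θ(a,b,c)`.
-/

set_option linter.unusedSectionVars false

open Finset Pool.Agent.K4Par

namespace K4M

section TStr

variable {A B : Type*} [AddCommGroup A] [Fintype A] [AddCommGroup B] [Module ℚ B]

/-- the properties of the cross ratio symbol `C(a,b,c,d)` -/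
structure IsC (C : A → A → A → A → B) : Prop where
  s12 : ∀ a b c d, C b a c d = - C a b c d
  s23 : ∀ a b c d, C a c b d = - C a b c d
  s34 : ∀ a b c d, C a b d c = - C a b c d
  ev : ∀ a b c d, C (-a) b c d = C a b c d
  coc : ∀ a b c d e, C b c d e - C a c d e + C a b d e - C a b c e + C a b c d = 0
  /-- the plane relation of the points `p_i = -2 q_i` -/
  pl : ∀ q p : Fin 5 → A, (∀ i, p i = -(q i + q i)) →
    C (p 1 - q 0) (p 2 - q 0) (p 3 - q 0) (p 4 - q 0)
    - C (p 0 - q 1) (p 2 - q 1) (p 3 - q 1) (p 4 - q 1)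
    + C (p 0 - q 2) (p 1 - q 2) (p 3 - q 2) (p 4 - q 2)
    - C (p 0 - q 3) (p 1 - q 3) (p 2 - q 3) (p 4 - q 3)
    + C (p 0 - q 4) (p 1 - q 4) (p 2 - q 4) (p 3 - q 4) = 0

variable {C : A → A → A → A → B}

/-- average over `A` -/
noncomputable def av (f : A → B) : B := (Fintype.card A : ℚ)⁻¹ • ∑ x, f x

lemma card_ne : (Fintype.card A : ℚ) ≠ 0 := by
  have : Nonempty A := ⟨0⟩
  exact_mod_cast Fintype.card_ne_zero

lemma av_const (x : B) : av (fun _ : A => x) = x := by
  unfold av
  rw [sum_const, card_univ, ← Nat.cast_smul_eq_nsmul ℚ, smul_smul, inv_mul_cancel₀ card_ne,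
    one_smul]

lemma av_add (f g : A → B) : av (fun x => f x + g x) = av f + av g := by
  unfold av; rw [sum_add_distrib, smul_add]

lemma av_sub (f g : A → B) : av (fun x => f x - g x) = av f - av g := by
  unfold av; rw [sum_sub_distrib, smul_sub]

lemma av_neg (f : A → B) : av (fun x => - f x) = - av f := by
  unfold av; rw [sum_neg_distrib, smul_neg]

lemma av_bij (f : A → B) {e : A → A} (he : Function.Bijective e) :
    av (fun x => f (e x)) = av f := by
  unfold av; rw [he.sum_comp]

lemma av_comm (f : A → A → B) : av (fun x => av fun y => f x y) = av fun y => av fun x => f x y := by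
  unfold av
  simp only [← smul_sum]
  rw [sum_comm]

lemma av_congr {f g : A → B} (h : ∀ x, f x = g x) : av f = av g := by
  rw [show f = g from funext h]

lemma bij_add (c : A) : Function.Bijective fun x : A => x + c :=
  (Equiv.addRight c).bijective

lemma bij_neg : Function.Bijective fun x : A => -x := (Equiv.neg A).bijective

lemma av_shift (f : A → B) (c : A) : av (fun x => f (x + c)) = av f := av_bij f (bij_add c)

lemma av_refl (f : A → B) : av (fun x => f (-x)) = av f := av_bij f bij_neg

/-- `κ(a,b,c)` is minus the average of `C(a,b,c,d)` over `d` -/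
noncomputable def ka (C : A → A → A → A → B) (a b c : A) : B := - av fun d => C a b c d

/-- `t(u,v)` is the average of `κ(b+u,b,b-v)` over `b` -/
noncomputable def tt (C : A → A → A → A → B) (u v : A) : B := av fun b => ka C (b + u) b (b - v)

section basics

variable (hC : IsC C)
include hC

lemma IsC.ev2 (a b c d : A) : C a (-b) c d = C a b c d := by
  rw [hC.s12 (-b) a c d, hC.ev, hC.s12 a b c d, neg_neg]

lemma IsC.ev3 (a b c d : A) : C a b (-c) d = C a b c d := by
  rw [hC.s23 a (-c) b d, hC.ev2, hC.s23 a b c d, neg_neg]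

lemma ka_s12 (a b c : A) : ka C b a c = - ka C a b c := by
  unfold ka
  rw [← av_neg, ← av_neg]
  simp only [hC.s12 a b c, av_neg]

lemma ka_s23 (a b c : A) : ka C a c b = - ka C a b c := by
  unfold ka
  rw [← av_neg, ← av_neg]
  simp only [hC.s23 a b c, av_neg]

lemma ka_ev1 (a b c : A) : ka C (-a) b c = ka C a b c := by
  unfold ka
  simp only [hC.ev]

lemma ka_ev2 (a b c : A) : ka C a (-b) c = ka C a b c := by
  unfold ka
  simp only [hC.ev2]

lemma ka_ev3 (a b c : A) : ka C a b (-c) = ka C a b c := by
  unfold ka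
  simp only [hC.ev3]

lemma ka_av3 (a b : A) : (av fun c => ka C a b c) = 0 := by
  apply eq_zero_of_neg
  unfold ka
  rw [av_neg]
  nth_rw 1 [av_comm]
  rw [neg_neg, ← av_neg]
  apply av_congr; intro x
  rw [← av_neg]
  apply av_congr; intro y
  rw [hC.s34 a b y x]

lemma ka_av1 (b c : A) : (av fun a => ka C a b c) = 0 := by
  have h : ∀ a, ka C a b c = ka C b c a := by
    intro a
    rw [ka_s23 hC b a c, ka_s12 hC a b c, neg_neg]
  rw [av_congr h]
  exact ka_av3 hC b c

lemma C_eq (a b c d : A) :
    C a b c d = ka C b c d - ka C a c d + ka C a b d - ka C a b c := by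
  have h : av (fun e => C b c d e - C a c d e + C a b d e - C a b c e + C a b c d) = 0 := by
    rw [av_congr (fun e => hC.coc a b c d e), av_const]
  rw [av_add, av_sub, av_add, av_sub, av_const] at h
  have := eq_neg_of_add_eq_zero_right h
  rw [this]
  unfold ka
  abel

lemma ka_s13 (a b c : A) : ka C c b a = - ka C a b c := by
  rw [ka_s12 hC b c a, ka_s23 hC b a c, ka_s12 hC a b c, neg_neg]

lemma ka_cyc (a b c : A) : ka C b c a = ka C a b c := by
  rw [ka_s23 hC b a c, ka_s12 hC a b c, neg_neg]

lemma ka_negs (a b c : A) : ka C (-a) (-b) (-c) = ka C a b c := by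
  rw [ka_ev1 hC, ka_ev2 hC, ka_ev3 hC]

lemma tt_swap (u v : A) : tt C v u = - tt C u v := by
  unfold tt
  rw [← av_refl (fun b => ka C (b + v) b (b - u)), ← av_neg]
  apply av_congr; intro b
  rw [show -b + v = -(b - v) by abel, show -b - u = -(b + u) by abel, ka_negs hC, ka_s13 hC]

lemma tt_even (u v : A) : tt C (-u) (-v) = tt C u v := by
  unfold tt
  rw [← av_refl (fun b => ka C (b + -u) b (b - -v))]
  apply av_congr; intro b
  rw [show -b + -u = -(b + u) by abel, show -b - -v = -(b - v) by abel, ka_negs hC]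

lemma tt_rot (u v : A) : tt C v (-u - v) = tt C u v := by
  unfold tt
  rw [← av_shift (fun b => ka C (b + u) b (b - v)) v]
  apply av_congr; intro b
  rw [← ka_cyc hC (b + v + u) (b + v) (b + v - v)]
  congr 1 <;> abel

lemma tt_isT : IsT (tt C) := ⟨tt_swap hC, tt_rot hC, tt_even hC⟩

lemma tt_av1 (v : A) {e : A → A} (he : Function.Bijective e) : av (fun x => tt C (e x) v) = 0 := by
  rw [av_bij (fun x => tt C x v) he]
  unfold tt
  rw [av_comm]
  have : ∀ b : A, (av fun x => ka C (b + x) b (b - v)) = 0 := by
    intro b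
    have he2 : Function.Bijective (fun x : A => b + x) := (Equiv.addLeft b).bijective
    rw [av_bij (fun a => ka C a b (b - v)) he2]
    exact ka_av1 hC _ _
  rw [av_congr this, av_const]

/-- the average of `κ` over translations -/
lemma av_ka {e : A → A} (he : Function.Bijective e) (a b c : A) :
    av (fun s => ka C (e s + a) (e s + b) (e s + c)) = tt C (a - b) (b - c) := by
  rw [av_bij (fun s => ka C (s + a) (s + b) (s + c)) he,
    ← av_shift (fun s => ka C (s + a) (s + b) (s + c)) (-b)]
  unfold tt
  apply av_congr; intro s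
  congr 1 <;> abel

/-- `κ` translated by `q` -/
noncomputable def kq (C : A → A → A → A → B) (q a b c : A) : B := ka C (a - q) (b - q) (c - q)

/-- the relation (ii') -/
lemma plane_ka (h2 : Function.Injective fun a : A => a + a) (q0 q1 q2 q3 p0 p1 p2 p3 : A)
    (h0 : p0 = -(q0 + q0)) (h1 : p1 = -(q1 + q1)) (h2' : p2 = -(q2 + q2))
    (h3 : p3 = -(q3 + q3)) :
    kq C q0 p1 p2 p3 - kq C q1 p0 p2 p3 + kq C q2 p0 p1 p3 - kq C q3 p0 p1 p2 =
      tt C (p1 - p2) (p2 - p3) - tt C (p0 - p2) (p2 - p3) + tt C (p0 - p1) (p1 - p3)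
        - tt C (p0 - p1) (p1 - p2) := by
  have hb : Function.Bijective fun s : A => -(s + s) :=
    bij_neg.comp (Finite.injective_iff_bijective.mp h2)
  have hp : ∀ s : A,
      C (p1 - q0) (p2 - q0) (p3 - q0) (-(s + s) - q0)
      - C (p0 - q1) (p2 - q1) (p3 - q1) (-(s + s) - q1)
      + C (p0 - q2) (p1 - q2) (p3 - q2) (-(s + s) - q2)
      - C (p0 - q3) (p1 - q3) (p2 - q3) (-(s + s) - q3)
      + C (p0 - s) (p1 - s) (p2 - s) (p3 - s) = 0 := by
    intro s
    have := hC.pl ![q0, q1, q2, q3, s] ![p0, p1, p2, p3, -(s + s)] (by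
      intro i; fin_cases i <;> simp [h0, h1, h2', h3])
    simpa using this
  have hav := av_congr hp
  rw [av_const, av_add, av_sub, av_add, av_sub] at hav
  have e : ∀ x a b c : A, (av fun s : A => C a b c (-(s + s) - x)) = - ka C a b c := by
    intro x a b c
    unfold ka
    rw [neg_neg, av_bij (fun d => C a b c (d - x)) hb]
    have := av_shift (fun d => C a b c d) (-x)
    simpa [sub_eq_add_neg] using this
  rw [e, e, e, e] at hav
  have f : ∀ a b c : A, (av fun s : A => ka C (a - s) (b - s) (c - s)) = tt C (a - b) (b - c) := by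
    intro a b c
    rw [← av_ka hC bij_neg a b c]
    apply av_congr; intro s
    congr 1 <;> abel
  have g : (av fun s : A => C (p0 - s) (p1 - s) (p2 - s) (p3 - s)) =
      tt C (p1 - p2) (p2 - p3) - tt C (p0 - p2) (p2 - p3) + tt C (p0 - p1) (p1 - p3)
        - tt C (p0 - p1) (p1 - p2) := by
    rw [← f p1 p2 p3, ← f p0 p2 p3, ← f p0 p1 p3, ← f p0 p1 p2, ← av_sub, ← av_add, ← av_sub]
    apply av_congr; intro s
    exact C_eq hC _ _ _ _
  rw [g] at hav
  unfold kq
  have h := eq_neg_of_add_eq_zero_right hav
  rw [h]; abel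

/-- `κ = θ` -/
theorem ka_eq_th (h2 : Function.Injective fun a : A => a + a)
    (h3 : Function.Injective fun a : A => a + a + a) (a b c : A) :
    ka C a b c = th (tt C) a b c := by
  have h2b : Function.Bijective fun a : A => a + a := Finite.injective_iff_bijective.mp h2
  have h3b : Function.Bijective fun a : A => a + a + a := Finite.injective_iff_bijective.mp h3
  obtain ⟨a', ha⟩ := h2b.2 (-a)
  obtain ⟨b', hb⟩ := h2b.2 (-b)
  obtain ⟨c', hc⟩ := h2b.2 (-c)
  have ha' : a' + a' = -a := ha
  have hb' : b' + b' = -b := hb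
  have hc' : c' + c' = -c := hc
  have key : ∀ r : A,
      kq C (r + r) (a + r + r) (b + r + r) (c + r + r)
      - kq C (a' - r) (-(r + r + r + r)) (b + r + r) (c + r + r)
      + kq C (b' - r) (-(r + r + r + r)) (a + r + r) (c + r + r)
      - kq C (c' - r) (-(r + r + r + r)) (a + r + r) (b + r + r) =
      tt C (a - b) (b - c) - tt C (-(r + r + r + r) - (b + r + r)) (b - c)
      + tt C (-(r + r + r + r) - (a + r + r)) (a - c)
      - tt C (-(r + r + r + r) - (a + r + r)) (a - b) := by
    intro r
    have := plane_ka hC h2 (r + r) (a' - r) (b' - r) (c' - r) (-(r + r + r + r)) (a + r + r)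
      (b + r + r) (c + r + r) (by abel)
      (by rw [show -(a' - r + (a' - r)) = -(a' + a') + r + r by abel, ha']; abel)
      (by rw [show -(b' - r + (b' - r)) = -(b' + b') + r + r by abel, hb']; abel)
      (by rw [show -(c' - r + (c' - r)) = -(c' + c') + r + r by abel, hc']; abel)
    rw [this, show a + r + r - (b + r + r) = a - b by abel,
      show b + r + r - (c + r + r) = b - c by abel, show a + r + r - (c + r + r) = a - c by abel]
  have h6 : ∀ x : A, Function.Bijective fun r : A => -(r + r + r + r) - (x + r + r) := by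
    intro x
    apply Finite.injective_iff_bijective.mp
    intro r s hrs
    have hrs' : -(r + r + r + r) - (x + r + r) = -(s + s + s + s) - (x + s + s) := hrs
    have e1 : (r + r + r) + (r + r + r) = (s + s + s) + (s + s + s) := by
      calc (r + r + r) + (r + r + r) = -(-(r + r + r + r) - (x + r + r)) - x := by abel
        _ = -(-(s + s + s + s) - (x + s + s)) - x := by rw [hrs']
        _ = (s + s + s) + (s + s + s) := by abel
    exact h3 (h2 e1)
  have hav := av_congr key
  rw [av_sub, av_add, av_sub, av_sub, av_add, av_sub, av_const] at hav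
  rw [tt_av1 hC (b - c) (h6 b), tt_av1 hC (a - c) (h6 a), tt_av1 hC (a - b) (h6 a)] at hav
  have t0 : (av fun r : A => kq C (r + r) (a + r + r) (b + r + r) (c + r + r)) = ka C a b c := by
    have : ∀ r : A, kq C (r + r) (a + r + r) (b + r + r) (c + r + r) = ka C a b c := by
      intro r
      unfold kq
      congr 1 <;> abel
    rw [av_congr this, av_const]
  have t1 : ∀ x x' y z : A, x' + x' = -x →
      (av fun r : A => kq C (x' - r) (-(r + r + r + r)) (y + r + r) (z + r + r)) =
        tt C (-x - y) (y - z) := by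
    intro x x' y z hx
    have e1 : ∀ r : A, kq C (x' - r) (-(r + r + r + r)) (y + r + r) (z + r + r) =
        ka C ((r + r + r) + x') ((r + r + r) + (y - x')) ((r + r + r) + (z - x')) := by
      intro r
      unfold kq
      rw [← ka_ev1 hC ((r + r + r) + x')]
      congr 1 <;> abel
    rw [av_congr e1, av_ka hC h3b, ← hx]
    congr 1 <;> abel
  rw [t0, t1 a a' b c ha', t1 b b' a c hb', t1 c c' a b hc'] at hav
  have fin : ka C a b c = tt C (a - b) (b - c) + tt C (-a - b) (b - c) - tt C (-b - a) (a - c)
      + tt C (-c - a) (a - b) := by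
    have e : ka C a b c = (ka C a b c - tt C (-a - b) (b - c) + tt C (-b - a) (a - c)
        - tt C (-c - a) (a - b)) + tt C (-a - b) (b - c) - tt C (-b - a) (a - c)
        + tt C (-c - a) (a - b) := by abel
    rw [e, hav]; abel
  have hT := tt_isT hC
  have r1 : tt C (-c - a) (a - b) = tt C (a - b) (b + c) := by
    have := hT.rot (-c - a) (a - b)
    rw [← this]; congr 1; abel
  have r2 : tt C (-b - a) (a - c) = - tt C (a + b) (-b - c) := by
    have e5 := hT.swap13 (a + b) (-b - c)
    rw [← e5, ← hT.even (a + b)]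
    congr 1 <;> abel
  rw [fin, r1, r2]
  unfold th
  abel

/-- the cross ratio symbols are `θ` of `t` -/
theorem C_eq_CR (h2 : Function.Injective fun a : A => a + a)
    (h3 : Function.Injective fun a : A => a + a + a) (a b c d : A) :
    C a b c d = CR (tt C) a b c d := by
  rw [C_eq hC, ka_eq_th hC h2 h3, ka_eq_th hC h2 h3, ka_eq_th hC h2 h3, ka_eq_th hC h2 h3]
  rfl

end basics

end TStr

end K4M
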