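import Pool.Agent.Lib_helper60.K4M.Curve
import Pool.Agent.Lib_helper60.K4M.TStr

/-!
Assembly: the cross ratio symbols of the points of a finite group of order prime to six.
-/

set_option linter.unusedSectionVars false

open Pool.Agent.K4Par

namespace K4M

section Asm

variable {F : Type*} [Field F] [DecidableEq F] {W : WeierstrassCurve.Affine F}

/-- the cross ratio symbol of four points of `A` -/
noncomputable def CA (A : AddSubgroup W.Point) (a b c d : A) : B2 F :=
  cr (dx : W.Point → W.Point → F) (a : W.Point) b c d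

lemma xv_neg (a : W.Point) : xv (-a) = xv a := by
  rcases a with _ | ⟨x, y, h⟩
  · rfl
  · rfl

lemma dx_neg (a b : W.Point) : dx (-a) b = dx a b := by
  unfold dx; rw [xv_neg]

lemma dx_nbracket : NBracket (dx : W.Point → W.Point → F) :=
  { dx_bracket with
    trans := by
      intro a b c h1 h2
      rw [dx_eq_zero_iff] at *
      rcases h1 with rfl | rfl <;> rcases h2 with rfl | rfl
      · left; rfl
      · right; rfl
      · right; rfl
      · left; rw [neg_neg] }

variable {A : AddSubgroup W.Point}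

/-- the determinant of three points of `A` -/
def dA (A : AddSubgroup W.Point) (a b c : A) : F := dt (a : W.Point) b c

lemma dA_tbracket : TBracket (dA A) where
  s12 a b c := by unfold dA; exact dt_bracket.s12 _ _ _
  s23 a b c := by unfold dA; exact dt_bracket.s23 _ _ _
  pl p a b c d := by unfold dA; exact dt_bracket.pl _ _ _ _ _

/-- the translated bracket -/
def dq (A : AddSubgroup W.Point) (q a b : A) : F := dx ((a - q : A) : W.Point) ((b - q : A) : W.Point)

lemma pencilA (hP : PencilStatement W) (h2 : Function.Injective fun a : A => a + a) (q : A) :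
    ∃ k : F, k ≠ 0 ∧ ∃ h : A → F, (∀ a, a ≠ -(q + q) → h a ≠ 0) ∧
      ∀ a b, a ≠ -(q + q) → b ≠ -(q + q) →
        dA A (-(q + q)) a b = k * h a * h b * dq A q a b := by
  have hq : (q : W.Point) = 0 ∨ (q : W.Point) + q ≠ 0 := by
    by_cases h : q = 0
    · left; rw [h]; rfl
    · right
      intro h'
      apply h
      apply h2
      apply Subtype.ext
      simpa using h'
  obtain ⟨k, hk, h, hh, e⟩ := hP q hq
  refine ⟨k, hk, fun a => h a, ?_, ?_⟩
  · intro a ha
    apply hh
    intro h'
    apply ha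
    apply Subtype.ext
    simpa using h'
  · intro a b ha hb
    have := e a b (by
      intro h'
      apply ha
      apply Subtype.ext
      simpa using h') (by
      intro h'
      apply hb
      apply Subtype.ext
      simpa using h')
    unfold dA dq
    simpa using this

lemma half {A : Type*} [AddCommGroup A] [Finite A] (h2 : Function.Injective fun a : A => a + a)
    (x : A) : ∃ q : A, x = -(q + q) := by
  obtain ⟨q, hq⟩ := (Finite.injective_iff_bijective.mp h2).2 (-x)
  refine ⟨q, ?_⟩
  have : q + q = -x := hq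
  rw [this, neg_neg]

lemma dA_zero [Finite A] (hP : PencilStatement W) (h2 : Function.Injective fun a : A => a + a)
    {x y z : A} (hxy : x ≠ y) (hxz : x ≠ z) (hyz : y ≠ z) (h : dA A x y z = 0) :
    x + y + z = 0 := by
  obtain ⟨q, rfl⟩ := half h2 x
  obtain ⟨k, hk, h', hh, e⟩ := pencilA hP h2 q
  rw [e y z hxy.symm hxz.symm] at h
  have h0 : dq A q y z = 0 := by
    have h1 := hh y hxy.symm
    have h2 := hh z hxz.symm
    rcases mul_eq_zero.mp h with h3 | h3
    · exfalso; exact (mul_ne_zero (mul_ne_zero hk h1) h2) h3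
    · exact h3
  unfold dq at h0
  rw [dx_eq_zero_iff] at h0
  rcases h0 with h0 | h0
  · exfalso
    apply hyz
    have : y - q = z - q := Subtype.ext h0
    exact sub_left_injective this
  · have : y - q = -(z - q) := Subtype.ext (by simpa using h0)
    have e3 : y = -(z - q) + q := by rw [← this]; abel
    rw [e3]; abel

lemma dA_ntbracket [Finite A] (hP : PencilStatement W)
    (h2 : Function.Injective fun a : A => a + a) : NTBracket (dA A) :=
  { dA_tbracket with
    no4 := by
      intro x y z w hxy hxz hxw hyz hyw hzw h h'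
      have e1 := dA_zero hP h2 hxy hxz hyz h
      have e2 := dA_zero hP h2 hxy hxw hyw h'
      apply hzw
      have : x + y + z = x + y + w := by rw [e1, e2]
      exact add_left_cancel this }

lemma cr_dA (hP : PencilStatement W) (h2 : Function.Injective fun a : A => a + a)
    {p q a b c d : A} (hp : p = -(q + q)) (ha : p ≠ a) (hb : p ≠ b) (hc : p ≠ c) (hd : p ≠ d) :
    cr (dA A p) a b c d = CA A (a - q) (b - q) (c - q) (d - q) := by
  subst hp
  obtain ⟨k, hk, h', hh, e⟩ := pencilA hP h2 q
  have : CA A (a - q) (b - q) (c - q) (d - q) = cr (dq A q) a b c d := rfl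
  rw [this]
  apply cr_scale k h' hk a b c d (hh a ha.symm) (hh b hb.symm) (hh c hc.symm) (hh d hd.symm)
  intro x y hx hy
  have hne : ∀ z, z ∈ ({a, b, c, d} : Set A) → z ≠ -(q + q) := by
    intro z hz
    simp only [Set.mem_insert_iff, Set.mem_singleton_iff] at hz
    rcases hz with rfl | rfl | rfl | rfl
    · exact ha.symm
    · exact hb.symm
    · exact hc.symm
    · exact hd.symm
  exact e x y (hne x hx) (hne y hy)


section five

variable {A B : Type*} [AddCommGroup A] [AddCommGroup B] [Module ℚ B]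

/-- the alternating sum over the five points `p_i = -2 q_i` -/
def S5 (C : A → A → A → A → B) (a b c d e : A) : B :=
  C (-(b + b) - a) (-(c + c) - a) (-(d + d) - a) (-(e + e) - a)
  - C (-(a + a) - b) (-(c + c) - b) (-(d + d) - b) (-(e + e) - b)
  + C (-(a + a) - c) (-(b + b) - c) (-(d + d) - c) (-(e + e) - c)
  - C (-(a + a) - d) (-(b + b) - d) (-(c + c) - d) (-(e + e) - d)
  + C (-(a + a) - e) (-(b + b) - e) (-(c + c) - e) (-(d + d) - e)

variable {C : A → A → A → A → B} (s12 : ∀ a b c d, C b a c d = - C a b c d)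
  (s23 : ∀ a b c d, C a c b d = - C a b c d) (s34 : ∀ a b c d, C a b d c = - C a b c d)
include s12 s23 s34

lemma S5_12 (a b c d e : A) : S5 C b a c d e = - S5 C a b c d e := by
  unfold S5
  rw [s12 (-(a + a) - c) (-(b + b) - c), s12 (-(a + a) - d) (-(b + b) - d),
    s12 (-(a + a) - e) (-(b + b) - e)]
  abel

lemma S5_23 (a b c d e : A) : S5 C a c b d e = - S5 C a b c d e := by
  unfold S5
  rw [s12 (-(b + b) - a) (-(c + c) - a), s23 _ (-(b + b) - d) (-(c + c) - d),
    s23 _ (-(b + b) - e) (-(c + c) - e)]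
  abel

lemma S5_34 (a b c d e : A) : S5 C a b d c e = - S5 C a b c d e := by
  unfold S5
  rw [s23 _ (-(c + c) - a) (-(d + d) - a), s23 _ (-(c + c) - b) (-(d + d) - b),
    s34 _ _ (-(c + c) - e) (-(d + d) - e)]
  abel

lemma S5_45 (a b c d e : A) : S5 C a b c e d = - S5 C a b c d e := by
  unfold S5
  rw [s34 _ _ (-(d + d) - a) (-(e + e) - a), s34 _ _ (-(d + d) - b) (-(e + e) - b),
    s34 _ _ (-(d + d) - c) (-(e + e) - c)]
  abel

lemma S5_aa (a c d e : A) : S5 C a a c d e = 0 :=
  eq_zero_of_neg (S5_12 s12 s23 s34 a a c d e)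

lemma S5_bb (a b d e : A) : S5 C a b b d e = 0 :=
  eq_zero_of_neg (S5_23 s12 s23 s34 a b b d e)

lemma S5_cc (a b c e : A) : S5 C a b c c e = 0 :=
  eq_zero_of_neg (S5_34 s12 s23 s34 a b c c e)

lemma S5_dd (a b c d : A) : S5 C a b c d d = 0 :=
  eq_zero_of_neg (S5_45 s12 s23 s34 a b c d d)

lemma S5_of_eq (a b c d e : A) (h : ¬ Dist5 a b c d e) : S5 C a b c d e = 0 := by
  have h12 := S5_12 s12 s23 s34
  have h23 := S5_23 s12 s23 s34
  have h34 := S5_34 s12 s23 s34
  have h45 := S5_45 s12 s23 s34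
  by_cases hab : a = b
  · subst hab; exact S5_aa s12 s23 s34 _ _ _ _
  by_cases hbc : b = c
  · subst hbc; exact S5_bb s12 s23 s34 _ _ _ _
  by_cases hcd : c = d
  · subst hcd; exact S5_cc s12 s23 s34 _ _ _ _
  by_cases hde : d = e
  · subst hde; exact S5_dd s12 s23 s34 _ _ _ _
  by_cases hac : a = c
  · subst hac
    rw [← neg_neg (S5 C a b a d e), ← h23, S5_aa s12 s23 s34, neg_zero]
  by_cases hbd : b = d
  · subst hbd
    rw [← neg_neg (S5 C a b c b e), ← h34, S5_bb s12 s23 s34, neg_zero]
  by_cases hce : c = e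
  · subst hce
    rw [← neg_neg (S5 C a b c d c), ← h45, S5_cc s12 s23 s34, neg_zero]
  by_cases had : a = d
  · subst had
    rw [← neg_neg (S5 C a b c a e), ← h34, ← h23, S5_aa s12 s23 s34]
  by_cases hbe : b = e
  · subst hbe
    rw [← neg_neg (S5 C a b c d b), ← h45, ← h34, S5_bb s12 s23 s34]
  by_cases hae : a = e
  · subst hae
    rw [← neg_neg (S5 C a b c d a), ← h45, ← h34, ← neg_neg (S5 C a b a c d), ← h23,
      S5_aa s12 s23 s34, neg_zero]
  exact absurd ⟨hab, hac, had, hae, hbc, hbd, hbe, hcd, hce, hde⟩ h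

end five

lemma CA_isC [CharZero F] [Finite A] (hP : PencilStatement W)
    (h2 : Function.Injective fun a : A => a + a) : IsC (CA A) := by
  have hinf : Infinite F := inferInstance
  have s12 : ∀ a b c d : A, CA A b a c d = - CA A a b c d := fun a b c d =>
    cr_swap_ab dx_bracket _ _ _ _
  have s23 : ∀ a b c d : A, CA A a c b d = - CA A a b c d := fun a b c d =>
    cr_swap_bc _ _ _ _
  have s34 : ∀ a b c d : A, CA A a b d c = - CA A a b c d := fun a b c d =>
    cr_swap_cd dx_bracket _ _ _ _
  refine ⟨s12, s23, s34, ?_, ?_, ?_⟩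
  · intro a b c d
    unfold CA cr
    rw [AddSubgroup.coe_neg, dx_neg, dx_neg]
  · intro a b c d e
    exact coc_eq_zero dx_nbracket (a : W.Point) b c d e
  · intro q p hp
    have e : CA A (p 1 - q 0) (p 2 - q 0) (p 3 - q 0) (p 4 - q 0)
      - CA A (p 0 - q 1) (p 2 - q 1) (p 3 - q 1) (p 4 - q 1)
      + CA A (p 0 - q 2) (p 1 - q 2) (p 3 - q 2) (p 4 - q 2)
      - CA A (p 0 - q 3) (p 1 - q 3) (p 2 - q 3) (p 4 - q 3)
      + CA A (p 0 - q 4) (p 1 - q 4) (p 2 - q 4) (p 3 - q 4) =
        S5 (CA A) (q 0) (q 1) (q 2) (q 3) (q 4) := by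
      unfold S5
      simp only [hp]
    by_cases hd : Dist5 (q 0) (q 1) (q 2) (q 3) (q 4)
    · have hne : ∀ i j, q i ≠ q j → p i ≠ p j := by
        intro i j hij h
        apply hij
        apply h2
        rw [hp, hp] at h
        exact neg_injective h
      obtain ⟨h1, h2', h3, h4, h5, h6, h7, h8, h9, h10⟩ := hd
      have hdp : Dist5 (p 0) (p 1) (p 2) (p 3) (p 4) :=
        ⟨hne _ _ h1, hne _ _ h2', hne _ _ h3, hne _ _ h4, hne _ _ h5, hne _ _ h6, hne _ _ h7,
          hne _ _ h8, hne _ _ h9, hne _ _ h10⟩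
      have key := pl5_eq_zero (dA_ntbracket hP h2) hdp
      obtain ⟨g1, g2, g3, g4, g5, g6, g7, g8, g9, g10⟩ := hdp
      unfold pl5 at key
      rw [cr_dA hP h2 (hp 0) g1 g2 g3 g4, cr_dA hP h2 (hp 1) g1.symm g5 g6 g7,
        cr_dA hP h2 (hp 2) g2.symm g5.symm g8 g9, cr_dA hP h2 (hp 3) g3.symm g6.symm g8.symm g10,
        cr_dA hP h2 (hp 4) g4.symm g7.symm g9.symm g10.symm] at key
      exact key
    · rw [e]
      exact S5_of_eq s12 s23 s34 _ _ _ _ _ hd

end Asm

end K4M
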