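import Pool.Agent.Lib_helper86.K4.S2
import Pool.Agent.Lib_helper24.K4D2.Induct

/-!
From finite groups to torsion groups: parity, the four term relation and D1 on a torsion group all
of whose `n`-torsion subgroups are finite.
-/

set_option linter.unusedSectionVars false

namespace K4M

open Finset Pool.Agent.K4ParP

section Bri

variable {T B G H : Type*} [AddCommGroup T] [AddCommGroup B] [Module ℚ B]
  [AddCommGroup G] [Module ℚ G] [AddCommGroup H] [Module ℚ H]

/-- the `n`-torsion subgroup -/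
abbrev torS (T : Type*) [AddCommGroup T] (n : ℕ) : AddSubgroup T := Pool.Agent.K4D2.tor T n

lemma mem_torS {n : ℕ} {x : T} : x ∈ torS T n ↔ n • x = 0 := Pool.Agent.K4D2.mem_tor

/-- a torsion group with finite torsion subgroups -/
structure LF (T : Type*) [AddCommGroup T] : Prop where
  tor : ∀ x : T, ∃ n : ℕ, 0 < n ∧ n • x = 0
  fin : ∀ n : ℕ, 0 < n → Finite (torS T n)

lemma LF.two (h : LF T) (a b : T) : ∃ n : ℕ, 0 < n ∧ n • a = 0 ∧ n • b = 0 := by
  obtain ⟨p, hp, ha⟩ := h.tor a
  obtain ⟨q, hq, hb⟩ := h.tor b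
  refine ⟨p * q, Nat.mul_pos hp hq, ?_, ?_⟩
  · rw [mul_comm, mul_smul, ha, smul_zero]
  · rw [mul_smul, hb, smul_zero]

lemma LF.three (h : LF T) (a b c : T) : ∃ n : ℕ, 0 < n ∧ n • a = 0 ∧ n • b = 0 ∧ n • c = 0 := by
  obtain ⟨p, hp, ha, hb⟩ := h.two a b
  obtain ⟨q, hq, hc⟩ := h.tor c
  refine ⟨p * q, Nat.mul_pos hp hq, ?_, ?_, ?_⟩
  · rw [mul_comm, mul_smul, ha, smul_zero]
  · rw [mul_comm, mul_smul, hb, smul_zero]
  · rw [mul_smul, hc, smul_zero]

variable {m : B →ₗ[ℚ] G →ₗ[ℚ] H} {t : T → T → B} {g : T → G}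

section restr

variable (S : AddSubgroup T)

lemma isT_restr (ht : IsT t) : IsT (fun a b : S => t a b) where
  swap _ _ := ht.swap _ _
  rot _ _ := ht.rot _ _
  even _ _ := ht.even _ _

lemma isG_restr (hg : IsG g) : IsG (fun a : S => g a) := fun _ => hg _

lemma rel_restr (ht : IsT t) (hr : ∀ P, Rel m t g P) (P : S) :
    Rel m (fun a b : S => t a b) (fun a : S => g a) P := by
  intro a b c d _ _ _ _ _ _ _ _ _ _ _ _
  exact rel_all ht (hr P) (a : T) b c d

end restr

theorem par_T (hT : LF T) (ht : IsT t) (hg : IsG g) (hr : ∀ P, Rel m t g P) (a b : T) :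
    xi m t g a (-b) = - xi m t g a b := by
  obtain ⟨n, hn, ha, hb⟩ := hT.two a b
  have := hT.fin n hn
  have := Fintype.ofFinite (torS T n)
  exact parity (m := m) (isT_restr (torS T n) ht) (isG_restr (torS T n) hg)
    (rel_restr (torS T n) ht hr) ⟨a, mem_torS.mpr ha⟩ ⟨b, mem_torS.mpr hb⟩

theorem r4_T (hT : LF T) (ht : IsT t) (hg : IsG g) (hr : ∀ P, Rel m t g P) (e q s : T) :
    Pool.Agent.K4D2.R4v m t g e q s = 0 := by
  obtain ⟨n, hn, ha, hb, hc⟩ := hT.three e q s
  have := hT.fin n hn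
  have := Fintype.ofFinite (torS T n)
  exact R4' (m := m) (isT_restr (torS T n) ht) (isG_restr (torS T n) hg)
    (rel_restr (torS T n) ht hr) ⟨e, mem_torS.mpr ha⟩ ⟨q, mem_torS.mpr hb⟩ ⟨s, mem_torS.mpr hc⟩

/-- sums over the `k`-torsion of a subgroup containing it -/
lemma sum_torS {V : Type*} [AddCommMonoid V] {k : ℕ} [Fintype (torS T k)] (S : AddSubgroup T)
    [Fintype S] [DecidableEq S] (hS : torS T k ≤ S) (f : T → V) :
    ∑ i ∈ tors S k, f i = ∑ i : torS T k, f i := by
  refine Finset.sum_bij' (fun i hi => (⟨(i : T), ?_⟩ : torS T k))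
    (fun i _ => (⟨(i : T), hS i.2⟩ : S)) ?_ ?_ ?_ ?_ ?_
  · have := mem_tors.mp hi
    have h := congrArg (fun z : S => (z : T)) this
    rw [mem_torS]
    simpa using h
  · intro i hi; exact Finset.mem_univ _
  · intro i _
    rw [mem_tors]
    apply Subtype.ext
    have := mem_torS.mp i.2
    simpa using this
  · intro i hi; rfl
  · intro i hi; rfl
  · intro i hi; rfl

theorem d1_T (hT : LF T) (ht : IsT t) (hg : IsG g) (hr : ∀ P, Rel m t g P) {k : ℕ}
    [Fintype (torS T k)] {c e : G}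
    (hd : ∀ a, ∑ i : torS T k, g (a + i) = g (k • a) + c +
      open Classical in (if k • a = 0 then e else 0))
    (hdt : ∀ a b, ∑ i : torS T k, ∑ j : torS T k, t (a + i) (b + j) = t (k • a) (k • b))
    (hk : 0 < k) (a b : T) :
    ∑ i : torS T k, ∑ j : torS T k, xi m t g (a + i) (b + j) =
      ((Fintype.card (torS T k) : ℕ) : ℚ)⁻¹ • xi m t g (k • a) (k • b) := by
  classical
  obtain ⟨n, hn, ha, hb⟩ := hT.two a b
  have := hT.fin (k * n) (Nat.mul_pos hk hn)
  have := Fintype.ofFinite (torS T (k * n))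
  set S := torS T (k * n) with hSdef
  have hS : torS T k ≤ S := by
    intro x hx
    rw [mem_torS] at hx
    rw [hSdef, mem_torS, mul_comm, mul_smul, hx, smul_zero]
  have haS : a ∈ S := by rw [hSdef, mem_torS, mul_smul, ha, smul_zero]
  have hbS : b ∈ S := by rw [hSdef, mem_torS, mul_smul, hb, smul_zero]
  have hDG : DG (fun a : S => g a) k c e := by
    intro x
    have h1 := sum_torS S hS (fun i => g ((x : T) + i))
    have h2 := hd (x : T)
    have h3 : (k • (x : T) = 0) ↔ (k • x = 0) := by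
      rw [← AddSubgroup.coe_nsmul]
      exact ⟨fun h => Subtype.ext h, fun h => by rw [h]; rfl⟩
    simp only [h3] at h2
    rw [h2] at h1
    exact h1
  have hdt' : ∀ a b : S, ∑ i ∈ tors S k, ∑ j ∈ tors S k, t ((a + i : S) : T) ((b + j : S) : T) =
      t ((k • a : S) : T) ((k • b : S) : T) := by
    intro x y
    have h2 := hdt (x : T) (y : T)
    rw [AddSubgroup.coe_nsmul, AddSubgroup.coe_nsmul, ← h2,
      ← sum_torS S hS (fun i => ∑ j : torS T k, t ((x : T) + i) ((y : T) + j))]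
    refine Finset.sum_congr rfl fun i _ => ?_
    exact sum_torS S hS (fun j => t ((x : T) + i) ((y : T) + j))
  have key := D1 (m := m) (isT_restr S ht) (isG_restr S hg) (rel_restr S ht hr) hDG hdt'
    ⟨a, haS⟩ ⟨b, hbS⟩
  have hcard : (tors S k).card = Fintype.card (torS T k) := by
    have := sum_torS (V := ℕ) S hS (fun _ => 1)
    simpa using this
  rw [hcard] at key
  have e1 := sum_torS S hS (fun i => ∑ j : torS T k, xi m t g (a + i) (b + j))
  rw [← e1]
  refine Eq.trans ?_ key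
  refine Finset.sum_congr rfl fun i _ => ?_
  exact (sum_torS S hS (fun j => xi m t g (a + i) (b + j))).symm

end Bri

end K4M
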