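import Mathlib

/-!
The rational pre-Bloch group `B₂(F)` of a field: `ℚ[F]` modulo `{0} = {1} = 0` and the five term
relation, with the inversion relations and the cross ratio symbol on `ℙ¹(F)`.
-/

open scoped TensorProduct

namespace K4M

section Bloch

variable (F : Type*) [Field F]

/-- the basis symbol in `ℚ[F]` -/
noncomputable abbrev bs {F : Type*} (x : F) : F →₀ ℚ := Finsupp.single x 1

/-- the five term combination of `x` and `y` -/
noncomputable def fiveTerm (x y : F) : F →₀ ℚ :=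
  bs x - bs y + bs (y / x) - bs ((1 - x⁻¹) / (1 - y⁻¹)) + bs ((1 - x) / (1 - y))

/-- the relations of `B₂(F)` : the symbols of `0` and `1` vanish, and the five term relation -/
def blochRel : Set (F →₀ ℚ) :=
  {z | z = bs 0 ∨ z = bs 1 ∨
    ∃ x y : F, x ≠ 0 ∧ x ≠ 1 ∧ y ≠ 0 ∧ y ≠ 1 ∧ x ≠ y ∧ z = fiveTerm F x y}

/-- `B₂(F)`, the pre-Bloch group of `F` tensored with `ℚ` -/
abbrev B2 : Type _ := (F →₀ ℚ) ⧸ Submodule.span ℚ (blochRel F)

variable {F}

/-- the class `{x}₂` -/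
noncomputable def sy (x : F) : B2 F := Submodule.Quotient.mk (bs x)

lemma sy_zero : sy (0 : F) = 0 := by
  rw [sy, Submodule.Quotient.mk_eq_zero]
  exact Submodule.subset_span (Or.inl rfl)

lemma sy_one : sy (1 : F) = 0 := by
  rw [sy, Submodule.Quotient.mk_eq_zero]
  exact Submodule.subset_span (Or.inr (Or.inl rfl))

lemma five {x y : F} (hx0 : x ≠ 0) (hx1 : x ≠ 1) (hy0 : y ≠ 0) (hy1 : y ≠ 1) (hxy : x ≠ y) :
    sy x - sy y + sy (y / x) - sy ((1 - x⁻¹) / (1 - y⁻¹)) + sy ((1 - x) / (1 - y)) = 0 := by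
  have h : (Submodule.Quotient.mk (fiveTerm F x y) : B2 F) = 0 := by
    rw [Submodule.Quotient.mk_eq_zero]
    exact Submodule.subset_span (Or.inr (Or.inr ⟨x, y, hx0, hx1, hy0, hy1, hxy, rfl⟩))
  simp only [fiveTerm, Submodule.Quotient.mk_sub, Submodule.Quotient.mk_add] at h
  exact h

/-- `s z = {z} + {1/z}` -/
noncomputable def sInv (z : F) : B2 F := sy z + sy z⁻¹

lemma sInv_inv (z : F) : sInv z⁻¹ = sInv z := by
  unfold sInv; rw [inv_inv, add_comm]

lemma sInv_mul {z v : F} (hz0 : z ≠ 0) (hz1 : z ≠ 1) (hv0 : v ≠ 0) (hv1 : v ≠ 1)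
    (hzv : z * v ≠ 1) : sInv (z * v) = sInv z + sInv v := by
  have hd : (1 - v * z) ≠ 0 := fun h => hzv (by rw [mul_comm]; exact (sub_eq_zero.mp h).symm)
  have h1v : (1 - v) ≠ 0 := sub_ne_zero.mpr (Ne.symm hv1)
  have h1z : (1 - z) ≠ 0 := sub_ne_zero.mpr (Ne.symm hz1)
  set x : F := (1 - v) / (1 - v * z) with hx
  set y : F := z * (1 - v) / (1 - v * z) with hy
  have hx0 : x ≠ 0 := div_ne_zero h1v hd
  have hy0 : y ≠ 0 := div_ne_zero (mul_ne_zero hz0 h1v) hd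
  have e1x : 1 - x = v * (1 - z) / (1 - v * z) := by rw [hx]; field_simp; ring
  have e1y : 1 - y = (1 - z) / (1 - v * z) := by rw [hy]; field_simp; ring
  have hx1' : 1 - x ≠ 0 := by rw [e1x]; exact div_ne_zero (mul_ne_zero hv0 h1z) hd
  have hy1' : 1 - y ≠ 0 := by rw [e1y]; exact div_ne_zero h1z hd
  have hx1 : x ≠ 1 := fun h => hx1' (by rw [h, sub_self])
  have hy1 : y ≠ 1 := fun h => hy1' (by rw [h, sub_self])
  have hyx : y / x = z := by rw [hy, hx]; field_simp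
  have hxy : x ≠ y := by
    intro h
    rw [← h, div_self hx0] at hyx
    exact hz1 hyx.symm
  have hv : (1 - x) / (1 - y) = v := by rw [e1x, e1y]; field_simp
  have hu : (1 - x⁻¹) / (1 - y⁻¹) = z * v := by
    have : (1 - x⁻¹) / (1 - y⁻¹) = ((1 - x) / (1 - y)) * (y / x) := by
      have a1 : (1 - x⁻¹) = -(1 - x) / x := by field_simp; ring
      have a2 : (1 - y⁻¹) = -(1 - y) / y := by field_simp; ring
      rw [a1, a2]; field_simp
    rw [this, hv, hyx, mul_comm]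
  have r1 := five hx0 hx1 hy0 hy1 hxy
  have r2 := five hy0 hy1 hx0 hx1 (Ne.symm hxy)
  rw [hyx, hv, hu] at r1
  have hyx' : x / y = z⁻¹ := by rw [← hyx, inv_div]
  have hv' : (1 - y) / (1 - x) = v⁻¹ := by rw [← hv, inv_div]
  have hu' : (1 - y⁻¹) / (1 - x⁻¹) = (z * v)⁻¹ := by
    have := congrArg (·⁻¹) hu
    simp only [inv_div] at this
    exact this
  rw [hyx', hv', hu'] at r2
  have hsum : sInv z - sInv (z * v) + sInv v = 0 := by
    unfold sInv
    calc _ = (sy x - sy y + sy z - sy (z * v) + sy v) +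
        (sy y - sy x + sy z⁻¹ - sy (z * v)⁻¹ + sy v⁻¹) := by abel
      _ = 0 := by rw [r1, r2, add_zero]
  have h3 : sInv (z * v) = sInv z + sInv v - (sInv z - sInv (z * v) + sInv v) := by abel
  rw [h3, hsum, sub_zero]

lemma sInv_eq_zero [Infinite F] {w : F} (hw0 : w ≠ 0) (hw1 : w ≠ 1) : sInv w = 0 := by
  classical
  obtain ⟨z, hz⟩ : ∃ z : F, z ∉ ({0, 1, w⁻¹} : Finset F) := Infinite.exists_notMem_finset _
  simp only [Finset.mem_insert, Finset.mem_singleton, not_or] at hz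
  obtain ⟨hz0, hz1, hzw⟩ := hz
  have hzw1 : z * w ≠ 1 := fun h => hzw (eq_inv_of_mul_eq_one_left h)
  have e1 := sInv_mul hz0 hz1 hw0 hw1 hzw1
  have e2 : sInv (z * w * w⁻¹) = sInv (z * w) + sInv w⁻¹ :=
    sInv_mul (mul_ne_zero hz0 hw0) hzw1 (inv_ne_zero hw0) (by simpa using hw1)
      (by rw [mul_assoc, mul_inv_cancel₀ hw0, mul_one]; exact hz1)
  rw [mul_assoc, mul_inv_cancel₀ hw0, mul_one, sInv_inv, e1] at e2
  have h2 : (2 : ℚ) • sInv w = 0 := by
    rw [two_smul]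
    have : sInv z + (sInv w + sInv w) = sInv z + 0 := by rw [add_zero, ← add_assoc]; exact e2.symm
    exact add_left_cancel this
  exact (smul_eq_zero.mp h2).resolve_left two_ne_zero

lemma sy_inv [Infinite F] (w : F) : sy w⁻¹ = - sy w := by
  rcases eq_or_ne w 0 with rfl | h0
  · rw [inv_zero, sy_zero, neg_zero]
  rcases eq_or_ne w 1 with rfl | h1
  · rw [inv_one, sy_one, neg_zero]
  have := sInv_eq_zero h0 h1
  unfold sInv at this
  exact eq_neg_of_add_eq_zero_right this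

lemma sy_compl_const [Infinite F] {x y : F} (hx0 : x ≠ 0) (hx1 : x ≠ 1) (hy0 : y ≠ 0)
    (hy1 : y ≠ 1) : sy x + sy (1 - x) = sy y + sy (1 - y) := by
  rcases eq_or_ne x y with rfl | hxy
  · rfl
  have hx1' : 1 - x ≠ 0 := sub_ne_zero.mpr (Ne.symm hx1)
  have hy1' : 1 - y ≠ 0 := sub_ne_zero.mpr (Ne.symm hy1)
  have r1 := five hx0 hx1 hy0 hy1 hxy
  have r2 := five (x := 1 - y) (y := 1 - x) hy1' (by simpa using hy0) hx1' (by simpa using hx0)
    (by intro h; exact hxy (by linear_combination h))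
  have e1 : (1 - (1 - y)⁻¹) / (1 - (1 - x)⁻¹) = (1 - x⁻¹) / (1 - y⁻¹) := by
    have a1 : (1 - x⁻¹) = -(1 - x) / x := by field_simp; ring
    have a2 : (1 - y⁻¹) = -(1 - y) / y := by field_simp; ring
    have a3 : (1 - (1 - y)⁻¹) = -y / (1 - y) := by field_simp; ring
    have a4 : (1 - (1 - x)⁻¹) = -x / (1 - x) := by field_simp; ring
    rw [a1, a2, a3, a4]; field_simp
  have e2 : (1 - (1 - y)) / (1 - (1 - x)) = y / x := by ring_nf
  rw [e1, e2] at r2
  have h : sy x + sy (1 - x) = sy y + sy (1 - y) +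
    ((sy x - sy y + sy (y / x) - sy ((1 - x⁻¹) / (1 - y⁻¹)) + sy ((1 - x) / (1 - y))) -
     (sy (1 - y) - sy (1 - x) + sy ((1 - x) / (1 - y)) - sy ((1 - x⁻¹) / (1 - y⁻¹)) +
      sy (y / x))) := by abel
  rw [h, r1, r2, sub_zero, add_zero]

lemma sy_compl [Infinite F] (w : F) : sy (1 - w) = - sy w := by
  rcases eq_or_ne w 0 with rfl | h0
  · rw [sub_zero, sy_zero, sy_one, neg_zero]
  rcases eq_or_ne w 1 with rfl | h1
  · rw [sub_self, sy_zero, sy_one, neg_zero]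
  have h1' : 1 - w ≠ 0 := sub_ne_zero.mpr (Ne.symm h1)
  have hi1 : w⁻¹ ≠ 1 := by simpa using h1
  have hj0 : (1 - w)⁻¹ ≠ 0 := inv_ne_zero h1'
  have hj1 : (1 - w)⁻¹ ≠ 1 := by simpa using h0
  have c1 := sy_compl_const h0 h1 (inv_ne_zero h0) hi1
  have c2 := sy_compl_const h0 h1 hj0 hj1
  have e1 : (1 - w⁻¹) = (-(w / (1 - w)))⁻¹ := by field_simp; ring
  have e2 : (1 - (1 - w)⁻¹) = -(w / (1 - w)) := by field_simp; ring
  rw [e1, sy_inv, sy_inv] at c1
  rw [e2, sy_inv] at c2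
  have h3 : (3 : ℚ) • (sy w + sy (1 - w)) = 0 := by
    have : (3 : ℚ) • (sy w + sy (1 - w)) = (sy w + sy (1 - w)) + (sy w + sy (1 - w)) +
        (sy w + sy (1 - w)) := by module
    rw [this]
    nth_rewrite 2 [c1]
    nth_rewrite 2 [c2]
    abel
  have h4 := (smul_eq_zero.mp h3).resolve_left (by norm_num)
  exact eq_neg_of_add_eq_zero_right h4

end Bloch

end K4M
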