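import Pool.Agent.Lib_helper60.K4M.DivSeq
import Pool.Agent.Lib_helper60.K4M.SiegelAll

/-!
Multiples of a point: `g(ma) = m² g(a) + [Ψ_m(a)]`.
-/

set_option linter.unusedSectionVars false

namespace K4M

open WeierstrassCurve.Affine Polynomial

section Dg1

variable {F : Type*} [Field F] [DecidableEq F] {W : WeierstrassCurve.Affine F}
  {A : AddSubgroup W.Point}

lemma xc_coe_ne {a b : W.Point} (ha : a ≠ 0) (hb : b ≠ 0) : dx a b = xc a - xc b := by
  unfold dx
  rw [xv_of_ne ha, xv_of_ne hb]; ring

theorem g_mul [Finite A] {g : A → FT F} (hg : IsG4 A g) {a : A} {M : ℕ}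
    (hG : Good (a : W.Point) M) :
    ∀ m, m ≤ M → g (m • a) = (m : ℚ) ^ 2 • g a + lg (un (a : W.Point) m) := by
  intro m
  induction m using Nat.strong_induction_on with
  | _ m ih =>
    intro hm
    rcases Nat.lt_or_ge m 3 with h | h
    · interval_cases m
      · rw [zero_smul, hg.zero, un_zero, lg_zero]; simp
      · rw [one_smul, un_one, lg_one]; simp
      · rw [un_two, two_nsmul]
        obtain ⟨h1, h2, h3⟩ := ps_mul_ne hG (by omega)
        have e := hg a
        have : pc (a : W.Point) = ps (a : W.Point) := by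
          unfold pc; rw [if_neg h2]
        rw [this] at e
        rw [← e]
        push_cast
        module
    · obtain ⟨n, rfl⟩ : ∃ n, m = (n + 1) + 2 := ⟨m - 3, by omega⟩
      have i1 := ih (n + 2) (by omega) (by omega)
      have i2 := ih (n + 1) (by omega) (by omega)
      obtain ⟨n1, n2⟩ := mul_ne_pm hG (n := n + 2) (by omega) (by omega)
      have hP1 : (a : W.Point) ≠ 0 := by simpa using hG 1 le_rfl (by omega)
      have hc : (((n + 2) • a : A) : W.Point) = (n + 2) • (a : W.Point) := by simp
      have ne1 : (n + 2) • a ≠ a := by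
        intro h'
        apply n1; rw [← hc, h']
      have ne2 : (n + 2) • a ≠ -a := by
        intro h'
        apply n2; rw [← hc, h']; simp
      have e := siegel_rel hg ne1 ne2
      have a1 : (n + 2) • a + a = (n + 1 + 2) • a := by
        rw [show n + 1 + 2 = (n + 2) + 1 by ring, add_smul (n + 2) 1, one_smul]
      have a2 : (n + 2) • a - a = (n + 1) • a := by
        rw [show n + 2 = (n + 1) + 1 by ring, add_smul (n + 1) 1, one_smul]; abel
      rw [a1, a2, hc, xc_coe_ne (hG (n + 2) (by omega) (by omega)) hP1] at e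
      have hx := x_sub hG (n + 1) (by omega)
      rw [show n + 1 + 1 = n + 2 by ring] at hx
      have u1 := un_ne hG (n := n + 2) (by omega) (by omega)
      have u2 := un_ne hG (n := n + 1) (by omega) (by omega)
      have u3 := un_ne hG (n := n + 1 + 2) (by omega) (by omega)
      have hxne : xc ((n + 2) • (a : W.Point)) - xc (a : W.Point) ≠ 0 := by
        intro h0
        have h0' : xc (a : W.Point) - xc ((n + 2) • (a : W.Point)) = 0 := by
          linear_combination -h0
        rw [h0', zero_mul] at hx
        exact mul_ne_zero u3 u2 hx.symm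
      have hl : lg (xc ((n + 2) • (a : W.Point)) - xc (a : W.Point)) =
          lg (un (a : W.Point) (n + 1 + 2)) + lg (un (a : W.Point) (n + 1)) -
          (2 : ℚ) • lg (un (a : W.Point) (n + 2)) := by
        rw [← lg_neg, neg_sub, eq_sub_iff_add_eq, ← lg_mul u3 u2, ← hx,
          lg_mul (by rw [← neg_sub]; exact neg_ne_zero.mpr hxne) (pow_ne_zero 2 u1), lg_pow u1]
        push_cast; rfl
      rw [hl, i1, i2] at e
      have e' : g ((n + 1 + 2) • a) = lg (un (a : W.Point) (n + 1 + 2)) +
          lg (un (a : W.Point) (n + 1)) - (2 : ℚ) • lg (un (a : W.Point) (n + 2)) -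
          (((n + 1 : ℕ) : ℚ) ^ 2 • g a + lg (un (a : W.Point) (n + 1))) +
          (2 : ℚ) • (((n + 2 : ℕ) : ℚ) ^ 2 • g a + lg (un (a : W.Point) (n + 2))) +
          (2 : ℚ) • g a := by
        rw [e]; abel
      rw [e']
      push_cast
      module

end Dg1

end K4M
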