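import Pool.Agent.Lib_helper60.K4M.Dg1

/-!
The roots of the division polynomials of prime level.
-/

set_option linter.unusedSectionVars false

namespace K4M

open WeierstrassCurve.Affine Polynomial

section Poly

variable {F : Type*} [Field F]

/-- a polynomial whose degree is the number of its known roots -/
lemma eval_of_roots {p : F[X]} (X : Finset F) (hX : ∀ x ∈ X, p.eval x = 0)
    (hd : p.natDegree = X.card) (y : F) :
    p.eval y = p.leadingCoeff * ∏ x ∈ X, (y - x) := by
  classical
  rcases eq_or_ne p 0 with rfl | hp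
  · simp
  have hle : X.val ≤ p.roots := by
    rw [Multiset.le_iff_subset X.nodup]
    intro x hx
    rw [mem_roots hp]
    exact hX x hx
  have hc : p.roots.card ≤ p.natDegree := card_roots' p
  have heq : X.val = p.roots := Multiset.eq_of_le_of_card_le hle (by rw [← Finset.card_def, ← hd]; exact hc)
  have hcard : p.roots.card = p.natDegree := by rw [← heq, hd]; rfl
  have e := C_leadingCoeff_mul_prod_multiset_X_sub_C hcard
  rw [← heq] at e
  conv_lhs => rw [← e]
  rw [eval_mul, eval_C, eval_multiset_prod, Multiset.map_map]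
  congr 1
  rw [Finset.prod]
  congr 1
  apply Multiset.map_congr rfl
  intro x hx
  simp

lemma card_le_of_roots {p : F[X]} (hp : p ≠ 0) (X : Finset F) (hX : ∀ x ∈ X, p.eval x = 0) :
    X.card ≤ p.natDegree := by
  classical
  have hle : X.val ≤ p.roots := by
    rw [Multiset.le_iff_subset X.nodup]
    intro x hx
    rw [mem_roots hp]
    exact hX x hx
  exact le_trans (Multiset.card_le_card hle) (card_roots' p)

end Poly

section Dg2

variable {F : Type*} [Field F] [DecidableEq F] {W : WeierstrassCurve.Affine F}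
  {A : AddSubgroup W.Point}

/-- the elements of `A` killed by `k` -/
noncomputable def tors (A : Type*) [AddCommGroup A] [Fintype A] (k : ℕ) : Finset A := by
  classical exact Finset.univ.filter (fun i : A => k • i = 0)

lemma mem_tors {A : Type*} [AddCommGroup A] [Fintype A] {k : ℕ} {i : A} :
    i ∈ tors A k ↔ k • i = 0 := by
  classical
  unfold tors
  rw [Finset.mem_filter]
  exact ⟨fun h => h.2, fun h => ⟨Finset.mem_univ _, h⟩⟩

lemma zero_mem_tors {A : Type*} [AddCommGroup A] [Fintype A] (k : ℕ) : (0 : A) ∈ tors A k := by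
  rw [mem_tors, smul_zero]

lemma xc_inj {a b : W.Point} (ha : a ≠ 0) (hb : b ≠ 0) (h : xc a = xc b) : a = b ∨ a = -b := by
  have : dx a b = 0 := by rw [xc_coe_ne ha hb, h, sub_self]
  exact dx_eq_zero_iff.mp this

lemma xc_neg (a : W.Point) : xc (-a) = xc a := by unfold xc; rw [xv_neg']

/-- a nonzero point killed by a prime `l` is good below `l` -/
lemma good_of_prime {l : ℕ} (hl : l.Prime) {P : W.Point} (hP : P ≠ 0) (h : l • P = 0) :
    Good P (l - 1) := by
  intro m h1 h2 hm
  have hd1 : addOrderOf P ∣ l := addOrderOf_dvd_of_nsmul_eq_zero h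
  have hd2 : addOrderOf P ∣ m := addOrderOf_dvd_of_nsmul_eq_zero hm
  rcases (Nat.dvd_prime hl).mp hd1 with h3 | h3
  · exact hP (AddMonoid.addOrderOf_eq_one_iff.mp h3)
  · rw [h3] at hd2
    have := Nat.le_of_dvd (by omega) hd2
    have := hl.two_le
    omega

lemma Psi2Sq_eval {P : W.Point} (hP : P ≠ 0) :
    (WeierstrassCurve.Ψ₂Sq W).eval (xc P) = ps P ^ 2 := by
  rcases P with _ | ⟨x, y, h⟩
  · exact absurd rfl hP
  have e1 := (equation_iff' x y).mp h.1
  simp only [ps, xc, xv, WeierstrassCurve.Ψ₂Sq, eval_add, eval_mul, eval_pow, eval_C, eval_X,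
    eval_ofNat, WeierstrassCurve.b₂, WeierstrassCurve.b₄, WeierstrassCurve.b₆]
  linear_combination (-4) * e1

/-- the polynomial attached to a prime: `Ψ₂²` for `2`, `ψ_l` for `l` odd -/
noncomputable def pl (W : WeierstrassCurve.Affine F) (l : ℕ) : F[X] :=
  if Even l then WeierstrassCurve.Ψ₂Sq W else WeierstrassCurve.preΨ' W l

lemma pl_root {l : ℕ} (hl : l.Prime) {P : W.Point} (hP : P ≠ 0) (h : l • P = 0) :
    (pl W l).eval (xc P) = 0 := by
  unfold pl
  have hG := good_of_prime hl hP h
  have h2 := hl.two_le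
  split_ifs with he
  · have : l = 2 := (hl.even_iff).mp he
    subst this
    rw [Psi2Sq_eval hP, (ps_eq_zero_iff hP).mpr (by rw [← two_nsmul]; exact h)]
    ring
  · have h0 : ((l - 1) + 1) • P = 0 := by rw [show l - 1 + 1 = l by omega]; exact h
    have := un_order (by omega : 1 ≤ l - 1) hG h0
    rw [show l - 1 + 1 = l by omega] at this
    unfold un at this
    rw [if_neg he, mul_one] at this
    exact this

end Dg2

end K4M
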