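import Pool.Agent.Lib_helper60.K4M.Dg2

/-!
The division polynomial of prime level is the product over the points of that order.
-/

set_option linter.unusedSectionVars false

namespace K4M

open WeierstrassCurve.Affine Polynomial

section Dg3

variable {F : Type*} [Field F] [DecidableEq F] {W : WeierstrassCurve.Affine F}
  {A : AddSubgroup W.Point}

/-- the number of points with a given `x`-coordinate -/
def ee (l : ℕ) : ℕ := if Even l then 1 else 2

lemma ee_pos (l : ℕ) : 0 < ee l := by unfold ee; split_ifs <;> norm_num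

/-- the nonzero points killed by `l` -/
noncomputable def torsS (A : Type*) [AddCommGroup A] [Fintype A] [DecidableEq A] (l : ℕ) :
    Finset A := (tors A l).erase 0

lemma mem_torsS {A : Type*} [AddCommGroup A] [Fintype A] [DecidableEq A] {l : ℕ} {i : A} :
    i ∈ torsS A l ↔ i ≠ 0 ∧ l • i = 0 := by
  unfold torsS
  rw [Finset.mem_erase, mem_tors]

/-- the fibres of the `x`-coordinate -/
lemma fibre [Fintype A] [DecidableEq A] {l : ℕ} (hl : l.Prime) {i : A} (hi : i ∈ torsS A l) :
    ((torsS A l).filter fun j : A => xc (j : W.Point) = xc (i : W.Point)).card = ee l := by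
  have hi' := mem_torsS.mp hi
  have e : ((torsS A l).filter fun j : A => xc (j : W.Point) = xc (i : W.Point)) = {i, -i} := by
    ext j
    rw [Finset.mem_filter, Finset.mem_insert, Finset.mem_singleton]
    constructor
    · rintro ⟨h1, h2⟩
      rcases xc_inj (coe_ne_zero (mem_torsS.mp h1).1) (coe_ne_zero hi'.1) h2 with h | h
      · left; exact Subtype.ext h
      · right; exact Subtype.ext (by simpa using h)
    · rintro (rfl | rfl)
      · exact ⟨hi, rfl⟩
      · refine ⟨mem_torsS.mpr ⟨neg_ne_zero.mpr hi'.1, by rw [smul_neg, hi'.2, neg_zero]⟩, ?_⟩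
        rw [AddSubgroup.coe_neg, xc_neg]
  rw [e]
  unfold ee
  split_ifs with he
  · have : l = 2 := (hl.even_iff).mp he
    subst this
    have h2 : -i = i := by
      rw [neg_eq_iff_add_eq_zero, ← two_nsmul]; exact hi'.2
    rw [h2]; simp
  · rw [Finset.card_pair]
    intro h
    have h2 : 2 • i = 0 := by rw [two_nsmul]; nth_rewrite 1 [h]; simp
    have hd1 : addOrderOf i ∣ 2 := addOrderOf_dvd_of_nsmul_eq_zero h2
    have hd2 : addOrderOf i ∣ l := addOrderOf_dvd_of_nsmul_eq_zero hi'.2
    have ho : Odd l := Nat.not_even_iff_odd.mp he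
    have hc : Nat.Coprime 2 l := Nat.coprime_two_left.mpr ho
    exact hi'.1 (AddMonoid.addOrderOf_eq_one_iff.mp (Nat.eq_one_of_dvd_coprimes hc hd1 hd2))

/-- the `x`-coordinates of the nonzero points killed by `l` -/
noncomputable def xS (A : AddSubgroup W.Point) [Fintype A] [DecidableEq A] (l : ℕ) : Finset F :=
  (torsS A l).image fun i : A => xc (i : W.Point)

lemma sum_xS {V : Type*} [AddCommGroup V] [Module ℚ V] [Fintype A] [DecidableEq A] {l : ℕ}
    (hl : l.Prime) (f : F → V) :
    ∑ i ∈ torsS A l, f (xc (i : W.Point)) = (ee l : ℚ) • ∑ x ∈ xS A l, f x := by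
  rw [Finset.sum_comp f (fun i : A => xc (i : W.Point)), Finset.smul_sum]
  apply Finset.sum_congr rfl
  intro x hx
  obtain ⟨i, hi, rfl⟩ := Finset.mem_image.mp hx
  rw [fibre hl hi, Nat.cast_smul_eq_nsmul]

lemma card_xS [Fintype A] [DecidableEq A] {l : ℕ} (hl : l.Prime) :
    (torsS A l).card = ee l * (xS A l).card := by
  have := sum_xS (A := A) (V := ℚ) hl (fun _ => (1 : ℚ))
  simp only [Finset.sum_const, nsmul_eq_mul, mul_one, smul_eq_mul] at this
  exact_mod_cast this

lemma xS_root [Fintype A] [DecidableEq A] {l : ℕ} (hl : l.Prime) :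
    ∀ x ∈ xS A l, (pl W l).eval x = 0 := by
  intro x hx
  obtain ⟨i, hi, rfl⟩ := Finset.mem_image.mp hx
  have hi' := mem_torsS.mp hi
  refine pl_root hl (coe_ne_zero hi'.1) ?_
  have := congrArg (fun z : A => (z : W.Point)) hi'.2
  simpa using this

lemma card_tors_eq [Fintype A] [DecidableEq A] (l : ℕ) :
    (tors A l).card = (torsS A l).card + 1 := by
  unfold torsS
  rw [Finset.card_erase_of_mem (zero_mem_tors l)]
  have : 0 < (tors A l).card := Finset.card_pos.mpr ⟨0, zero_mem_tors l⟩
  omega

variable [CharZero F]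

lemma natDegree_pl {l : ℕ} (hl : l.Prime) : ee l * (pl W l).natDegree = l ^ 2 - 1 := by
  unfold ee pl
  split_ifs with he
  · have : l = 2 := (hl.even_iff).mp he
    subst this
    rw [WeierstrassCurve.natDegree_Ψ₂Sq W (by norm_num)]
    norm_num
  · have hl0 : (l : F) ≠ 0 := Nat.cast_ne_zero.mpr hl.ne_zero
    rw [WeierstrassCurve.natDegree_preΨ' W hl0, if_neg he]
    have ho : Odd l := Nat.not_even_iff_odd.mp he
    obtain ⟨k, rfl⟩ := ho
    have : (2 * k + 1) ^ 2 - 1 = 2 * (2 * k ^ 2 + 2 * k) := by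
      have : (2 * k + 1) ^ 2 = 2 * (2 * k ^ 2 + 2 * k) + 1 := by ring
      omega
    rw [this]; omega

lemma pl_ne_zero {l : ℕ} (hl : l.Prime) : pl W l ≠ 0 := by
  intro h
  have := natDegree_pl (W := W) hl
  rw [h, natDegree_zero, mul_zero] at this
  have h2 := hl.two_le
  have : 4 ≤ l ^ 2 := by nlinarith
  omega

lemma lc_pl {l : ℕ} (hl : l.Prime) :
    (ee l : ℚ) • lg ((pl W l).leadingCoeff) = (2 : ℚ) • lg (l : F) := by
  unfold ee pl
  split_ifs with he
  · have : l = 2 := (hl.even_iff).mp he
    subst this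
    rw [WeierstrassCurve.leadingCoeff_Ψ₂Sq W (by norm_num)]
    have : (4 : F) = (2 : F) ^ 2 := by norm_num
    rw [this, lg_pow (by norm_num)]
    push_cast
    module
  · have hl0 : (l : F) ≠ 0 := Nat.cast_ne_zero.mpr hl.ne_zero
    rw [WeierstrassCurve.leadingCoeff_preΨ' W hl0, if_neg he]
    norm_num

lemma un_sq {l : ℕ} (hl : l.Prime) {P : W.Point} (hP : P ≠ 0) (hu : un P l ≠ 0) :
    (2 : ℚ) • lg (un P l) = (ee l : ℚ) • lg ((pl W l).eval (xc P)) := by
  unfold ee pl
  split_ifs with he
  · have : l = 2 := (hl.even_iff).mp he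
    subst this
    rw [un_two] at hu ⊢
    rw [Psi2Sq_eval hP, lg_pow hu]
    push_cast
    module
  · unfold un
    rw [if_neg he, mul_one]
    norm_num

/-- a finite group of points has at most `l²` elements killed by a prime `l` -/
lemma card_tors_prime_le [Fintype A] [DecidableEq A] {l : ℕ} (hl : l.Prime) :
    (tors A l).card ≤ l ^ 2 := by
  have h1 := card_le_of_roots (pl_ne_zero (W := W) hl) (xS A l) (xS_root hl)
  have h2 := natDegree_pl (W := W) hl
  rw [card_tors_eq, card_xS hl]
  have h3 : ee l * (xS A l).card ≤ ee l * (pl W l).natDegree := Nat.mul_le_mul_left _ h1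
  have : 1 ≤ l ^ 2 := Nat.one_le_pow _ _ hl.pos
  omega

/-- the value of the division polynomial as a product -/
lemma pl_eval [Fintype A] [DecidableEq A] {l : ℕ} (hl : l.Prime) (hc : (tors A l).card = l ^ 2)
    (y : F) : (pl W l).eval y = (pl W l).leadingCoeff * ∏ x ∈ xS A l, (y - x) := by
  apply eval_of_roots _ (xS_root hl)
  have h2 := natDegree_pl (W := W) hl
  rw [card_tors_eq, card_xS hl] at hc
  have h3 : ee l * (pl W l).natDegree = ee l * (xS A l).card := by omega
  exact Nat.eq_of_mul_eq_mul_left (ee_pos l) h3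

lemma lg_prod {ι : Type*} (s : Finset ι) (f : ι → F) (hf : ∀ i ∈ s, f i ≠ 0) :
    lg (∏ i ∈ s, f i) = ∑ i ∈ s, lg (f i) := by
  classical
  induction s using Finset.induction_on with
  | empty => simp [lg_one]
  | insert i s hi ih =>
    rw [Finset.prod_insert hi, Finset.sum_insert hi, lg_mul (hf i (Finset.mem_insert_self i s))
      (Finset.prod_ne_zero_iff.mpr fun j hj => hf j (Finset.mem_insert_of_mem hj)),
      ih fun j hj => hf j (Finset.mem_insert_of_mem hj)]

/-- the division polynomial of prime level at a point -/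
theorem lg_un [Fintype A] [DecidableEq A] {l : ℕ} (hl : l.Prime) (hc : (tors A l).card = l ^ 2)
    {a : A} (hG : Good (a : W.Point) l) :
    (2 : ℚ) • lg (un (a : W.Point) l) = (2 : ℚ) • lg (l : F) +
      ∑ i ∈ torsS A l, lg (dx (a : W.Point) (i : W.Point)) := by
  have hP1 : (a : W.Point) ≠ 0 := by simpa using hG 1 le_rfl (by have := hl.two_le; omega)
  have hu := un_ne hG (n := l) (by have := hl.two_le; omega) le_rfl
  have hdx : ∀ i ∈ torsS A l, xc (a : W.Point) - xc (i : W.Point) ≠ 0 := by
    intro i hi h0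
    have hi' := mem_torsS.mp hi
    have hla := hG l (by have := hl.two_le; omega) le_rfl
    have hli : l • (i : W.Point) = 0 := by
      have := congrArg (fun z : A => (z : W.Point)) hi'.2
      simpa using this
    rcases xc_inj hP1 (coe_ne_zero hi'.1) (sub_eq_zero.mp h0) with h | h
    · rw [h] at hla; exact hla hli
    · rw [h, smul_neg, hli, neg_zero] at hla; exact hla rfl
  have hx : ∀ x ∈ xS A l, xc (a : W.Point) - x ≠ 0 := by
    intro x hx
    obtain ⟨i, hi, rfl⟩ := Finset.mem_image.mp hx
    exact hdx i hi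
  rw [un_sq hl hP1 hu, pl_eval (A := A) hl hc, lg_mul (leadingCoeff_ne_zero.mpr (pl_ne_zero hl))
    (Finset.prod_ne_zero_iff.mpr hx), lg_prod _ _ hx, smul_add, lc_pl hl,
    ← sum_xS hl (fun x => lg (xc (a : W.Point) - x))]
  congr 1
  apply Finset.sum_congr rfl
  intro i hi
  rw [xc_coe_ne hP1 (coe_ne_zero (mem_torsS.mp hi).1)]

end Dg3

end K4M
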