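import Pool.Agent.Lib_helper60.K4M.Dg3

/-!
The distribution relation of Siegel units.
-/

set_option linter.unusedSectionVars false

namespace K4M

open WeierstrassCurve.Affine Polynomial

section Grp

variable {A : Type*} [AddCommGroup A] [Fintype A]

lemma sum_tors_translate {V : Type*} [AddCommGroup V] (f : A → V) (l : ℕ) (a : A) {i : A}
    (hi : i ∈ tors A l) : ∑ j ∈ tors A l, f (a + i + j) = ∑ j ∈ tors A l, f (a + j) := by
  classical
  apply Finset.sum_bij' (fun j _ => i + j) (fun j _ => j - i)
  · intro j hj
    rw [mem_tors] at *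
    rw [smul_add, hi, hj, add_zero]
  · intro j hj
    rw [mem_tors] at *
    rw [smul_sub, hi, hj, sub_zero]
  · intro j hj; abel
  · intro j hj; abel
  · intro j hj; rw [add_assoc]

lemma sum_tors_neg {V : Type*} [AddCommGroup V] (f : A → V) (l : ℕ) :
    ∑ j ∈ tors A l, f (-j) = ∑ j ∈ tors A l, f j := by
  classical
  have hm : ∀ j ∈ tors A l, -j ∈ tors A l := by
    intro j hj
    rw [mem_tors] at *
    rw [smul_neg, hj, neg_zero]
  refine Finset.sum_bij' (fun j _ => -j) (fun j _ => -j) hm hm ?_ ?_ ?_
  · intro j hj; exact neg_neg j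
  · intro j hj; exact neg_neg j
  · intro j hj; rfl

/-- the map `i ↦ m i` from `A[mn]` to `A[n]` when all cardinalities are squares -/
lemma tors_fibre_card_le [DecidableEq A] (m n : ℕ) (j : A) :
    ((tors A (m * n)).filter fun i => m • i = j).card ≤ (tors A m).card := by
  rcases ((tors A (m * n)).filter fun i => m • i = j).eq_empty_or_nonempty with h | ⟨i0, hi0⟩
  · rw [h]; simp
  · have hi0' := (Finset.mem_filter.mp hi0).2
    apply Finset.card_le_card_of_injOn (fun i => i - i0)
    · intro i hi
      have := (Finset.mem_filter.mp hi).2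
      show i - i0 ∈ tors A m
      rw [mem_tors, smul_sub, this, hi0', sub_self]
    · intro x _ y _ h
      exact sub_left_injective h

lemma tors_maps (m n : ℕ) : ∀ i ∈ tors A (m * n), m • i ∈ tors A n := by
  intro i hi
  rw [mem_tors] at *
  rw [smul_smul, mul_comm n m, hi]

lemma card_tors_mul_le (m n : ℕ) : (tors A (m * n)).card ≤ (tors A m).card * (tors A n).card := by
  classical
  rw [Finset.card_eq_sum_card_fiberwise (f := fun i => m • i) (t := tors A n)
    (fun i hi => tors_maps m n i hi)]
  calc ∑ j ∈ tors A n, ((tors A (m * n)).filter fun i => m • i = j).card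
      ≤ ∑ _j ∈ tors A n, (tors A m).card := Finset.sum_le_sum fun j _ => tors_fibre_card_le m n j
    _ = (tors A m).card * (tors A n).card := by rw [Finset.sum_const, smul_eq_mul, mul_comm]

/-- if `|A[mn]| = |A[m]| |A[n]|` then `A[mn] → A[n]` is onto -/
lemma tors_surj {m n : ℕ} (hm : 0 < (tors A m).card)
    (h : (tors A (m * n)).card = (tors A m).card * (tors A n).card) {j : A} (hj : j ∈ tors A n) :
    ∃ i ∈ tors A (m * n), m • i = j := by
  classical
  by_contra hno
  push Not at hno
  have h0 : ((tors A (m * n)).filter fun i => m • i = j).card = 0 := by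
    rw [Finset.card_eq_zero, Finset.filter_eq_empty_iff]
    exact fun i hi => hno i hi
  have e := Finset.card_eq_sum_card_fiberwise (s := tors A (m * n)) (f := fun i => m • i)
    (t := tors A n) (fun i hi => tors_maps m n i hi)
  have : ∑ j ∈ tors A n, ((tors A (m * n)).filter fun i => m • i = j).card <
      ∑ _j ∈ tors A n, (tors A m).card := by
    apply Finset.sum_lt_sum (fun j _ => tors_fibre_card_le m n j)
    exact ⟨j, hj, by rw [h0]; exact hm⟩
  rw [← e, h, Finset.sum_const, smul_eq_mul, mul_comm] at this
  exact lt_irrefl _ this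

/-- summation over `A[mn]` -/
lemma sum_tors_mul {V : Type*} [AddCommGroup V] {m n : ℕ} (hm : 0 < (tors A m).card)
    (h : (tors A (m * n)).card = (tors A m).card * (tors A n).card) (f : A → V) (G : A → V)
    (hG : ∀ a, ∑ i ∈ tors A m, f (a + i) = G (m • a)) (a : A) :
    ∑ i ∈ tors A (m * n), f (a + i) = ∑ j ∈ tors A n, G (m • a + j) := by
  classical
  rw [← Finset.sum_fiberwise_of_maps_to (g := fun i => m • i) (t := tors A n)
    (fun i hi => tors_maps m n i hi)]
  apply Finset.sum_congr rfl
  intro j hj
  obtain ⟨i0, hi0, rfl⟩ := tors_surj hm h hj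
  rw [← smul_add, ← hG]
  apply Finset.sum_bij' (fun i _ => i - i0) (fun i _ => i0 + i)
  · intro i hi
    obtain ⟨h1, h2⟩ := Finset.mem_filter.mp hi
    rw [mem_tors, smul_sub, h2, sub_self]
  · intro i hi
    rw [Finset.mem_filter]
    rw [mem_tors] at *
    constructor
    · rw [smul_add, hi0, zero_add, mul_comm, mul_smul, hi, smul_zero]
    · rw [smul_add, hi, add_zero]
  · intro i hi; abel
  · intro i hi; abel
  · intro i hi
    congr 1; abel

end Grp

section Dg4

variable {F : Type*} [Field F] [DecidableEq F] {W : WeierstrassCurve.Affine F}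
  {A : AddSubgroup W.Point} [CharZero F]

/-- a finite group of points has at most `k²` elements killed by `k` -/
theorem card_tors_le [Fintype A] (k : ℕ) (hk : k ≠ 0) : (tors A k).card ≤ k ^ 2 := by
  classical
  induction k using Nat.recOnMul with
  | zero => exact absurd rfl hk
  | one =>
    have : tors A 1 = {0} := by
      ext i; rw [mem_tors, one_smul, Finset.mem_singleton]
    rw [this]; simp
  | prime p hp => exact card_tors_prime_le hp
  | mul m n ihm ihn =>
    have h1 := card_tors_mul_le (A := A) m n
    have h2 := ihm (left_ne_zero_of_mul hk)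
    have h3 := ihn (right_ne_zero_of_mul hk)
    calc (tors A (m * n)).card ≤ (tors A m).card * (tors A n).card := h1
      _ ≤ m ^ 2 * n ^ 2 := Nat.mul_le_mul h2 h3
      _ = (m * n) ^ 2 := by ring

lemma card_tors_of_mul [Fintype A] {m n : ℕ} (h0 : m * n ≠ 0)
    (h : (tors A (m * n)).card = (m * n) ^ 2) :
    (tors A m).card = m ^ 2 ∧ (tors A n).card = n ^ 2 := by
  have hm := left_ne_zero_of_mul h0
  have hn := right_ne_zero_of_mul h0
  have h1 := card_tors_mul_le (A := A) m n
  have h2 := card_tors_le (A := A) m hm
  have h3 := card_tors_le (A := A) n hn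
  rw [h] at h1
  have hm' : 0 < m ^ 2 := by positivity
  have hn' : 0 < n ^ 2 := by positivity
  constructor
  · by_contra hne
    have : (tors A m).card < m ^ 2 := lt_of_le_of_ne h2 hne
    nlinarith
  · by_contra hne
    have : (tors A n).card < n ^ 2 := lt_of_le_of_ne h3 hne
    nlinarith

/-- the distribution relation at a prime for points which are good up to `l` -/
lemma dist_good [Fintype A] {g : A → FT F} (hg : IsG4 A g) {l : ℕ} (hl : l.Prime)
    (hc : (tors A l).card = l ^ 2) {a : A} (hG : Good (a : W.Point) l) :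
    ∑ i ∈ tors A l, g (a + i) = g (l • a) + (∑ i ∈ tors A l, g i - lg (l : F)) := by
  classical
  have hl2 := hl.two_le
  have e1 := g_mul hg hG l le_rfl
  have e2 := lg_un (A := A) hl hc hG
  have hla : l • a ≠ 0 := by
    intro h
    apply hG l (by omega) le_rfl
    have := congrArg (fun z : A => (z : W.Point)) h
    simpa using this
  have e3 : ∀ i ∈ torsS A l, lg (dx (a : W.Point) (i : W.Point)) =
      g (a + i) + g (a - i) - (2 : ℚ) • g a - (2 : ℚ) • g i := by
    intro i hi
    have hi' := mem_torsS.mp hi
    apply siegel_rel hg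
    · rintro rfl; exact hla hi'.2
    · intro h
      apply hla
      rw [h, smul_neg, hi'.2, neg_zero]
  rw [Finset.sum_congr rfl e3] at e2
  have h0 := zero_mem_tors (A := A) l
  have s1 : ∑ i ∈ torsS A l, g (a + i) = ∑ i ∈ tors A l, g (a + i) - g a := by
    unfold torsS
    rw [Finset.sum_erase_eq_sub h0, add_zero]
  have s2 : ∑ i ∈ torsS A l, g (a - i) = ∑ i ∈ tors A l, g (a + i) - g a := by
    unfold torsS
    rw [Finset.sum_erase_eq_sub h0, sub_zero]
    congr 1
    rw [← sum_tors_neg]
    apply Finset.sum_congr rfl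
    intro i _
    rw [sub_neg_eq_add]
  have s3 : ∑ i ∈ torsS A l, g i = ∑ i ∈ tors A l, g i := by
    unfold torsS
    rw [Finset.sum_erase_eq_sub h0, hg.zero, sub_zero]
  have s4 : ((torsS A l).card : ℚ) = (l : ℚ) ^ 2 - 1 := by
    have := card_tors_eq (A := A) l
    rw [hc] at this
    have h' : ((l ^ 2 : ℕ) : ℚ) = (torsS A l).card + 1 := by exact_mod_cast this
    push_cast at h'
    linarith
  rw [Finset.sum_sub_distrib, Finset.sum_sub_distrib, Finset.sum_add_distrib, s1, s2,
    ← Finset.smul_sum, ← Finset.smul_sum, s3, Finset.sum_const, ← Nat.cast_smul_eq_nsmul ℚ, s4] at e2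
  have e4 : lg (un (a : W.Point) l) = lg (l : F) + ∑ i ∈ tors A l, g (a + i) -
      ((l : ℚ) ^ 2) • g a - ∑ i ∈ tors A l, g i := by
    have h2 : (2 : ℚ) ≠ 0 := two_ne_zero
    apply smul_right_injective _ h2
    show (2 : ℚ) • lg (un (a : W.Point) l) = (2 : ℚ) • _
    rw [e2]
    module
  rw [e1, e4]
  abel

/-- the distribution relation at a prime -/
theorem dist_prime [Fintype A] [DecidableEq A] {g : A → FT F} (hg : IsG4 A g) {l : ℕ} (hl : l.Prime)
    (hc : (tors A l).card = l ^ 2) (a : A) :
    ∑ i ∈ tors A l, g (a + i) = g (l • a) + (∑ i ∈ tors A l, g i - lg (l : F)) +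
      (if l • a = 0 then lg (l : F) else 0) := by
  have hl2 := hl.two_le
  split_ifs with hla
  · have ha : a ∈ tors A l := mem_tors.mpr hla
    have := sum_tors_translate g l 0 ha
    rw [zero_add] at this
    rw [this, hla, hg.zero]
    simp only [zero_add]
    abel
  · rw [add_zero]
    by_cases hG : Good (a : W.Point) l
    · exact dist_good hg hl hc hG
    -- a point with a smaller order
    have hex : ∃ m : ℕ, 1 ≤ m ∧ m ≤ l ∧ m • (a : W.Point) = 0 := by
      unfold Good at hG
      push Not at hG
      exact hG
    obtain ⟨m, hm1, hm2, hm⟩ := hex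
    have hma : m • a = 0 := Subtype.ext (by simpa using hm)
    have hml : m < l := by
      rcases Nat.lt_or_ge m l with h | h
      · exact h
      · exact absurd (by rw [show l = m by omega]; exact hma) hla
    have hcard : 1 < (tors A l).card := by
      rw [hc]; nlinarith
    obtain ⟨i, hi, hi0⟩ := Finset.exists_mem_ne hcard 0
    have hli : l • i = 0 := mem_tors.mp hi
    have hcop : Nat.Coprime l m := (Nat.Prime.coprime_iff_not_dvd hl).mpr
      fun hd => by have := Nat.le_of_dvd (by omega) hd; omega
    have hG' : Good ((a + i : A) : W.Point) l := by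
      intro r hr1 hr2 hr
      have hr' : r • (a + i) = 0 := Subtype.ext (by simpa using hr)
      have h1 : (m * r) • i = 0 := by
        have : (m * r) • (a + i) = 0 := by rw [mul_smul, hr', smul_zero]
        rw [smul_add, mul_comm m r, mul_smul r m a, hma, smul_zero, zero_add] at this
        rw [mul_comm]; exact this
      have hoi : addOrderOf i = l := by
        haveI : Fact l.Prime := ⟨hl⟩
        exact addOrderOf_eq_prime hli hi0
      have hd : l ∣ m * r := by rw [← hoi]; exact addOrderOf_dvd_of_nsmul_eq_zero h1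
      have hd2 : l ∣ r := hcop.dvd_of_dvd_mul_left hd
      have hrl : r = l := by have := Nat.le_of_dvd (by omega) hd2; omega
      subst hrl
      rw [smul_add, hli, add_zero] at hr'
      exact hla hr'
    have e := dist_good hg hl hc hG'
    rw [sum_tors_translate g l a hi, smul_add, hli, add_zero] at e
    exact e

end Dg4

end K4M
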