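import Pool.Agent.Lib_helper60.K4M.Dg4

/-!
The distribution relation of Siegel units for all divisors of `K`.
-/

set_option linter.unusedSectionVars false

namespace K4M

open WeierstrassCurve.Affine Polynomial

section Dg5

variable {F : Type*} [Field F] [DecidableEq F] {W : WeierstrassCurve.Affine F}
  {A : AddSubgroup W.Point} [CharZero F]

/-- the distribution relation of level `k` with constant `c` -/
def HasDist [Fintype A] [DecidableEq A] (g : A → FT F) (k : ℕ) (c : FT F) : Prop :=
  ∀ a : A, ∑ i ∈ tors A k, g (a + i) = g (k • a) + c + (if k • a = 0 then lg (k : F) else 0)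

variable [Fintype A] [DecidableEq A]

lemma HasDist.const {g : A → FT F} {k : ℕ} {c : FT F} (h : HasDist g k c) (h0 : g 0 = 0) :
    c = ∑ i ∈ tors A k, g i - lg (k : F) := by
  have e := h 0
  rw [smul_zero, if_pos rfl, h0] at e
  simp only [zero_add] at e
  rw [e]; abel

lemma HasDist.one {g : A → FT F} : HasDist g 1 0 := by
  intro a
  have : tors A 1 = {0} := by
    ext i; rw [mem_tors, one_smul, Finset.mem_singleton]
  rw [this, Finset.sum_singleton, add_zero, one_smul, Nat.cast_one, lg_one]
  simp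

lemma HasDist.mul {g : A → FT F} {m n : ℕ} {c d : FT F} (h0 : m * n ≠ 0)
    (hc : (tors A (m * n)).card = (m * n) ^ 2) (hm : HasDist g m c) (hn : HasDist g n d) :
    HasDist g (m * n) (d + (n : ℚ) ^ 2 • c) := by
  intro a
  obtain ⟨c1, c2⟩ := card_tors_of_mul h0 hc
  have hmp : 0 < (tors A m).card := Finset.card_pos.mpr ⟨0, zero_mem_tors m⟩
  have hcc : (tors A (m * n)).card = (tors A m).card * (tors A n).card := by
    rw [hc, c1, c2]; ring
  rw [sum_tors_mul hmp hcc g (fun b => g b + c + (if b = 0 then lg (m : F) else 0)) hm a]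
  have hq : (n ^ 2 : ℕ) • c = ((n ^ 2 : ℕ) : ℚ) • c := (Nat.cast_smul_eq_nsmul ℚ _ _).symm
  rw [Finset.sum_add_distrib, Finset.sum_add_distrib, hn (m • a), Finset.sum_const, c2, hq,
    smul_smul n m a, mul_comm n m]
  have hm0 : (m : F) ≠ 0 := Nat.cast_ne_zero.mpr (left_ne_zero_of_mul h0)
  have hn0 : (n : F) ≠ 0 := Nat.cast_ne_zero.mpr (right_ne_zero_of_mul h0)
  have hs : ∑ j ∈ tors A n, (if m • a + j = 0 then lg (m : F) else 0) =
      if (m * n) • a = 0 then lg (m : F) else 0 := by
    by_cases h : (m * n) • a = 0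
    · rw [if_pos h, Finset.sum_eq_single (-(m • a))]
      · rw [if_pos (add_neg_cancel _)]
      · intro j _ hj
        rw [if_neg]
        intro h'
        exact hj (eq_neg_of_add_eq_zero_right h')
      · intro h'
        exfalso
        apply h'
        rw [mem_tors, smul_neg, smul_smul, mul_comm n m, h, neg_zero]
    · rw [if_neg h]
      apply Finset.sum_eq_zero
      intro j hj
      rw [if_neg]
      intro h'
      apply h
      have : n • (m • a + j) = 0 := by rw [h', smul_zero]
      rw [smul_add, mem_tors.mp hj, add_zero, smul_smul, mul_comm n m] at this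
      exact this
  rw [hs]
  push_cast
  rw [lg_mul hm0 hn0]
  split_ifs <;> module

/-- the constant of the distribution relation -/
noncomputable def cc (g : A → FT F) (k : ℕ) : FT F := ∑ i ∈ tors A k, g i - lg (k : F)

theorem hasDist_cc {g : A → FT F} (hg : IsG4 A g) (k : ℕ) (hk : k ≠ 0)
    (hc : (tors A k).card = k ^ 2) : HasDist g k (cc g k) := by
  induction k using Nat.recOnMul with
  | zero => exact absurd rfl hk
  | one =>
    have h := HasDist.one (g := g)
    have e := h.const hg.zero
    unfold cc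
    rw [← e]; exact h
  | prime p hp =>
    intro a
    unfold cc
    exact dist_prime hg hp hc a
  | mul m n ihm ihn =>
    obtain ⟨c1, c2⟩ := card_tors_of_mul hk hc
    have h := HasDist.mul hk hc (ihm (left_ne_zero_of_mul hk) c1) (ihn (right_ne_zero_of_mul hk) c2)
    have e := h.const hg.zero
    unfold cc
    rw [← e]; exact h

lemma cc_mul {g : A → FT F} (hg : IsG4 A g) {m n : ℕ} (h0 : m * n ≠ 0)
    (hc : (tors A (m * n)).card = (m * n) ^ 2) :
    cc g (m * n) = cc g n + (n : ℚ) ^ 2 • cc g m := by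
  obtain ⟨c1, c2⟩ := card_tors_of_mul h0 hc
  have h := HasDist.mul h0 hc (hasDist_cc hg m (left_ne_zero_of_mul h0) c1)
    (hasDist_cc hg n (right_ne_zero_of_mul h0) c2)
  have e := h.const hg.zero
  rw [e, cc]

lemma cc_swap {g : A → FT F} (hg : IsG4 A g) {m n : ℕ} (h0 : m * n ≠ 0)
    (hc : (tors A (m * n)).card = (m * n) ^ 2) :
    ((m : ℚ) ^ 2 - 1) • cc g n = ((n : ℚ) ^ 2 - 1) • cc g m := by
  have e1 := cc_mul hg h0 hc
  have e2 := cc_mul hg (m := n) (n := m) (by rw [mul_comm]; exact h0) (by rw [mul_comm n m, hc])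
  rw [mul_comm n m, e1] at e2
  have : (m : ℚ) ^ 2 • cc g n = cc g n + (n : ℚ) ^ 2 • cc g m - cc g m := by rw [e2]; abel
  rw [sub_smul, this]; module

lemma card_of_dvd {K k : ℕ} (hK0 : K ≠ 0) (hK : (tors A K).card = K ^ 2) (hk : k ∣ K) :
    (tors A k).card = k ^ 2 := by
  obtain ⟨m, rfl⟩ := hk
  exact (card_tors_of_mul hK0 hK).1

/-- **the distribution relation of Siegel units** for all divisors of `K` -/
theorem dg {g : A → FT F} (hg : IsG4 A g) {K : ℕ} (hK0 : K ≠ 0)
    (hK : (tors A K).card = K ^ 2) :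
    ∃ s : FT F, ∀ k, k ∣ K → ∀ a : A, ∑ i ∈ tors A k, g (a + i) =
      g (k • a) + ((k : ℚ) ^ 2 - 1) • s + (if k • a = 0 then lg (k : F) else 0) := by
  rcases eq_or_ne K 1 with rfl | hK1
  · refine ⟨0, fun k hk a => ?_⟩
    have : k = 1 := Nat.dvd_one.mp hk
    subst this
    rw [HasDist.one (g := g) a, smul_zero]
  · set p := K.minFac with hp
    have hpp : p.Prime := Nat.minFac_prime hK1
    have hpK : p ∣ K := Nat.minFac_dvd K
    have hp1 : ((p : ℚ) ^ 2 - 1) ≠ 0 := by
      have h2 : (2 : ℚ) ≤ p := by exact_mod_cast hpp.two_le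
      nlinarith
    set s : FT F := ((p : ℚ) ^ 2 - 1)⁻¹ • cc g p with hs
    have hall : ∀ k, k ∣ K → cc g k = ((k : ℚ) ^ 2 - 1) • s := by
      intro k
      induction k using Nat.recOnMul with
      | zero => intro h; exact absurd (Nat.eq_zero_of_zero_dvd h) hK0
      | one =>
        intro _
        have h := HasDist.one (g := g)
        have e := h.const hg.zero
        unfold cc
        rw [← e]; simp
      | prime q hq =>
        intro hqK
        rcases eq_or_ne q p with rfl | hne
        · rw [hs, smul_smul, mul_inv_cancel₀ hp1, one_smul]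
        · have hd : p * q ∣ K :=
            Nat.Coprime.mul_dvd_of_dvd_of_dvd ((Nat.coprime_primes hpp hq).mpr (Ne.symm hne)) hpK hqK
          have h0 : p * q ≠ 0 := mul_ne_zero hpp.ne_zero hq.ne_zero
          have e := cc_swap hg h0 (card_of_dvd hK0 hK hd)
          rw [hs, smul_comm, ← e, smul_smul, inv_mul_cancel₀ hp1, one_smul]
      | mul m n ihm ihn =>
        intro hmn
        have h0 : m * n ≠ 0 := ne_zero_of_dvd_ne_zero hK0 hmn
        rw [cc_mul hg h0 (card_of_dvd hK0 hK hmn), ihm (dvd_of_mul_right_dvd hmn),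
          ihn (dvd_of_mul_left_dvd hmn)]
        push_cast
        module
    refine ⟨s, fun k hk a => ?_⟩
    have h := hasDist_cc hg k (ne_zero_of_dvd_ne_zero hK0 hk) (card_of_dvd hK0 hK hk) a
    rw [hall k hk] at h
    exact h

end Dg5

end K4M
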