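import Mathlib

/-!
Elliptic sequences attached to the `x`-coordinates of the multiples of a point.
-/

set_option linter.unusedSectionVars false

namespace K4M

section Seq

variable {F : Type*} [Field F]

/-- the relations between the `x`-coordinates `x n` of the multiples `nP`, `1 ≤ n ≤ M`, and the
sequence `w` -/
structure XSeq (x w : ℕ → F) (M : ℕ) : Prop where
  w0 : w 0 = 0
  w1 : w 1 = 1
  ne : ∀ n, 1 ≤ n → n ≤ M → w n ≠ 0
  rec1 : ∀ d, 1 + d ≤ M → (x 1 - x (1 + d)) * w (1 + d) ^ 2 = w (2 + d) * w d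
  s2 : ∀ d, 3 + d ≤ M →
    (x 2 - x (2 + d)) * w 2 ^ 2 =
      (x (3 + d) - x 1) * (x (1 + d) - x 1) * (x (2 + d) - x 1) ^ 2
  s1 : ∀ k d, 1 ≤ k → k + 3 + d ≤ M →
    (x (k + 2) - x (k + 2 + d)) * (x k - x (k + 2 + d)) * (x (k + 1) - x 1) ^ 2 =
      (x (k + 3 + d) - x (k + 1)) * (x (k + 1 + d) - x (k + 1)) * (x (k + 2 + d) - x 1) ^ 2

variable {x w : ℕ → F} {M : ℕ}

lemma XSeq.dmn (h : XSeq x w M) : ∀ n, 1 ≤ n → ∀ d, 2 * n + d ≤ M + 1 →
    (x n - x (n + d)) * (w (n + d) ^ 2 * w n ^ 2) = w (2 * n + d) * w d := by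
  intro n
  induction n using Nat.strong_induction_on with
  | _ n ih =>
    intro hn d hd
    rcases Nat.eq_zero_or_pos d with rfl | hd0
    · rw [add_zero, sub_self, h.w0]; ring
    rcases Nat.lt_or_ge n 2 with h1 | h1
    · have : n = 1 := by omega
      subst this
      have := h.rec1 d (by omega)
      rw [h.w1, show 2 * 1 + d = 2 + d by ring, ← this]; ring
    rcases Nat.lt_or_ge n 3 with h2 | h2
    · have : n = 2 := by omega
      subst this
      have a1 := h.rec1 (2 + d) (by omega)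
      have a2 := h.rec1 d (by omega)
      have a3 := h.rec1 (1 + d) (by omega)
      have a4 := h.s2 d (by omega)
      rw [show 1 + (2 + d) = 3 + d by ring, show 2 + (2 + d) = 4 + d by ring] at a1
      rw [show 1 + (1 + d) = 2 + d by ring, show 2 + (1 + d) = 3 + d by ring] at a3
      rw [show 2 * 2 + d = 4 + d by ring]
      have n1 := h.ne (3 + d) (by omega) (by omega)
      have n2 := h.ne (1 + d) (by omega) (by omega)
      have n3 := h.ne (2 + d) (by omega) (by omega)
      have hc : w (3 + d) ^ 2 * w (1 + d) ^ 2 * w (2 + d) ^ 2 ≠ 0 := by positivity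
      apply mul_left_cancel₀ hc
      have e : w (3 + d) ^ 2 * w (1 + d) ^ 2 * w (2 + d) ^ 2 *
          ((x 2 - x (2 + d)) * (w (2 + d) ^ 2 * w 2 ^ 2)) =
          ((x 1 - x (3 + d)) * w (3 + d) ^ 2) * ((x 1 - x (1 + d)) * w (1 + d) ^ 2) *
          ((x 1 - x (2 + d)) * w (2 + d) ^ 2) ^ 2 := by
        linear_combination (w (3 + d) ^ 2 * w (1 + d) ^ 2 * w (2 + d) ^ 4) * a4
      rw [e, a1, a2, a3]; ring
    · obtain ⟨k, rfl⟩ : ∃ k, n = k + 2 := ⟨n - 2, by omega⟩
      have a1 := ih (k + 1) (by omega) (by omega) (d + 2) (by omega)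
      have a2 := ih (k + 1) (by omega) (by omega) d (by omega)
      have a3 := h.rec1 (k + 1 + d) (by omega)
      have a4 := ih k (by omega) (by omega) (d + 2) (by omega)
      have a5 := h.rec1 k (by omega)
      have a6 := h.s1 k d (by omega) (by omega)
      rw [show k + 1 + (d + 2) = k + 3 + d by ring, show 2 * (k + 1) + (d + 2) = 2 * k + 4 + d by ring]
        at a1
      rw [show 2 * (k + 1) + d = 2 * k + 2 + d by ring] at a2
      rw [show 1 + (k + 1 + d) = k + 2 + d by ring, show 2 + (k + 1 + d) = k + 3 + d by ring] at a3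
      rw [show k + (d + 2) = k + 2 + d by ring, show 2 * k + (d + 2) = 2 * k + 2 + d by ring] at a4
      rw [show 1 + k = k + 1 by ring, show 2 + k = k + 2 by ring] at a5
      rw [show 2 * (k + 2) + d = 2 * k + 4 + d by ring]
      have n1 := h.ne (2 * k + 2 + d) (by omega) (by omega)
      have n2 := h.ne (d + 2) (by omega) (by omega)
      have n3 := h.ne k (by omega) (by omega)
      have n4 := h.ne (k + 1) (by omega) (by omega)
      have n5 := h.ne (k + 2) (by omega) (by omega)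
      have n6 := h.ne (k + 2 + d) (by omega) (by omega)
      have n7 := h.ne (k + 3 + d) (by omega) (by omega)
      have n8 := h.ne (k + 1 + d) (by omega) (by omega)
      have hc : (w (2 * k + 2 + d) * w (d + 2)) * w (k + 3 + d) ^ 2 * w (k + 1 + d) ^ 2 ≠ 0 := by
        positivity
      -- multiply the wanted identity by hc
      apply mul_left_cancel₀ hc
      have e : (w (2 * k + 2 + d) * w (d + 2)) * w (k + 3 + d) ^ 2 * w (k + 1 + d) ^ 2 *
          ((x (k + 2) - x (k + 2 + d)) * (w (k + 2 + d) ^ 2 * w (k + 2) ^ 2)) =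
          ((x (k + 1) - x (k + 3 + d)) * (w (k + 3 + d) ^ 2 * w (k + 1) ^ 2)) *
          ((x (k + 1) - x (k + 1 + d)) * (w (k + 1 + d) ^ 2 * w (k + 1) ^ 2)) *
          ((x 1 - x (k + 2 + d)) * w (k + 2 + d) ^ 2) ^ 2 := by
        rw [← a4]
        have a5' : (x 1 - x (k + 1)) ^ 2 * w (k + 1) ^ 4 = w (k + 2) ^ 2 * w k ^ 2 := by
          have h5 : ((x 1 - x (k + 1)) * w (k + 1) ^ 2) ^ 2 = (w (k + 2) * w k) ^ 2 := by rw [a5]
          linear_combination h5
        linear_combination (w (k + 3 + d) ^ 2 * w (k + 1 + d) ^ 2 * w (k + 2 + d) ^ 4 *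
          w (k + 1) ^ 4) * a6 - (w (k + 3 + d) ^ 2 * w (k + 1 + d) ^ 2 * w (k + 2 + d) ^ 4 *
          (x (k + 2) - x (k + 2 + d)) * (x k - x (k + 2 + d))) * a5'
      rw [e, a1, a2, a3]; ring

/-- the odd recursion -/
lemma XSeq.odd (h : XSeq x w M) (k : ℕ) (hk : 1 ≤ k) (hM : 2 * k + 1 ≤ M + 1) :
    w (2 * k + 1) = w (k + 2) * w k ^ 3 - w (k - 1) * w (k + 1) ^ 3 := by
  have a1 := h.dmn k hk 1 (by omega)
  have a2 := h.rec1 k (by omega)
  have a3 := h.rec1 (k - 1) (by omega)
  rw [show 1 + k = k + 1 by ring, show 2 + k = k + 2 by ring] at a2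
  rw [show 1 + (k - 1) = k by omega, show 2 + (k - 1) = k + 1 by omega] at a3
  rw [h.w1, mul_one] at a1
  rw [← a1]
  linear_combination w k ^ 2 * a2 - w (k + 1) ^ 2 * a3

/-- the even recursion -/
lemma XSeq.even (h : XSeq x w M) (k : ℕ) (hk : 2 ≤ k) (hM : 2 * k ≤ M + 1) :
    w (2 * k) * w 2 =
      w (k - 1) ^ 2 * w k * w (k + 2) - w (k - 2) * w k * w (k + 1) ^ 2 := by
  have a1 := h.dmn (k - 1) (by omega) 2 (by omega)
  have a2 := h.rec1 k (by omega)
  have a3 := h.rec1 (k - 2) (by omega)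
  rw [show 1 + k = k + 1 by ring, show 2 + k = k + 2 by ring] at a2
  rw [show 1 + (k - 2) = k - 1 by omega, show 2 + (k - 2) = k by omega] at a3
  rw [show k - 1 + 2 = k + 1 by omega, show 2 * (k - 1) + 2 = 2 * k by omega] at a1
  rw [← a1]
  linear_combination w (k - 1) ^ 2 * a2 - w (k + 1) ^ 2 * a3

end Seq

end K4M
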