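import Pool.Agent.Lib_helper76.K4M.Biq
import Pool.Agent.Lib_helper60.K4M.Seq

/-!
The division polynomials at a point `P` whose multiples `mP`, `1 ≤ m ≤ M`, do not vanish.
-/

set_option linter.unusedSectionVars false

namespace K4M

open WeierstrassCurve.Affine Polynomial

section DivSeq

variable {F : Type*} [Field F] [DecidableEq F] {W : WeierstrassCurve.Affine F}

lemma ps_xy {x y : F} (h : W.Nonsingular x y) :
    ps (Point.some x y h) = 2 * y + W.a₁ * x + W.a₃ := rfl

theorem Q4 {a : W.Point} (ha : a ≠ 0) (h2 : a + a ≠ 0) :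
    ps (a + a) * ps a ^ 3 = (WeierstrassCurve.preΨ₄ W).eval (xc a) := by
  rcases a with _ | ⟨x, y, h⟩
  · exact absurd rfl ha
  have hy : y ≠ W.negY x y := by
    intro hy
    exact h2 (Point.add_self_of_Y_eq hy)
  have e1 := (equation_iff' x y).mp h.1
  rw [Point.add_self_of_Y_ne hy]
  simp only [ps, xc, xv, WeierstrassCurve.preΨ₄, eval_add, eval_mul, eval_pow, eval_C, eval_X,
    eval_ofNat]
  rw [slope_of_Y_ne rfl hy]
  have hd : 2 * y + W.a₁ * x + W.a₃ ≠ 0 := by
    intro h0
    apply hy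
    unfold negY
    linear_combination h0
  have hd' : y - W.negY x y = 2 * y + W.a₁ * x + W.a₃ := by unfold negY; ring
  rw [hd']
  set L : F := 3 * x ^ 2 + 2 * W.a₂ * x + W.a₄ - W.a₁ * y with hL
  set D : F := 2 * y + W.a₁ * x + W.a₃ with hD
  have hX : W.addX x x (L / D) * D ^ 2 = L ^ 2 + W.a₁ * L * D - (W.a₂ + 2 * x) * D ^ 2 := by
    unfold addX; field_simp; ring
  set X' : F := W.addX x x (L / D) with hX'
  have hY : (2 * W.addY x x y (L / D) + W.a₁ * X' + W.a₃) * D ^ 3 =
      -(2 * y + W.a₃) * D ^ 3 - 2 * L * (X' * D ^ 2) + 2 * L * x * D ^ 2 - W.a₁ * D * (X' * D ^ 2) := by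
    unfold addY negAddY negY
    rw [← hX']
    field_simp
    ring
  rw [hY, hX, hL, hD, WeierstrassCurve.b₂, WeierstrassCurve.b₄, WeierstrassCurve.b₆,
    WeierstrassCurve.b₈]
  generalize W.a₁ = a1 at *
  generalize W.a₂ = a2 at *
  generalize W.a₃ = a3 at *
  generalize W.a₄ = a4 at *
  generalize W.a₆ = a6 at *
  linear_combination (a1^4*x + 8*a1^2*a2*x + 10*a1^2*x^2 + a1^3*a3 + 4*a1*a2*a3 - 4*a1*a3*x
    - 16*a1*x*y + 2*a1^2*a4 + 56*a2*x^2 + 16*a2^2*x + 56*x^3 + 8*a2*a4 - 16*a3*y - 8*a3^2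
    + 8*a4*x - 16*y^2 - 16*a6) * e1

/-- the sequence defined by the `x`-coordinates -/
noncomputable def wpair (x : ℕ → F) (w2 : F) : ℕ → F × F
  | 0 => (1, w2)
  | n + 1 => ((wpair x w2 n).2, (x 1 - x (n + 2)) * (wpair x w2 n).2 ^ 2 / (wpair x w2 n).1)

noncomputable def wseq (x : ℕ → F) (w2 : F) : ℕ → F
  | 0 => 0
  | n + 1 => (wpair x w2 n).1

lemma wseq_zero (x : ℕ → F) (w2 : F) : wseq x w2 0 = 0 := rfl
lemma wseq_one (x : ℕ → F) (w2 : F) : wseq x w2 1 = 1 := rfl
lemma wseq_two (x : ℕ → F) (w2 : F) : wseq x w2 2 = w2 := rfl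
lemma wseq_rec (x : ℕ → F) (w2 : F) (n : ℕ) :
    wseq x w2 (n + 3) = (x 1 - x (n + 2)) * wseq x w2 (n + 2) ^ 2 / wseq x w2 (n + 1) := rfl

/-- the point `P` has `mP ≠ 0` for `1 ≤ m ≤ M` -/
def Good (P : W.Point) (M : ℕ) : Prop := ∀ m : ℕ, 1 ≤ m → m ≤ M → m • P ≠ 0

/-- the `x`-coordinates of the multiples of `P` -/
def xm (P : W.Point) (n : ℕ) : F := xc (n • P)

lemma xm_ne {P : W.Point} {M : ℕ} (hP : Good P M) {n : ℕ} (h1 : 2 ≤ n) (h2 : n + 1 ≤ M) :
    xm P 1 ≠ xm P n := by
  have hn : n • P ≠ 0 := hP n (by omega) (by omega)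
  have h1' : (1 : ℕ) • P ≠ 0 := hP 1 le_rfl (by omega)
  intro h
  have hd : dx ((1 : ℕ) • P) (n • P) = 0 := by
    unfold dx
    rw [xv_of_ne h1', xv_of_ne hn]
    unfold xm at h
    simp only [h, mul_one, one_mul, sub_self]
  rw [dx_eq_zero_iff] at hd
  rcases hd with hd | hd
  · apply hP (n - 1) (by omega) (by omega)
    have : n • P = (n - 1) • P + (1 : ℕ) • P := by rw [← add_smul]; congr 1; omega
    rw [this] at hd
    exact (add_eq_right.mp hd.symm)
  · apply hP (n + 1) (by omega) (by omega)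
    rw [add_smul, hd]; abel

lemma mul_ne_pm {P : W.Point} {M : ℕ} (hP : Good P M) {n : ℕ} (h1 : 2 ≤ n) (h2 : n + 1 ≤ M) :
    n • P ≠ P ∧ n • P ≠ -P := by
  constructor
  · intro hd
    apply hP (n - 1) (by omega) (by omega)
    have : n • P = (n - 1) • P + (1 : ℕ) • P := by rw [← add_smul]; congr 1; omega
    rw [this, one_smul] at hd
    exact add_eq_right.mp hd
  · intro hd
    apply hP (n + 1) (by omega) (by omega)
    rw [add_smul, hd, one_smul]; abel

lemma ps_mul_ne {P : W.Point} {M : ℕ} (hP : Good P M) (hM : 2 ≤ M) : P ≠ 0 ∧ P + P ≠ 0 ∧ ps P ≠ 0 := by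
  have hP1 : P ≠ 0 := by simpa using hP 1 le_rfl (by omega)
  have hP2 : P + P ≠ 0 := by
    rw [← two_nsmul]; exact hP 2 (by omega) hM
  exact ⟨hP1, hP2, fun h0 => hP2 ((ps_eq_zero_iff hP1).mp h0)⟩

lemma wseq_ne {P : W.Point} {M : ℕ} (hP : Good P M) :
    ∀ n, 1 ≤ n → n ≤ M → wseq (xm P) (ps P) n ≠ 0 := by
  intro n
  induction n using Nat.strong_induction_on with
  | _ n ih =>
    intro h1 h2
    rcases Nat.lt_or_ge n 2 with h | h
    · have : n = 1 := by omega
      subst this
      exact one_ne_zero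
    rcases Nat.lt_or_ge n 3 with h' | h'
    · have : n = 2 := by omega
      subst this
      rw [wseq_two]
      exact (ps_mul_ne hP h2).2.2
    · obtain ⟨k, rfl⟩ : ∃ k, n = k + 3 := ⟨n - 3, by omega⟩
      rw [wseq_rec]
      apply div_ne_zero
      · apply mul_ne_zero
        · exact sub_ne_zero.mpr (xm_ne hP (by omega) (by omega))
        · exact pow_ne_zero 2 (ih (k + 2) (by omega) (by omega) (by omega))
      · exact ih (k + 1) (by omega) (by omega) (by omega)

lemma xSeq {P : W.Point} {M : ℕ} (hP : Good P M) : XSeq (xm P) (wseq (xm P) (ps P)) M where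
  w0 := rfl
  w1 := rfl
  ne := wseq_ne hP
  rec1 := by
    intro d hd
    rcases Nat.eq_zero_or_pos d with rfl | h0
    · rw [add_zero, sub_self, wseq_zero]; ring
    · obtain ⟨k, rfl⟩ : ∃ k, d = k + 1 := ⟨d - 1, by omega⟩
      rw [show 1 + (k + 1) = k + 2 by ring, show 2 + (k + 1) = k + 3 by ring, wseq_rec,
        div_mul_cancel₀ _ (wseq_ne hP (k + 1) (by omega) (by omega))]
  s2 := by
    intro d hd
    obtain ⟨hP1, hP2, hps⟩ := ps_mul_ne hP (by omega)
    obtain ⟨n1, n2⟩ := mul_ne_pm hP (n := 2 + d) (by omega) (by omega)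
    have e1 := S2 hP1 hP2 (xm P (2 + d))
    have e2 := S1 (hP (2 + d) (by omega) (by omega)) hP1 n1 n2 (xm P 1)
    have a1 : (2 + d) • P + P = (3 + d) • P := by
      rw [show (3 + d) = (2 + d) + 1 by ring, add_smul (2 + d) 1 P, one_smul]
    have a2 : (2 + d) • P - P = (1 + d) • P := by
      rw [show (2 + d) = (1 + d) + 1 by ring, add_smul, one_smul]; abel
    rw [a1, a2] at e2
    have x1 : xm P 1 = xc P := by unfold xm; rw [one_smul]
    have x2 : xm P 2 = xc (P + P) := by unfold xm; rw [two_nsmul]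
    rw [wseq_two, x2]
    have e3 : NN W (xc ((2 + d) • P)) (xc P) (xm P 1) = NN W (xc P) (xc P) (xm P (2 + d)) := by
      rw [x1, NN_swap W, NN_swap' W]; rfl
    rw [e3] at e2
    have e4 : xm P (3 + d) = xc ((3 + d) • P) := rfl
    have e5 : xm P (1 + d) = xc ((1 + d) • P) := rfl
    have e6 : xm P (2 + d) = xc ((2 + d) • P) := rfl
    rw [← e4, ← e5, ← e6, ← x1] at e2
    rw [← x1] at e1
    linear_combination -e1 - e2
  s1 := by
    intro k d hk hd
    obtain ⟨hP1, hP2, hps⟩ := ps_mul_ne hP (by omega)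
    obtain ⟨n1, n2⟩ := mul_ne_pm hP (n := k + 1) (by omega) (by omega)
    obtain ⟨n3, n4⟩ := mul_ne_pm hP (n := k + 2 + d) (by omega) (by omega)
    have e1 := S1 (hP (k + 1) (by omega) (by omega)) hP1 n1 n2 (xm P (k + 2 + d))
    have e2 := S1 (hP (k + 2 + d) (by omega) (by omega)) hP1 n3 n4 (xm P (k + 1))
    have a1 : (k + 1) • P + P = (k + 2) • P := by
      rw [show (k + 2) = (k + 1) + 1 by ring, add_smul (k + 1), one_smul]
    have a2 : (k + 1) • P - P = k • P := by rw [add_smul, one_smul]; abel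
    have a3 : (k + 2 + d) • P + P = (k + 3 + d) • P := by
      rw [show (k + 3 + d) = (k + 2 + d) + 1 by ring, add_smul (k + 2 + d), one_smul]
    have a4 : (k + 2 + d) • P - P = (k + 1 + d) • P := by
      rw [show (k + 2 + d) = (k + 1 + d) + 1 by ring, add_smul (k + 1 + d), one_smul]; abel
    have x1 : xm P 1 = xc P := by unfold xm; rw [one_smul]
    rw [a1, a2] at e1
    rw [a3, a4] at e2
    have e3 : NN W (xc ((k + 2 + d) • P)) (xc P) (xm P (k + 1)) =
        NN W (xc ((k + 1) • P)) (xc P) (xm P (k + 2 + d)) := by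
      show NN W (xm P (k + 2 + d)) (xc P) (xm P (k + 1)) =
        NN W (xm P (k + 1)) (xc P) (xm P (k + 2 + d))
      unfold NN; ring
    rw [e3, ← e1] at e2
    rw [x1]
    unfold xm at *
    linear_combination -e2

/-- the value of the division polynomial `Ψ_n` at a point -/
noncomputable def un (P : W.Point) (n : ℕ) : F :=
  (WeierstrassCurve.preΨ' W n).eval (xc P) * (if Even n then ps P else 1)

lemma un_eq {x y : F} (h : W.Nonsingular x y) (n : ℕ) :
    un (Point.some x y h) n = (WeierstrassCurve.Ψ W n).evalEval x y := by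
  rw [WeierstrassCurve.Ψ_ofNat]
  unfold un
  split_ifs with he
  · rw [evalEval_mul, evalEval_C, WeierstrassCurve.ψ₂, evalEval_polynomialY]
    rfl
  · rw [mul_one, mul_one, evalEval_C]
    rfl

lemma poly_zero {x y : F} (h : W.Nonsingular x y) :
    (WeierstrassCurve.Affine.polynomial W).evalEval x y = 0 := h.1

lemma un_odd {P : W.Point} (hP : P ≠ 0) (k : ℕ) (hk : 1 ≤ k) :
    un P (2 * k + 1) = un P (k + 2) * un P k ^ 3 - un P (k - 1) * un P (k + 1) ^ 3 := by
  rcases P with _ | ⟨x, y, h⟩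
  · exact absurd rfl hP
  have e := congrArg (fun p => p.evalEval x y) (WeierstrassCurve.Ψ_odd W (k : ℤ))
  simp only [evalEval_add, evalEval_sub, evalEval_mul, evalEval_pow] at e
  have hz := poly_zero h
  rw [show WeierstrassCurve.toAffine W = W from rfl] at e
  rw [hz, zero_mul, zero_mul, add_zero] at e
  rw [un_eq, un_eq, un_eq, un_eq, un_eq]
  push_cast
  rw [Nat.cast_sub hk]
  exact e

lemma un_even {P : W.Point} (hP : P ≠ 0) (k : ℕ) (hk : 2 ≤ k) :
    un P (2 * k) * ps P =
      un P (k - 1) ^ 2 * un P k * un P (k + 2) - un P (k - 2) * un P k * un P (k + 1) ^ 2 := by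
  rcases P with _ | ⟨x, y, h⟩
  · exact absurd rfl hP
  have e := congrArg (fun p => p.evalEval x y) (WeierstrassCurve.Ψ_even W (k : ℤ))
  simp only [evalEval_sub, evalEval_mul, evalEval_pow] at e
  rw [un_eq, un_eq, un_eq, un_eq, un_eq, un_eq]
  rw [Nat.cast_sub (by omega : 1 ≤ k), Nat.cast_sub hk]
  push_cast
  have e2 : (WeierstrassCurve.ψ₂ W).evalEval x y = ps (Point.some x y h) := by
    rw [WeierstrassCurve.ψ₂, evalEval_polynomialY]; rfl
  rw [e2] at e
  exact e

lemma un_zero (P : W.Point) : un P 0 = 0 := by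
  unfold un; simp

lemma un_one (P : W.Point) : un P 1 = 1 := by
  unfold un; simp

lemma un_two (P : W.Point) : un P 2 = ps P := by
  unfold un; simp

/-- the division polynomials at `P` are the sequence given by the `x`-coordinates -/
theorem un_eq_wseq {P : W.Point} {M : ℕ} (hM : 1 ≤ M) (hP : Good P M) :
    ∀ n, n ≤ M + 1 → un P n = wseq (xm P) (ps P) n := by
  have hX := xSeq hP
  have hP1 : P ≠ 0 := by simpa using hP 1 le_rfl hM
  intro n
  induction n using Nat.strong_induction_on with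
  | _ n ih =>
    intro hn
    rcases Nat.lt_or_ge n 3 with h | h
    · interval_cases n
      · exact un_zero P
      · exact un_one P
      · exact un_two P
    have hM2 : 2 ≤ M := by omega
    obtain ⟨-, hP2, hps⟩ := ps_mul_ne hP hM2
    have x1 : xm P 1 = xc P := by unfold xm; rw [one_smul]
    have x2 : xm P 2 = xc (P + P) := by unfold xm; rw [two_nsmul]
    rcases Nat.lt_or_ge n 5 with h' | h'
    · have h34 : n = 3 ∨ n = 4 := by omega
      have e3 := hX.rec1 1 (by omega)
      rw [wseq_one, mul_one, show 1 + 1 = 2 by rfl, show 2 + 1 = 3 by rfl, wseq_two] at e3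
      rcases h34 with rfl | rfl
      · -- n = 3
        rw [← e3, x1, x2]
        have e := S2 hP1 hP2 (xc P)
        rw [e]
        unfold un NN
        simp only [WeierstrassCurve.preΨ'_three, WeierstrassCurve.Ψ₃, eval_add, eval_mul, eval_pow,
          eval_C, eval_X, eval_ofNat]
        rw [if_neg (by decide)]
        ring
      · -- n = 4
        have e4 := hX.rec1 2 (by omega)
        rw [show 1 + 2 = 3 by rfl, show 2 + 2 = 4 by rfl, wseq_two] at e4
        have hq := Q4 hP1 hP2
        obtain ⟨n1, n2⟩ := mul_ne_pm hP (n := 2) (by omega) (by omega)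
        rw [two_nsmul] at n1 n2
        have eE := E1 hP2 hP1 n1 n2
        have a3 : P + P + P = 3 • P := by
          rw [show (3 : ℕ) = 2 + 1 by rfl, add_smul, two_nsmul, one_smul]
        have a4 : P + P - P = P := by abel
        rw [a3, a4] at eE
        have hd1 : dx ((3 : ℕ) • P) P = xm P 3 - xc P := by
          unfold dx
          rw [xv_of_ne (hP 3 (by omega) (by omega)), xv_of_ne hP1]
          unfold xm; ring
        have hd2 : dx (P + P) P = xm P 2 - xc P := by
          unfold dx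
          rw [xv_of_ne hP2, xv_of_ne hP1, x2]; ring
        rw [hd1, hd2, ← x1] at eE
        apply mul_right_cancel₀ hps
        rw [← e4, ← e3]
        unfold un
        rw [WeierstrassCurve.preΨ'_four, if_pos (by decide), ← hq]
        linear_combination (ps P ^ 4) * eE
    · rcases Nat.even_or_odd' n with ⟨k, rfl | rfl⟩
      · apply mul_right_cancel₀ hps
        rw [un_even hP1 k (by omega)]
        have e := hX.even k (by omega) (by omega)
        rw [wseq_two] at e
        rw [e, ih (k - 1) (by omega) (by omega), ih k (by omega) (by omega),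
          ih (k + 2) (by omega) (by omega), ih (k - 2) (by omega) (by omega),
          ih (k + 1) (by omega) (by omega)]
      · rw [un_odd hP1 k (by omega), hX.odd k (by omega) (by omega),
          ih (k - 1) (by omega) (by omega), ih k (by omega) (by omega),
          ih (k + 2) (by omega) (by omega), ih (k + 1) (by omega) (by omega)]

/-- the value of the division polynomial does not vanish -/
theorem un_ne {P : W.Point} {M : ℕ} (hP : Good P M) {n : ℕ} (h1 : 1 ≤ n) (h2 : n ≤ M) :
    un P n ≠ 0 := by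
  rw [un_eq_wseq (by omega) hP n (by omega)]
  exact wseq_ne hP n h1 h2

/-- `x(P) - x(nP) = Ψ_{n+1} Ψ_{n-1} / Ψ_n²` -/
theorem x_sub {P : W.Point} {M : ℕ} (hP : Good P M) (n : ℕ) (h2 : n + 1 ≤ M) :
    (xc P - xc ((n + 1) • P)) * un P (n + 1) ^ 2 = un P (n + 2) * un P n := by
  have e := (xSeq hP).rec1 n (by omega)
  rw [show 1 + n = n + 1 by ring, show 2 + n = n + 2 by ring] at e
  rw [un_eq_wseq (by omega) hP _ (by omega), un_eq_wseq (by omega) hP _ (by omega),
    un_eq_wseq (by omega) hP _ (by omega)]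
  have x1 : xm P 1 = xc P := by unfold xm; rw [one_smul]
  rw [x1] at e
  exact e

/-- the division polynomial vanishes at a point of exact order `M + 1` -/
theorem un_order {P : W.Point} {M : ℕ} (hM : 1 ≤ M) (hP : Good P M) (h0 : (M + 1) • P = 0) :
    un P (M + 1) = 0 := by
  rcases Nat.lt_or_ge M 2 with h | h
  · have : M = 1 := by omega
    subst this
    rw [un_two]
    have hP1 : P ≠ 0 := by simpa using hP 1 le_rfl le_rfl
    exact (ps_eq_zero_iff hP1).mpr (by rw [← two_nsmul]; exact h0)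
  · obtain ⟨m, rfl⟩ : ∃ m, M = m + 1 := ⟨M - 1, by omega⟩
    have e := x_sub hP m (by omega)
    have hx : (m + 1) • P = -P := by
      rw [add_smul (m + 1) 1 P, one_smul] at h0
      exact eq_neg_of_add_eq_zero_left h0
    have hxc : xc (-P) = xc P := by unfold xc; rw [xv_neg']
    rw [hx, hxc, sub_self, zero_mul] at e
    have := un_ne hP (n := m) (by omega) (by omega)
    exact (mul_eq_zero.mp e.symm).resolve_right this

end DivSeq

end K4M
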