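import Pool.Agent.Lib_helper60.K4M.Dg5
import Pool.Agent.Lib_helper60.K4M.Bri
import Pool.Agent.Lib_helper60.K4M.Delta

/-!
Siegel units of all torsion points.
-/

set_option linter.unusedSectionVars false

namespace K4M

open WeierstrassCurve.Affine

section GT

variable {F : Type*} [Field F] [DecidableEq F] {W : WeierstrassCurve.Affine F}

/-- the torsion points -/
abbrev TP (W : WeierstrassCurve.Affine F) : AddSubgroup W.Point := AddCommGroup.torsion W.Point

lemma TP_tor (P : TP W) : ∃ n : ℕ, 0 < n ∧ n • P = 0 := by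
  obtain ⟨n, hn, h⟩ := isOfFinAddOrder_iff_nsmul_eq_zero.mp P.2
  exact ⟨n, hn, Subtype.ext (by simpa using h)⟩

lemma mem_TP {P : W.Point} : P ∈ TP W ↔ ∃ n : ℕ, 0 < n ∧ n • P = 0 := by
  rw [← isOfFinAddOrder_iff_nsmul_eq_zero]; exact Iff.rfl

lemma le_TP (A : AddSubgroup W.Point) [Finite A] : A ≤ TP W := by
  intro x hx
  rw [mem_TP]
  refine ⟨addOrderOf (⟨x, hx⟩ : A), addOrderOf_pos _, ?_⟩
  have := addOrderOf_nsmul_eq_zero (⟨x, hx⟩ : A)
  have h := congrArg (fun z : A => (z : W.Point)) this
  simpa using h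

lemma IsG4.restrict {A B : AddSubgroup W.Point} (h : A ≤ B) {g : B → FT F} (hg : IsG4 B g) :
    IsG4 A (fun a => g ⟨a, h a.2⟩) := fun a => hg ⟨a, h a.2⟩

instance finite_zm (P : TP W) : Finite (AddSubgroup.zmultiples (P : W.Point)) := by
  have h : IsOfFinAddOrder (P : W.Point) := P.2
  exact finite_zmultiples.mpr h

/-- the Siegel unit of a torsion point -/
noncomputable def gT (P : TP W) : FT F :=
  (siegel_all (AddSubgroup.zmultiples (P : W.Point))).exists.choose
    ⟨P, AddSubgroup.mem_zmultiples _⟩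

/-- `gT` gives the Siegel units of every finite group of points -/
lemma gT_eq {A : AddSubgroup W.Point} [Finite A] {g : A → FT F} (hg : IsG4 A g) (P : TP W)
    (hP : (P : W.Point) ∈ A) : g ⟨P, hP⟩ = gT P := by
  have hle : AddSubgroup.zmultiples (P : W.Point) ≤ A := by
    rw [AddSubgroup.zmultiples_le]; exact hP
  have h1 := hg.restrict hle
  have h2 := (siegel_all (AddSubgroup.zmultiples (P : W.Point))).exists.choose_spec
  have h3 := (siegel_all (AddSubgroup.zmultiples (P : W.Point))).unique h1 h2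
  exact congrFun h3 ⟨P, AddSubgroup.mem_zmultiples _⟩

/-- the restriction of `gT` to a finite group of points -/
theorem gT_isG4 (A : AddSubgroup W.Point) [Finite A] :
    IsG4 A (fun a => gT ⟨(a : W.Point), le_TP A a.2⟩) := by
  obtain ⟨g, hg, -⟩ := siegel_all A
  have : (fun a : A => gT ⟨(a : W.Point), le_TP A a.2⟩) = g := by
    funext a
    exact (gT_eq hg ⟨(a : W.Point), le_TP A a.2⟩ a.2).symm
  rw [this]; exact hg

theorem gT_isG4' (a : TP W) : gT (a + a) - (4 : ℚ) • gT a = lg (pc (a : W.Point)) :=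
  gT_isG4 (AddSubgroup.zmultiples (a : W.Point)) ⟨a, AddSubgroup.mem_zmultiples _⟩

lemma gT_zero : gT (0 : TP W) = 0 :=
  (gT_isG4 (AddSubgroup.zmultiples ((0 : TP W) : W.Point))).zero

lemma gT_neg (a : TP W) : gT (-a) = gT a :=
  (gT_isG4 (AddSubgroup.zmultiples (a : W.Point))).even ⟨a, AddSubgroup.mem_zmultiples _⟩

end GT

section FinTor

variable {F : Type*} [Field F] [DecidableEq F] [CharZero F] {W : WeierstrassCurve.Affine F}

lemma finite_closure (n : ℕ) (hn : 0 < n) (s : Finset W.Point)
    (hs : (s : Set W.Point) ⊆ torS W.Point n) :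
    Finite (AddSubgroup.closure (s : Set W.Point)) := by
  apply AddCommGroup.finite_of_fg_isAddTorsion
  intro x
  rw [isOfFinAddOrder_iff_nsmul_eq_zero]
  refine ⟨n, hn, ?_⟩
  have hle : AddSubgroup.closure (s : Set W.Point) ≤ torS W.Point n :=
    (AddSubgroup.closure_le _).mpr hs
  have := mem_torS.mp (hle x.2)
  exact Subtype.ext (by simpa using this)

/-- the `n`-torsion is finite -/
theorem finite_torS (n : ℕ) (hn : 0 < n) : Finite (torS W.Point n) := by
  classical
  by_contra hinf
  have hi : ((torS W.Point n : AddSubgroup W.Point) : Set W.Point).Infinite := by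
    rw [← Set.infinite_coe_iff]
    exact not_finite_iff_infinite.mp hinf
  obtain ⟨s, hs, hc⟩ := hi.exists_subset_card_eq (n ^ 2 + 1)
  have hfin := finite_closure n hn s hs
  have := Fintype.ofFinite (AddSubgroup.closure (s : Set W.Point))
  have h1 := card_tors_le (A := AddSubgroup.closure (s : Set W.Point)) n hn.ne'
  have hle : AddSubgroup.closure (s : Set W.Point) ≤ torS W.Point n :=
    (AddSubgroup.closure_le _).mpr hs
  have h2 : s.card ≤ (tors (AddSubgroup.closure (s : Set W.Point)) n).card := by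
    apply Finset.card_le_card_of_injOn
      (fun x => if hx : x ∈ s then (⟨x, AddSubgroup.subset_closure hx⟩ :
        AddSubgroup.closure (s : Set W.Point)) else 0)
    · intro x hx
      have hx' : x ∈ s := hx
      simp only [dif_pos hx']
      show _ ∈ tors _ n
      rw [mem_tors]
      apply Subtype.ext
      have := mem_torS.mp (hle (AddSubgroup.subset_closure hx'))
      simpa using this
    · intro x hx y hy hxy
      have hx' : x ∈ s := hx
      have hy' : y ∈ s := hy
      simp only [dif_pos hx', dif_pos hy'] at hxy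
      exact congrArg (fun z : AddSubgroup.closure (s : Set W.Point) => (z : W.Point)) hxy
  omega

lemma torS_equiv (n : ℕ) (hn : 0 < n) : Nonempty (torS (TP W) n ≃ torS W.Point n) := by
  refine ⟨⟨fun x => ⟨(x : TP W), ?_⟩, fun y => ⟨⟨(y : W.Point), ?_⟩, ?_⟩, ?_, ?_⟩⟩
  · have h : n • (x : TP W) = 0 := mem_torS.mp x.2
    rw [mem_torS, ← AddSubgroup.coe_nsmul, h]; rfl
  · rw [mem_TP]; exact ⟨n, hn, y.2⟩
  · rw [mem_torS]
    apply Subtype.ext
    exact mem_torS.mp y.2
  · intro x; rfl
  · intro y; rfl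

lemma finite_torS' (n : ℕ) (hn : 0 < n) : Finite (torS (TP W) n) := by
  obtain ⟨e⟩ := torS_equiv (W := W) n hn
  have := finite_torS (W := W) n hn
  exact Finite.of_equiv _ e.symm

theorem TP_LF : LF (TP W) where
  tor := TP_tor
  fin := finite_torS'

end FinTor

end K4M
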