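import Pool.Agent.Lib_helper60.K4M.Curve

/-!
Addition formulas for the brackets of points of a Weierstrass curve.
-/

set_option linter.unusedSectionVars false

namespace K4M

open WeierstrassCurve.Affine

section Geo

variable {F : Type*} [Field F] [DecidableEq F] {W : WeierstrassCurve.Affine F}

/-- `3x² + 2a₂x + a₄ - a₁y`, half of the second derivative of `x` at a point of order two -/
def ph : W.Point → F
  | .zero => 1
  | .some x y _ => 3 * x ^ 2 + 2 * W.a₂ * x + W.a₄ - W.a₁ * y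

lemma ps_some {x y : F} (h : W.Nonsingular x y) : ps (Point.some x y h) = y - W.negY x y := by
  unfold ps negY; ring

lemma x_ne {x₁ y₁ x₂ y₂ : F} {h₁ : W.Nonsingular x₁ y₁} {h₂ : W.Nonsingular x₂ y₂}
    (h : (Point.some x₁ y₁ h₁ : W.Point) ≠ Point.some x₂ y₂ h₂)
    (h' : (Point.some x₁ y₁ h₁ : W.Point) ≠ -Point.some x₂ y₂ h₂) : x₁ ≠ x₂ := by
  intro hx
  have := (dx_eq_zero_iff (a := (Point.some x₁ y₁ h₁ : W.Point)) (b := Point.some x₂ y₂ h₂)).mp
    (by simp [dx, xv, hx])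
  exact this.elim h h'

/-- (E1) -/
theorem E1 {a b : W.Point} (ha : a ≠ 0) (hb : b ≠ 0) (hab : a ≠ b) (hab' : a ≠ -b) :
    dx (a + b) (a - b) * dx a b ^ 2 = - (ps a * ps b) := by
  rcases a with _ | ⟨x₁, y₁, h₁⟩
  · exact absurd rfl ha
  rcases b with _ | ⟨x₂, y₂, h₂⟩
  · exact absurd rfl hb
  have hx := x_ne hab hab'
  rw [sub_eq_add_neg, Point.neg_some, Point.add_of_X_ne hx, Point.add_of_X_ne hx, ps_some, ps_some]
  have key := addX_eq_addX_negY_sub (W := W) y₁ y₂ hx
  simp only [dx, xv, mul_one, one_mul]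
  rw [key]
  have hd : x₂ - x₁ ≠ 0 := sub_ne_zero.mpr hx.symm
  field_simp
  ring

/-- (F2) -/
theorem F2 {a i : W.Point} (ha : a ≠ 0) (hi : i ≠ 0) (hii : i + i = 0) (hai : a ≠ i) :
    dx (a + i) i * dx a i = ph i := by
  have hin : -i = i := by rw [neg_eq_iff_add_eq_zero]; exact hii
  rcases a with _ | ⟨x₁, y₁, h₁⟩
  · exact absurd rfl ha
  rcases i with _ | ⟨x₂, y₂, h₂⟩
  · exact absurd rfl hi
  have hx := x_ne hai (by rw [hin]; exact hai)
  have hps : 2 * y₂ + W.a₁ * x₂ + W.a₃ = 0 := by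
    rw [Point.neg_some] at hin
    have := (Point.some.injEq _ _ _ _ _ _).mp hin
    have h2 := this.2
    unfold negY at h2
    linear_combination -h2
  have e1 := (equation_iff' x₁ y₁).mp h₁.1
  have e2 := (equation_iff' x₂ y₂).mp h₂.1
  rw [Point.add_of_X_ne hx]
  simp only [dx, xv, mul_one, one_mul, ph]
  rw [slope_of_X_ne hx, addX]
  have hd : x₁ - x₂ ≠ 0 := sub_ne_zero.mpr hx
  field_simp
  linear_combination e1 - e2 + (y₂ - y₁) * hps

lemma ps_two_torsion {i : W.Point} (hi : i ≠ 0) (hii : i + i = 0) : ps i = 0 := by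
  have hin : -i = i := by rw [neg_eq_iff_add_eq_zero]; exact hii
  rcases i with _ | ⟨x₂, y₂, h₂⟩
  · exact absurd rfl hi
  rw [Point.neg_some] at hin
  have h2 := ((Point.some.injEq _ _ _ _ _ _).mp hin).2
  rw [ps_some, h2, sub_self]

lemma ps_eq_zero_iff {a : W.Point} (ha : a ≠ 0) : ps a = 0 ↔ a + a = 0 := by
  constructor
  · intro h
    rcases a with _ | ⟨x, y, hh⟩
    · exact absurd rfl ha
    · rw [ps_some] at h
      exact Point.add_self_of_Y_eq (sub_eq_zero.mp h)
  · exact ps_two_torsion ha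

lemma ps_neg (a : W.Point) : ps (-a) = ps a ∨ ps (-a) = - ps a := by
  rcases a with _ | ⟨x, y, h⟩
  · left; rfl
  · right
    rw [Point.neg_some, ps_some, ps_some, negY_negY]; ring

/-- (F3) -/
theorem F3 {a i : W.Point} (ha : a ≠ 0) (hi : i ≠ 0) (hii : i + i = 0) (hai : a ≠ i) :
    ps (a + i) * dx a i ^ 2 = - (ph i * ps a) := by
  have hin : -i = i := by rw [neg_eq_iff_add_eq_zero]; exact hii
  have h2 := F2 ha hi hii hai
  have hpi := ps_two_torsion hi hii
  rcases a with _ | ⟨x₁, y₁, h₁⟩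
  · exact absurd rfl ha
  rcases i with _ | ⟨x₂, y₂, h₂⟩
  · exact absurd rfl hi
  have hx := x_ne hai (by rw [hin]; exact hai)
  have key := addY_sub_negY_addY (W := W) y₁ y₂ hx
  simp only at key
  rw [ps_some] at hpi
  rw [← h2, Point.add_of_X_ne hx, ps_some, ps_some, key, hpi]
  simp only [dx, xv, mul_one, one_mul]
  have hd : x₂ - x₁ ≠ 0 := sub_ne_zero.mpr hx.symm
  field_simp
  ring

lemma ph_ne_zero {i : W.Point} (hi : i ≠ 0) (hii : i + i = 0) : ph i ≠ 0 := by
  have hpi := ps_two_torsion hi hii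
  rcases i with _ | ⟨x₂, y₂, h₂⟩
  · exact absurd rfl hi
  have h := ((nonsingular_iff' x₂ y₂).mp h₂).2
  simp only [ps] at hpi
  rcases h with h | h
  · intro h0
    apply h
    simp only [ph] at h0
    linear_combination -h0
  · exact absurd hpi h

/-- `ψ̂(a)`: `ψ₂(a)` if `2a ≠ 0`, the half second derivative if `2a = 0` -/
def pc (a : W.Point) : F := if a + a = 0 then ph a else ps a

lemma pc_ne_zero (a : W.Point) : pc a ≠ 0 := by
  unfold pc
  by_cases ha : a = 0
  · subst ha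
    rw [if_pos (add_zero 0)]
    exact one_ne_zero
  split_ifs with h
  · exact ph_ne_zero ha h
  · exact fun h' => h ((ps_eq_zero_iff ha).mp h')

lemma pc_zero : pc (0 : W.Point) = 1 := by
  unfold pc; rw [if_pos (add_zero 0)]; rfl

lemma lg_pc_neg (a : W.Point) : lg (pc (-a)) = lg (pc a) := by
  by_cases h : a + a = 0
  · rw [neg_eq_of_add_eq_zero_left h]
  · have h' : -a + -a ≠ 0 := by
      intro h0; apply h
      have : -(a + a) = 0 := by rw [neg_add]; exact h0
      exact neg_eq_zero.mp this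
    unfold pc
    rw [if_neg h, if_neg h']
    rcases ps_neg a with e | e
    · rw [e]
    · rw [e, lg_neg]

lemma dx_zero_left {a : W.Point} (ha : a ≠ 0) : dx 0 a = 1 := by
  rcases a with _ | ⟨x, y, h⟩
  · exact absurd rfl ha
  · show dx Point.zero _ = 1
    simp [dx, xv]

lemma dx_comm' (a b : W.Point) : dx b a = - dx a b := dx_bracket.anti a b

lemma lg_dx_comm (a b : W.Point) : lg (dx b a) = lg (dx a b) := by
  rw [dx_comm', lg_neg]

lemma lg_dx_zero_left (a : W.Point) : lg (dx 0 a) = 0 := by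
  by_cases ha : a = 0
  · subst ha
    rw [dx_bracket.self, lg_zero]
  · rw [dx_zero_left ha, lg_one]

lemma xv_neg' (a : W.Point) : xv (-a) = xv a := by
  rcases a with _ | ⟨x, y, h⟩
  · rfl
  · rfl

lemma dx_neg_left (a b : W.Point) : dx (-a) b = dx a b := by
  unfold dx; rw [xv_neg']

lemma dx_neg_right (a b : W.Point) : dx a (-b) = dx a b := by
  unfold dx; rw [xv_neg']

lemma dx_ne {a b : W.Point} (h1 : a ≠ b) (h2 : a ≠ -b) : dx a b ≠ 0 := by
  intro h
  rw [dx_eq_zero_iff] at h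
  exact h.elim h1 h2

/-- (E1) in logarithmic form -/
lemma lgE1 {a b : W.Point} (ha : a + a ≠ 0) (hb : b + b ≠ 0) (hab : a ≠ b) (hab' : a ≠ -b) :
    lg (dx (a + b) (a - b)) + (2 : ℚ) • lg (dx a b) = lg (pc a) + lg (pc b) := by
  have ha0 : a ≠ 0 := by rintro rfl; exact ha (add_zero 0)
  have hb0 : b ≠ 0 := by rintro rfl; exact hb (add_zero 0)
  have h := E1 ha0 hb0 hab hab'
  have n1 := dx_ne hab hab'
  have n2 : ps a ≠ 0 := fun h => ha ((ps_eq_zero_iff ha0).mp h)
  have n3 : ps b ≠ 0 := fun h => hb ((ps_eq_zero_iff hb0).mp h)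
  have n4 : dx (a + b) (a - b) ≠ 0 := by
    intro h0
    rw [h0, zero_mul] at h
    exact (neg_ne_zero.mpr (mul_ne_zero n2 n3)) h.symm
  have e := congrArg lg h
  rw [lg_neg, lg_mul n4 (pow_ne_zero 2 n1), lg_pow n1, lg_mul n2 n3] at e
  unfold pc
  rw [if_neg ha, if_neg hb]
  simpa using e

/-- (F2) in logarithmic form -/
lemma lgF2 {a i : W.Point} (ha : a ≠ 0) (hi : i ≠ 0) (hii : i + i = 0) (hai : a ≠ i) :
    lg (dx (a + i) i) + lg (dx a i) = lg (pc i) := by
  have hin : -i = i := neg_eq_of_add_eq_zero_left hii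
  have h := F2 ha hi hii hai
  have n1 : dx a i ≠ 0 := dx_ne hai (by rw [hin]; exact hai)
  have n2 : dx (a + i) i ≠ 0 := by
    apply dx_ne
    · intro h0; apply ha; exact add_eq_right.mp h0
    · rw [hin]; intro h0; apply ha; exact add_eq_right.mp h0
  have e := congrArg lg h
  rw [lg_mul n2 n1] at e
  unfold pc
  rw [if_pos hii]
  exact e

/-- (F3) in logarithmic form -/
lemma lgF3 {a i : W.Point} (ha : a + a ≠ 0) (hi : i ≠ 0) (hii : i + i = 0) :
    lg (pc (a + i)) + (2 : ℚ) • lg (dx a i) = lg (pc i) + lg (pc a) := by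
  have hin : -i = i := neg_eq_of_add_eq_zero_left hii
  have ha0 : a ≠ 0 := by rintro rfl; exact ha (add_zero 0)
  have hai : a ≠ i := by rintro rfl; exact ha hii
  have h := F3 ha0 hi hii hai
  have n1 : dx a i ≠ 0 := dx_ne hai (by rw [hin]; exact hai)
  have hs : a + i + (a + i) = a + a := by
    rw [show a + i + (a + i) = a + a + (i + i) by abel, hii, add_zero]
  have n2 : ph i ≠ 0 := ph_ne_zero hi hii
  have n3 : ps a ≠ 0 := fun h => ha ((ps_eq_zero_iff ha0).mp h)
  have n4 : ps (a + i) ≠ 0 := by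
    intro h0
    rw [h0, zero_mul] at h
    exact (neg_ne_zero.mpr (mul_ne_zero n2 n3)) h.symm
  have e := congrArg lg h
  rw [lg_neg, lg_mul n4 (pow_ne_zero 2 n1), lg_pow n1, lg_mul n2 n3] at e
  unfold pc
  rw [if_pos hii, if_neg ha, if_neg (by rw [hs]; exact ha)]
  simpa using e

end Geo

end K4M
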