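import Pool.Agent.Lib_helper60.K4M.Crs

/-!
The five term relation of five points of the plane: the alternating sum of the cross ratio
symbols of the projections of four of the points from the fifth one vanishes.
-/

namespace K4M

section Plane

variable {F : Type*} [Field F] {ι : Type*}

/-- a bracket with three entries, as the determinant of three vectors of `F³` -/
structure TBracket (T : ι → ι → ι → F) : Prop where
  s12 : ∀ a b c, T b a c = - T a b c
  s23 : ∀ a b c, T a c b = - T a b c
  pl : ∀ p a b c d, T p a b * T p c d - T p a c * T p b d + T p a d * T p b c = 0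

variable {T : ι → ι → ι → F}

lemma TBracket.br (hT : TBracket T) (p : ι) : Bracket (T p) :=
  ⟨fun a b => hT.s23 p a b, fun a b c d => hT.pl p a b c d⟩

/-- the alternating sum of the five projections -/
noncomputable def pl5 (T : ι → ι → ι → F) (a b c d e : ι) : B2 F :=
  cr (T a) b c d e - cr (T b) a c d e + cr (T c) a b d e - cr (T d) a b c e + cr (T e) a b c d

lemma pl5_swap12 [Infinite F] (hT : TBracket T) (a b c d e : ι) :
    pl5 T b a c d e = - pl5 T a b c d e := by
  unfold pl5
  rw [cr_swap_ab (hT.br c) a b d e, cr_swap_ab (hT.br d) a b c e, cr_swap_ab (hT.br e) a b c d]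
  abel

lemma pl5_swap23 [Infinite F] (hT : TBracket T) (a b c d e : ι) :
    pl5 T a c b d e = - pl5 T a b c d e := by
  unfold pl5
  rw [cr_swap_ab (hT.br a) b c d e, cr_swap_bc a b c e, cr_swap_bc a b c d]
  abel

lemma pl5_swap34 [Infinite F] (hT : TBracket T) (a b c d e : ι) :
    pl5 T a b d c e = - pl5 T a b c d e := by
  unfold pl5
  rw [cr_swap_bc b c d e, cr_swap_bc a c d e, cr_swap_cd (hT.br e) a b c d]
  abel

lemma pl5_swap45 [Infinite F] (hT : TBracket T) (a b c d e : ι) :
    pl5 T a b c e d = - pl5 T a b c d e := by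
  unfold pl5
  rw [cr_swap_cd (hT.br a) b c d e, cr_swap_cd (hT.br b) a c d e, cr_swap_cd (hT.br c) a b d e]
  abel

lemma pl5_generic [Infinite F] (hT : TBracket T) {a b c d e : ι}
    (h012 : T a b c ≠ 0) (h013 : T a b d ≠ 0) (h014 : T a b e ≠ 0) (h023 : T a c d ≠ 0)
    (h024 : T a c e ≠ 0) (h034 : T a d e ≠ 0) (h123 : T b c d ≠ 0) (h124 : T b c e ≠ 0)
    (h134 : T b d e ≠ 0) (h234 : T c d e ≠ 0) : pl5 T a b c d e = 0 := by
  -- all brackets in terms of the ten basic ones
  have sdab : T d a b = T a b d := by rw [hT.s12 a d b, hT.s23 a b d, neg_neg]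
  have sdac : T d a c = T a c d := by rw [hT.s12 a d c, hT.s23 a c d, neg_neg]
  have sdae : T d a e = - T a d e := by rw [hT.s12 a d e]
  have sdbc : T d b c = T b c d := by rw [hT.s12 b d c, hT.s23 b c d, neg_neg]
  have sdbe : T d b e = - T b d e := by rw [hT.s12 b d e]
  have sdce : T d c e = - T c d e := by rw [hT.s12 c d e]
  have seab : T e a b = T a b e := by rw [hT.s12 a e b, hT.s23 a b e, neg_neg]
  have seac : T e a c = T a c e := by rw [hT.s12 a e c, hT.s23 a c e, neg_neg]
  have sead : T e a d = T a d e := by rw [hT.s12 a e d, hT.s23 a d e, neg_neg]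
  have sebc : T e b c = T b c e := by rw [hT.s12 b e c, hT.s23 b c e, neg_neg]
  have sebd : T e b d = T b d e := by rw [hT.s12 b e d, hT.s23 b d e, neg_neg]
  have secd : T e c d = T c d e := by rw [hT.s12 c e d, hT.s23 c d e, neg_neg]
  have sbac : T b a c = - T a b c := hT.s12 a b c
  have sbad : T b a d = - T a b d := hT.s12 a b d
  have sbae : T b a e = - T a b e := hT.s12 a b e
  have scab : T c a b = T a b c := by rw [hT.s12 a c b, hT.s23 a b c, neg_neg]
  have scad : T c a d = - T a c d := hT.s12 a c d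
  have scae : T c a e = - T a c e := hT.s12 a c e
  have scbd : T c b d = - T b c d := hT.s12 b c d
  have scbe : T c b e = - T b c e := hT.s12 b c e
  set X : F := T e a b * T e c d / (T e a c * T e b d) with hX
  set Y : F := T d a b * T d c e / (T d a c * T d b e) with hY
  have eX : X = T a b e * T c d e / (T a c e * T b d e) := by
    rw [hX, seab, secd, seac, sebd]
  have eY : Y = T a b d * T c d e / (T a c d * T b d e) := by
    rw [hY, sdab, sdce, sdac, sdbe, mul_neg, mul_neg, neg_div_neg_eq]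
  have ple := hT.pl e a b c d
  rw [seab, secd, seac, sebd, sead, sebc] at ple
  have pld := hT.pl d a b c e
  rw [sdab, sdce, sdac, sdbe, sdae, sdbc] at pld
  have X1 : 1 - X = T a d e * T b c e / (T a c e * T b d e) := by
    rw [eX, eq_div_iff (mul_ne_zero h024 h134), sub_mul,
      div_mul_cancel₀ _ (mul_ne_zero h024 h134)]
    linear_combination -ple
  have Y1 : 1 - Y = T a d e * T b c d / (T a c d * T b d e) := by
    rw [eY, eq_div_iff (mul_ne_zero h023 h134), sub_mul,
      div_mul_cancel₀ _ (mul_ne_zero h023 h134)]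
    linear_combination pld
  have hX0 : X ≠ 0 := by
    rw [eX]; exact div_ne_zero (mul_ne_zero h014 h234) (mul_ne_zero h024 h134)
  have hY0 : Y ≠ 0 := by
    rw [eY]; exact div_ne_zero (mul_ne_zero h013 h234) (mul_ne_zero h023 h134)
  have hX1' : 1 - X ≠ 0 := by
    rw [X1]; exact div_ne_zero (mul_ne_zero h034 h124) (mul_ne_zero h024 h134)
  have hY1' : 1 - Y ≠ 0 := by
    rw [Y1]; exact div_ne_zero (mul_ne_zero h034 h123) (mul_ne_zero h023 h134)
  have hX1 : X ≠ 1 := fun h => hX1' (by rw [h, sub_self])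
  have hY1 : Y ≠ 1 := fun h => hY1' (by rw [h, sub_self])
  have eYX : Y / X = T a b d * T a c e / (T a b e * T a c d) := by
    rw [eX, eY]; field_simp
  have pla := hT.pl a b c d e
  have hXY : X ≠ Y := by
    intro h
    rw [← h, div_self hX0, eq_comm, div_eq_one_iff_eq (mul_ne_zero h014 h023)] at eYX
    have h0 : T a b c * T a d e = 0 := by linear_combination pla + eYX
    exact mul_ne_zero h012 h034 h0
  have e1 : (1 - X) / (1 - Y) = T a c d * T b c e / (T a c e * T b c d) := by
    rw [X1, Y1]; field_simp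
  have e2 : (1 - X⁻¹) / (1 - Y⁻¹) = T a b d * T b c e / (T a b e * T b c d) := by
    have : (1 - X⁻¹) / (1 - Y⁻¹) = ((1 - X) / (1 - Y)) * (Y / X) := by
      have a1 : (1 - X⁻¹) = -(1 - X) / X := by field_simp; ring
      have a2 : (1 - Y⁻¹) = -(1 - Y) / Y := by field_simp; ring
      rw [a1, a2]
      field_simp
    rw [this, e1, eYX]; field_simp
  have r := five hX0 hX1 hY0 hY1 hXY
  rw [eYX, e1, e2] at r
  have g : ∀ (D : ι → ι → F), Bracket D → ∀ p q r s : ι,
      sy (D p r * D q s / (D p s * D q r)) = cr D p q r s := by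
    intro D hD p q r s
    rw [← neg_neg (cr D p q r s), ← cr_swap_bc p q r s, ← cr_swap_cd hD p r q s]
    unfold cr
    rw [hD.anti q s, hD.anti q r, mul_neg, mul_neg, neg_div_neg_eq]
  have g0 : sy (T a b d * T a c e / (T a b e * T a c d)) = cr (T a) b c d e :=
    g (T a) (hT.br a) b c d e
  have g1 : sy (T a b d * T b c e / (T a b e * T b c d)) = cr (T b) a c d e := by
    rw [← g (T b) (hT.br b) a c d e, sbad, sbae, neg_mul, neg_mul, neg_div_neg_eq]
  have g2 : sy (T a c d * T b c e / (T a c e * T b c d)) = cr (T c) a b d e := by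
    rw [← g (T c) (hT.br c) a b d e, scad, scae, scbd, scbe, neg_mul_neg, neg_mul_neg]
  have f0 : sy X = cr (T e) a b c d := rfl
  have f1 : sy Y = cr (T d) a b c e := rfl
  rw [g0, g1, g2, f0, f1] at r
  unfold pl5
  rw [← r]; abel

/-- nondegeneracy: no four of the points are collinear -/
structure NTBracket (T : ι → ι → ι → F) : Prop extends TBracket T where
  no4 : ∀ x y z w, x ≠ y → x ≠ z → x ≠ w → y ≠ z → y ≠ w → z ≠ w → T x y z = 0 → T x y w ≠ 0

lemma pl5_zero012 (hT : NTBracket T) {a b c d e : ι} (hab : a ≠ b) (hac : a ≠ c)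
    (had : a ≠ d) (hae : a ≠ e) (hbc : b ≠ c) (hbd : b ≠ d) (hbe : b ≠ e) (hcd : c ≠ d)
    (hce : c ≠ e) (hde : d ≠ e) (h : T a b c = 0) : pl5 T a b c d e = 0 := by
  have hT' : TBracket T := hT.toTBracket
  have h1 : T b a c = 0 := by rw [hT.s12 a b c, h, neg_zero]
  have h2 : T c a b = 0 := by rw [hT.s12 a c b, hT.s23 a b c, h, neg_zero, neg_zero]
  have hacb : T a c b = 0 := by rw [hT.s23 a b c, h, neg_zero]
  have h013 : T a b d ≠ 0 := hT.no4 a b c d hab hac had hbc hbd hcd h
  have h014 : T a b e ≠ 0 := hT.no4 a b c e hab hac hae hbc hbe hce h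
  have h023 : T a c d ≠ 0 := hT.no4 a c b d hac hab had hbc.symm hcd hbd hacb
  have h024 : T a c e ≠ 0 := hT.no4 a c b e hac hab hae hbc.symm hce hbe hacb
  unfold pl5
  rw [cr_zero_ab b c d e h, cr_zero_ab a c d e h1, cr_zero_ab a b d e h2]
  have sdab : T d a b = T a b d := by rw [hT.s12 a d b, hT.s23 a b d, neg_neg]
  have sdac : T d a c = T a c d := by rw [hT.s12 a d c, hT.s23 a c d, neg_neg]
  have sdbe : T d b e = - T b d e := by rw [hT.s12 b d e]
  have sdce : T d c e = - T c d e := by rw [hT.s12 c d e]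
  have seab : T e a b = T a b e := by rw [hT.s12 a e b, hT.s23 a b e, neg_neg]
  have seac : T e a c = T a c e := by rw [hT.s12 a e c, hT.s23 a c e, neg_neg]
  have sebd : T e b d = T b d e := by rw [hT.s12 b e d, hT.s23 b d e, neg_neg]
  have secd : T e c d = T c d e := by rw [hT.s12 c e d, hT.s23 c d e, neg_neg]
  have key : cr (T e) a b c d = cr (T d) a b c e := by
    unfold cr
    rw [seab, secd, seac, sebd, sdab, sdce, sdac, sdbe, mul_neg, mul_neg, neg_div_neg_eq]
    by_cases h134 : T b d e = 0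
    · rw [h134]; simp
    congr 1
    rw [div_eq_div_iff (mul_ne_zero h024 h134) (mul_ne_zero h023 h134)]
    have pla := hT.pl a b c d e
    rw [h] at pla
    linear_combination T c d e * T b d e * pla
  rw [key]; abel


/-- pairwise distinct indices -/
def Dist5 (a b c d e : ι) : Prop :=
  a ≠ b ∧ a ≠ c ∧ a ≠ d ∧ a ≠ e ∧ b ≠ c ∧ b ≠ d ∧ b ≠ e ∧ c ≠ d ∧ c ≠ e ∧ d ≠ e

lemma Dist5.swap23 {a b c d e : ι} (h : Dist5 a b c d e) : Dist5 a c b d e := by
  unfold Dist5 at *; tauto

lemma Dist5.swap12 {a b c d e : ι} (h : Dist5 a b c d e) : Dist5 b a c d e := by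
  unfold Dist5 at *; tauto

lemma Dist5.swap34 {a b c d e : ι} (h : Dist5 a b c d e) : Dist5 a b d c e := by
  unfold Dist5 at *; tauto

lemma Dist5.swap45 {a b c d e : ι} (h : Dist5 a b c d e) : Dist5 a b c e d := by
  unfold Dist5 at *; tauto

lemma pl5_z012 (hT : NTBracket T) {a b c d e : ι} (hd : Dist5 a b c d e)
    (h : T a b c = 0) : pl5 T a b c d e = 0 := by
  obtain ⟨h1, h2, h3, h4, h5, h6, h7, h8, h9, h10⟩ := hd
  exact pl5_zero012 hT h1 h2 h3 h4 h5 h6 h7 h8 h9 h10 h

lemma pl5_z013 [Infinite F] (hT : NTBracket T) {a b c d e : ι} (hd : Dist5 a b c d e)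
    (h : T a b d = 0) : pl5 T a b c d e = 0 := by
  rw [← neg_neg (pl5 T a b c d e), ← pl5_swap34 hT.toTBracket, pl5_z012 hT hd.swap34 h, neg_zero]

lemma pl5_z014 [Infinite F] (hT : NTBracket T) {a b c d e : ι} (hd : Dist5 a b c d e)
    (h : T a b e = 0) : pl5 T a b c d e = 0 := by
  rw [← neg_neg (pl5 T a b c d e), ← pl5_swap45 hT.toTBracket, pl5_z013 hT hd.swap45 h, neg_zero]

lemma pl5_z023 [Infinite F] (hT : NTBracket T) {a b c d e : ι} (hd : Dist5 a b c d e)
    (h : T a c d = 0) : pl5 T a b c d e = 0 := by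
  rw [← neg_neg (pl5 T a b c d e), ← pl5_swap23 hT.toTBracket, pl5_z013 hT hd.swap23 h, neg_zero]

lemma pl5_z024 [Infinite F] (hT : NTBracket T) {a b c d e : ι} (hd : Dist5 a b c d e)
    (h : T a c e = 0) : pl5 T a b c d e = 0 := by
  rw [← neg_neg (pl5 T a b c d e), ← pl5_swap23 hT.toTBracket, pl5_z014 hT hd.swap23 h, neg_zero]

lemma pl5_z034 [Infinite F] (hT : NTBracket T) {a b c d e : ι} (hd : Dist5 a b c d e)
    (h : T a d e = 0) : pl5 T a b c d e = 0 := by
  rw [← neg_neg (pl5 T a b c d e), ← pl5_swap34 hT.toTBracket, pl5_z024 hT hd.swap34 h, neg_zero]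

lemma pl5_z123 [Infinite F] (hT : NTBracket T) {a b c d e : ι} (hd : Dist5 a b c d e)
    (h : T b c d = 0) : pl5 T a b c d e = 0 := by
  rw [← neg_neg (pl5 T a b c d e), ← pl5_swap12 hT.toTBracket, pl5_z023 hT hd.swap12 h, neg_zero]

lemma pl5_z124 [Infinite F] (hT : NTBracket T) {a b c d e : ι} (hd : Dist5 a b c d e)
    (h : T b c e = 0) : pl5 T a b c d e = 0 := by
  rw [← neg_neg (pl5 T a b c d e), ← pl5_swap12 hT.toTBracket, pl5_z024 hT hd.swap12 h, neg_zero]

lemma pl5_z134 [Infinite F] (hT : NTBracket T) {a b c d e : ι} (hd : Dist5 a b c d e)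
    (h : T b d e = 0) : pl5 T a b c d e = 0 := by
  rw [← neg_neg (pl5 T a b c d e), ← pl5_swap12 hT.toTBracket, pl5_z034 hT hd.swap12 h, neg_zero]

lemma pl5_z234 [Infinite F] (hT : NTBracket T) {a b c d e : ι} (hd : Dist5 a b c d e)
    (h : T c d e = 0) : pl5 T a b c d e = 0 := by
  rw [← neg_neg (pl5 T a b c d e), ← pl5_swap23 hT.toTBracket, pl5_z134 hT hd.swap23 h, neg_zero]

/-- the plane five term relation for five distinct points, no four of which are collinear -/
theorem pl5_eq_zero [Infinite F] (hT : NTBracket T) {a b c d e : ι} (hd : Dist5 a b c d e) :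
    pl5 T a b c d e = 0 := by
  by_cases h012 : T a b c = 0
  · exact pl5_z012 hT hd h012
  by_cases h013 : T a b d = 0
  · exact pl5_z013 hT hd h013
  by_cases h014 : T a b e = 0
  · exact pl5_z014 hT hd h014
  by_cases h023 : T a c d = 0
  · exact pl5_z023 hT hd h023
  by_cases h024 : T a c e = 0
  · exact pl5_z024 hT hd h024
  by_cases h034 : T a d e = 0
  · exact pl5_z034 hT hd h034
  by_cases h123 : T b c d = 0
  · exact pl5_z123 hT hd h123
  by_cases h124 : T b c e = 0
  · exact pl5_z124 hT hd h124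
  by_cases h134 : T b d e = 0
  · exact pl5_z134 hT hd h134
  by_cases h234 : T c d e = 0
  · exact pl5_z234 hT hd h234
  exact pl5_generic hT.toTBracket h012 h013 h014 h023 h024 h034 h123 h124 h134 h234

end Plane

end K4M
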